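import Pool.Agent.Q64.BP.Stm

/-!
# Project BP, job BT: the building block `η(x) h(t)`
-/

open MeasureTheory Filter Topology Set
open scoped ENNReal NNReal ContDiff

namespace Pool.Agent.Q64.BP

namespace BT

theorem reg {c0 c1 c2 k1 k2 : ℝ → ℝ} (hc2 : Continuous c2) (hc0 : ∀ x, HasDerivAt c0 (c1 x) x)
    (hc1 : ∀ x, HasDerivAt c1 (c2 x) x) (hk2 : Continuous k2) (hk1 : ∀ x, HasDerivAt k1 (k2 x) x) :
    Reg (fun p => c0 p.2 * k1 p.1) (fun p => c0 p.2 * k2 p.1) (fun p => c1 p.2 * k1 p.1)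
      (fun p => c2 p.2 * k1 p.1) := by
  have e0 : Continuous c0 := continuous_iff_continuousAt.mpr fun x => (hc0 x).continuousAt
  have e1 : Continuous c1 := continuous_iff_continuousAt.mpr fun x => (hc1 x).continuousAt
  have e2 : Continuous k1 := continuous_iff_continuousAt.mpr fun x => (hk1 x).continuousAt
  refine ⟨fun t x => (hk1 t).const_mul (c0 x), fun t x => (hc0 x).mul_const (k1 t),
    fun t x => (hc1 x).mul_const (k1 t), ?_, ?_, ?_, ?_⟩
  · exact (e0.comp continuous_snd).mul (e2.comp continuous_fst)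
  · exact (e0.comp continuous_snd).mul (hk2.comp continuous_fst)
  · exact (e1.comp continuous_snd).mul (e2.comp continuous_fst)
  · exact (hc2.comp continuous_snd).mul (e2.comp continuous_fst)

end BT

theorem t_BT (rep : S_REP) (cut : S_CUT) : S_BT := by
  intro lam a b hl0 hl1 hab t0 t1 x0 x1 ε δ ht hx hε hδ
  set δ' : ℝ := min (δ / 2) 1 with hδ'
  have hδ'0 : 0 < δ' := lt_min (by positivity) one_pos
  have hδ'1 : δ' ≤ 1 := min_le_right _ _
  have hδ'2 : 2 * δ' ≤ δ := by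
    have := min_le_left (δ / 2) 1
    linarith
  obtain ⟨c0, c1, c2, y, z, M, hc2, hc0, hc1, hoff, h01, hM, hxy, hyz, hzx, hlen, hone⟩ :=
    cut x0 x1 δ' hx hδ'0
  have hM0 : 0 ≤ M := (abs_nonneg _).trans (hM 0).1
  have hε' : 0 < ε / (1 + M) := by positivity
  obtain ⟨k0, k1, k2, n, yr, zr, l, hF, hk2, _, hk1, hkoff, hks, hkb, hkv⟩ :=
    rep t0 t1 lam a b δ' (ε / (1 + M)) ht hl0 hl1 hab hδ'0 hε'
  have hε1 : ε / (1 + M) ≤ ε := div_le_self hε.le (by linarith)
  have hε2 : M * (ε / (1 + M)) ≤ ε := by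
    rw [mul_div_assoc', div_le_iff₀ (by positivity)]
    nlinarith
  have hB : ∀ (u v m : ℝ), |u| ≤ m → |v| ≤ ε / (1 + M) → 0 ≤ m → |u * v| ≤ m * (ε / (1 + M)) := by
    intro u v m h1 h2 h3
    rw [abs_mul]
    exact mul_le_mul h1 h2 (abs_nonneg _) h3
  have hc0a : ∀ x, |c0 x| ≤ 1 := fun x => abs_le.mpr ⟨by linarith [(h01 x).1], (h01 x).2⟩
  have hyz' : 0 ≤ z - y := by linarith
  have hle : z - y ≤ x1 - x0 := by linarith
  have htp : 0 ≤ t1 - t0 := by linarith
  refine ⟨fun p => c0 p.2 * k1 p.1, fun p => c0 p.2 * k2 p.1, fun p => c1 p.2 * k1 p.1,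
    fun p => c2 p.2 * k1 p.1, n, yr, zr, fun _ => y, fun _ => z, l,
    ⟨BT.reg hc2 hc0 hc1 hk2 hk1, ?_, ?_⟩, ?_, ?_, ?_, ?_, ?_, ?_, ?_⟩
  · -- off the box
    rintro ⟨t, x⟩ hp
    by_cases h1 : t ∈ Ioo t0 t1
    · have h2 : x ∉ Ioo x0 x1 := fun h2 => hp ⟨h1, h2⟩
      obtain ⟨e0, e1, e2⟩ := hoff x h2
      simp [e0, e1, e2]
    · obtain ⟨_, e1, e2⟩ := hkoff t h1
      simp [e1, e2]
  · -- small
    rintro ⟨t, x⟩
    constructor
    · refine (hB _ _ 1 (hc0a x) (hks t).2 zero_le_one).trans ?_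
      linarith
    · exact (hB _ _ M (hM x).1 (hks t).2 hM0).trans hε2
  · -- bounds
    rintro ⟨t, x⟩
    constructor
    · show |c0 x * k2 t| ≤ _
      rw [abs_mul]
      have h1 : |c0 x| * |k2 t| ≤ 1 * |k2 t| := mul_le_mul_of_nonneg_right (hc0a x) (abs_nonneg _)
      have h2 := hkb t
      linarith
    · refine (hB _ _ M (hM x).2 (hks t).2 hM0).trans ?_
      simp only [abs_zero, add_zero]
      exact hε2
  · intro i
    exact ⟨hF.lt i, hyz, hF.left i, hF.right i, hxy, hzx⟩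
  · intro i j hij
    rcases hF.disj i j hij with h | h
    · exact Or.inl h
    · exact Or.inr (Or.inl h)
  · have h1 : ∑ i, (if l i then (zr i - yr i) * (z - y) else 0) =
        (∑ i, (if l i then zr i - yr i else 0)) * (z - y) := by
      rw [Finset.sum_mul]
      apply Finset.sum_congr rfl
      intro i _
      split_ifs <;> ring
    rw [h1]
    calc _ ≤ (lam * (t1 - t0)) * (z - y) := mul_le_mul_of_nonneg_right hF.tru hyz'
      _ ≤ (lam * (t1 - t0)) * (x1 - x0) := mul_le_mul_of_nonneg_left hle (by positivity)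
      _ = _ := by ring
  · have h1 : ∑ i, (if l i then 0 else (zr i - yr i) * (z - y)) =
        (∑ i, (if l i then 0 else zr i - yr i)) * (z - y) := by
      rw [Finset.sum_mul]
      apply Finset.sum_congr rfl
      intro i _
      split_ifs <;> ring
    rw [h1]
    have h2 : 0 ≤ (1 - lam) * (t1 - t0) := mul_nonneg (by linarith) htp
    calc _ ≤ ((1 - lam) * (t1 - t0)) * (z - y) := mul_le_mul_of_nonneg_right hF.fal hyz'
      _ ≤ ((1 - lam) * (t1 - t0)) * (x1 - x0) := mul_le_mul_of_nonneg_left hle h2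
      _ = _ := by ring
  · rw [← Finset.sum_mul]
    have h1 := hF.tot
    have h3 : 0 ≤ 1 - δ' := by linarith
    have h4 : 0 ≤ (t1 - t0) * (x1 - x0) := mul_nonneg htp (by linarith)
    calc (1 - δ) * ((t1 - t0) * (x1 - x0)) ≤ ((1 - δ') * (1 - δ')) * ((t1 - t0) * (x1 - x0)) := by
          apply mul_le_mul_of_nonneg_right _ h4
          nlinarith [sq_nonneg δ']
      _ = ((1 - δ') * (t1 - t0)) * ((1 - δ') * (x1 - x0)) := by ring
      _ ≤ (∑ i, (zr i - yr i)) * (z - y) := by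
          apply mul_le_mul h1 hlen (mul_nonneg h3 (by linarith))
          exact (mul_nonneg h3 htp).trans h1
  · rintro i ⟨t, x⟩ ⟨h1, h2⟩
    obtain ⟨e0, _, e2⟩ := hone x h2
    have e3 := hkv i t h1
    constructor
    · show c0 x * k2 t = _
      rw [e0, e3, one_mul]
    · show c2 x * k1 t = _
      rw [e2, zero_mul]
      split_ifs <;> rfl

end Pool.Agent.Q64.BP
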