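import Pool.Agent.Q64.BP.Stm

/-!
# Project BP (MP_784f1f_an), lemma BX: the building block `w = χ(t) k(x)`

`χ` is the cut-off function of `S_CUT` on `(t0, t1)`, `k` the function of `S_REP` on `(x0, x1)`.
-/

open MeasureTheory Filter Topology Set
open scoped ENNReal NNReal ContDiff

namespace Pool.Agent.Q64.BP

namespace BX

/-- a function with a derivative everywhere is continuous -/
lemma cont_of_deriv {f g : ℝ → ℝ} (h : ∀ x, HasDerivAt f (g x) x) : Continuous f :=
  continuous_iff_continuousAt.2 fun x => (h x).continuousAt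

lemma abs_mul_le_of_cut {c k e : ℝ} (h0 : 0 ≤ c) (h1 : c ≤ 1) (hk : |k| ≤ e) : |c * k| ≤ e := by
  rw [abs_mul, abs_of_nonneg h0]
  have h2 : c * |k| ≤ 1 * |k| := mul_le_mul_of_nonneg_right h1 (abs_nonneg k)
  linarith

end BX

/-- BX: the building block `χ(t) k(x)`. -/
theorem t_BX (rep : S_REP) (cut : S_CUT) : S_BX := by
  intro lam a b hl0 hl1 hab t0 t1 x0 x1 ε δ ht hx hε hδ
  have hδ' : 0 < min (δ / 2) (1 / 2) := lt_min (by linarith) (by norm_num)
  obtain ⟨c0, c1, c2, y, z, M, hc2, hc0', hc1', hcoff, hc01, hcM, hty, hyz, hzt, hctot, hcone⟩ :=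
    cut t0 t1 (min (δ / 2) (1 / 2)) ht hδ'
  have hM : 0 ≤ M := le_trans (abs_nonneg _) (hcM 0).1
  have hε' : 0 < ε / (1 + M) := div_pos hε (by linarith)
  have hεε : ε / (1 + M) ≤ ε := by
    rw [div_le_iff₀ (by linarith)]
    nlinarith
  have hMε : M * (ε / (1 + M)) ≤ ε := by
    have h1 : M * (ε / (1 + M)) ≤ (1 + M) * (ε / (1 + M)) :=
      mul_le_mul_of_nonneg_right (by linarith) hε'.le
    have h2 : (1 + M) * (ε / (1 + M)) = ε := by
      field_simp
    linarith
  obtain ⟨k0, k1, k2, n, ys, zs, l, hfam, hk2, hk0', hk1', hkoff, hksmall, hkb, hkval⟩ :=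
    rep x0 x1 lam a b (min (δ / 2) (1 / 2)) (ε / (1 + M)) hx hl0 hl1 hab hδ' hε'
  have cc0 : Continuous c0 := BX.cont_of_deriv hc0'
  have cc1 : Continuous c1 := BX.cont_of_deriv hc1'
  have ck0 : Continuous k0 := BX.cont_of_deriv hk0'
  have ck1 : Continuous k1 := BX.cont_of_deriv hk1'
  have hzy : 0 ≤ z - y := by linarith
  have hzy' : z - y ≤ t1 - t0 := by linarith
  refine ⟨fun p => c0 p.1 * k0 p.2, fun p => c1 p.1 * k0 p.2, fun p => c0 p.1 * k1 p.2,
    fun p => c0 p.1 * k2 p.2, n, fun _ => y, fun _ => z, ys, zs, l, ?_, ?_, ?_, ?_, ?_, ?_, ?_, ?_⟩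
  · refine ⟨⟨?_, ?_, ?_, ?_, ?_, ?_, ?_⟩, ?_, ?_⟩
    · intro t x
      exact (hc0' t).mul_const (k0 x)
    · intro t x
      exact (hk0' x).const_mul (c0 t)
    · intro t x
      exact (hk1' x).const_mul (c0 t)
    · exact (cc0.comp continuous_fst).mul (ck0.comp continuous_snd)
    · exact (cc1.comp continuous_fst).mul (ck0.comp continuous_snd)
    · exact (cc0.comp continuous_fst).mul (ck1.comp continuous_snd)
    · exact (cc0.comp continuous_fst).mul (hk2.comp continuous_snd)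
    · rintro ⟨t, x⟩ hp
      by_cases h1 : t ∈ Ioo t0 t1
      · have h2 : x ∉ Ioo x0 x1 := fun h2 => hp ⟨h1, h2⟩
        obtain ⟨e0, e1, e2⟩ := hkoff x h2
        simp only [e0, e1, e2, mul_zero, and_self]
      · obtain ⟨e0, e1, -⟩ := hcoff t h1
        simp only [e0, e1, zero_mul, and_self]
    · rintro ⟨t, x⟩
      exact ⟨le_trans (BX.abs_mul_le_of_cut (hc01 t).1 (hc01 t).2 (hksmall x).1) hεε,
        le_trans (BX.abs_mul_le_of_cut (hc01 t).1 (hc01 t).2 (hksmall x).2) hεε⟩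
  · rintro ⟨t, x⟩
    constructor
    · have h1 : |c1 t * k0 x| ≤ M * (ε / (1 + M)) := by
        rw [abs_mul]
        exact mul_le_mul (hcM t).1 (hksmall x).1 (abs_nonneg _) hM
      simp only [abs_zero, add_zero]
      exact le_trans h1 hMε
    · have h1 := BX.abs_mul_le_of_cut (hc01 t).1 (hc01 t).2 (hkb x)
      show |c0 t * k2 x| ≤ ε + |a| + |b|
      linarith
  · intro i
    exact ⟨hyz, hfam.lt i, hty, hzt, hfam.left i, hfam.right i⟩
  · intro i j hij
    rcases hfam.disj i j hij with h | h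
    · exact Or.inr (Or.inr (Or.inl h))
    · exact Or.inr (Or.inr (Or.inr h))
  · have h1 : ∑ i, (if l i then (z - y) * (zs i - ys i) else 0) =
        (z - y) * ∑ i, (if l i then zs i - ys i else 0) := by
      rw [Finset.mul_sum]
      exact Finset.sum_congr rfl fun i _ => by split_ifs <;> simp
    rw [h1]
    have h2 := hfam.tru
    have h3 : 0 ≤ lam * (x1 - x0) := mul_nonneg hl0.le (by linarith)
    calc (z - y) * ∑ i, (if l i then zs i - ys i else 0) ≤ (z - y) * (lam * (x1 - x0)) :=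
          mul_le_mul_of_nonneg_left h2 hzy
      _ ≤ (t1 - t0) * (lam * (x1 - x0)) := mul_le_mul_of_nonneg_right hzy' h3
      _ = lam * ((t1 - t0) * (x1 - x0)) := by ring
  · have h1 : ∑ i, (if l i then 0 else (z - y) * (zs i - ys i)) =
        (z - y) * ∑ i, (if l i then 0 else zs i - ys i) := by
      rw [Finset.mul_sum]
      exact Finset.sum_congr rfl fun i _ => by split_ifs <;> simp
    rw [h1]
    have h2 := hfam.fal
    have h3 : 0 ≤ (1 - lam) * (x1 - x0) := mul_nonneg (by linarith) (by linarith)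
    calc (z - y) * ∑ i, (if l i then 0 else zs i - ys i) ≤ (z - y) * ((1 - lam) * (x1 - x0)) :=
          mul_le_mul_of_nonneg_left h2 hzy
      _ ≤ (t1 - t0) * ((1 - lam) * (x1 - x0)) := mul_le_mul_of_nonneg_right hzy' h3
      _ = (1 - lam) * ((t1 - t0) * (x1 - x0)) := by ring
  · have h1 : ∑ i, (z - y) * (zs i - ys i) = (z - y) * ∑ i, (zs i - ys i) := by
      rw [Finset.mul_sum]
    show _ ≤ ∑ i, (z - y) * (zs i - ys i)
    rw [h1]
    have h2 := hfam.tot
    set d : ℝ := min (δ / 2) (1 / 2) with hd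
    have hd1 : d ≤ δ / 2 := min_le_left _ _
    have hd2 : d ≤ 1 / 2 := min_le_right _ _
    have hd3 : 0 ≤ 1 - d := by linarith
    have h3 : 0 ≤ (1 - d) * (x1 - x0) := mul_nonneg hd3 (by linarith)
    have h4 : 0 ≤ (1 - d) * (t1 - t0) := mul_nonneg hd3 (by linarith)
    have h5 : ((1 - d) * (t1 - t0)) * ((1 - d) * (x1 - x0)) ≤ (z - y) * ∑ i, (zs i - ys i) :=
      mul_le_mul hctot h2 h3 hzy
    have h6 : 0 ≤ (t1 - t0) * (x1 - x0) := mul_nonneg (by linarith) (by linarith)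
    have h7 : (1 - δ) * ((t1 - t0) * (x1 - x0)) ≤
        ((1 - d) * (1 - d)) * ((t1 - t0) * (x1 - x0)) := by
      refine mul_le_mul_of_nonneg_right ?_ h6
      nlinarith [sq_nonneg d]
    calc (1 - δ) * ((t1 - t0) * (x1 - x0)) ≤ ((1 - d) * (1 - d)) * ((t1 - t0) * (x1 - x0)) := h7
      _ = ((1 - d) * (t1 - t0)) * ((1 - d) * (x1 - x0)) := by ring
      _ ≤ _ := h5
  · rintro i ⟨t, x⟩ ⟨ht', hx'⟩
    obtain ⟨e0, e1, -⟩ := hcone t ht'
    have e2 := hkval i x hx'
    constructor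
    · show c1 t * k0 x = _
      rw [e1, zero_mul]
      split_ifs <;> rfl
    · show c0 t * k2 x = _
      rw [e0, one_mul, e2]

end Pool.Agent.Q64.BP
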