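import Pool.Agent.Q64.BP.Stm

set_option autoImplicit false

/-!
# Project BP (helper64), job CUT (helper123): a cut-off function
-/

namespace Pool.Agent.Q64.BP

open MeasureTheory Filter Topology Set
open scoped ENNReal NNReal ContDiff

namespace CUT

theorem deriv_zero {f : ℝ → ℝ} {c x : ℝ} (h : f =ᶠ[𝓝 x] fun _ => c) :
    deriv f =ᶠ[𝓝 x] fun _ => (0 : ℝ) := by
  have h1 := h.deriv
  refine h1.trans (Eventually.of_forall fun y => ?_)
  exact deriv_const y c

end CUT

open CUT in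
/-- JOB CUT -/
theorem t_CUT : S_CUT := by
  intro x0 x1 δ hx hδ
  obtain ⟨e, he⟩ : ∃ e, e = min δ (1 / 2) := ⟨_, rfl⟩
  have he0 : 0 < e := by
    rw [he]
    exact lt_min hδ (by norm_num)
  have he1 : e ≤ 1 / 2 := by
    rw [he]
    exact min_le_right _ _
  have heδ : e ≤ δ := by
    rw [he]
    exact min_le_left _ _
  obtain ⟨m, hm⟩ : ∃ m, m = (x0 + x1) / 2 := ⟨_, rfl⟩
  obtain ⟨h, hh⟩ : ∃ h, h = (x1 - x0) / 2 := ⟨_, rfl⟩
  have hh0 : 0 < h := by
    rw [hh]
    linarith
  have hm0 : x0 = m - h := by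
    rw [hm, hh]
    ring
  have hm1 : x1 = m + h := by
    rw [hm, hh]
    ring
  have r0 : 0 < (1 - e) * h := mul_pos (by linarith) hh0
  have r1 : (1 - e) * h < (1 - e / 2) * h := by nlinarith
  have r2 : (1 - e / 2) * h < h := by nlinarith
  let b : ContDiffBump m := ⟨(1 - e) * h, (1 - e / 2) * h, r0, r1⟩
  obtain ⟨c0, hc0⟩ : ∃ c0 : ℝ → ℝ, c0 = b := ⟨_, rfl⟩
  have s0 : ContDiff ℝ (⊤ : ℕ∞) c0 := by
    rw [hc0]
    exact b.contDiff
  have s1 : ContDiff ℝ (⊤ : ℕ∞) (deriv c0) := (contDiff_infty_iff_deriv.1 s0).2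
  have s2 : ContDiff ℝ (⊤ : ℕ∞) (deriv (deriv c0)) := (contDiff_infty_iff_deriv.1 s1).2
  have k0 : HasCompactSupport c0 := by
    rw [hc0]
    exact b.hasCompactSupport
  obtain ⟨M1, hM1⟩ := s1.continuous.bounded_above_of_compact_support k0.deriv
  obtain ⟨M2, hM2⟩ := s2.continuous.bounded_above_of_compact_support k0.deriv.deriv
  have hoff : ∀ x, x ∉ Ioo x0 x1 → c0 =ᶠ[𝓝 x] fun _ => (0 : ℝ) := by
    intro x hxn
    have h1 : (1 - e / 2) * h < |x - m| := by
      have h2 : h ≤ |x - m| := by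
        rw [mem_Ioo, not_and_or, not_lt, not_lt] at hxn
        rcases hxn with h3 | h3
        · rw [abs_sub_comm]
          exact le_trans (by linarith) (le_abs_self _)
        · exact le_trans (by linarith) (le_abs_self _)
      linarith
    have h4 : ∀ᶠ y : ℝ in 𝓝 x, (1 - e / 2) * h < |y - m| := by
      have hc : Continuous fun y : ℝ => |y - m| := by fun_prop
      exact hc.continuousAt.eventually_const_lt h1
    refine h4.mono fun y hy => ?_
    rw [hc0]
    apply b.zero_of_le_dist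
    rw [Real.dist_eq]
    exact hy.le
  have hin : ∀ x ∈ Ioo (m - (1 - e) * h) (m + (1 - e) * h), c0 =ᶠ[𝓝 x] fun _ => (1 : ℝ) := by
    intro x hxi
    rw [hc0]
    apply b.eventuallyEq_one_of_mem_ball
    rw [Metric.mem_ball, Real.dist_eq, abs_lt]
    show -((1 - e) * h) < x - m ∧ x - m < (1 - e) * h
    exact ⟨by linarith [hxi.1], by linarith [hxi.2]⟩
  refine ⟨c0, deriv c0, deriv (deriv c0), m - (1 - e) * h, m + (1 - e) * h, max M1 M2,
    s2.continuous, fun x => ?_, fun x => ?_, fun x hxn => ?_, fun x => ?_, fun x => ?_, ?_, ?_, ?_,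
    ?_, fun x hxi => ?_⟩
  · exact ((s0.differentiable (by simp)) x).hasDerivAt
  · exact ((s1.differentiable (by simp)) x).hasDerivAt
  · have h1 := hoff x hxn
    have h2 := deriv_zero h1
    exact ⟨h1.self_of_nhds, h2.self_of_nhds, (deriv_zero h2).self_of_nhds⟩
  · rw [hc0]
    exact ⟨b.nonneg' x, b.le_one⟩
  · exact ⟨(hM1 x).trans (le_max_left _ _), (hM2 x).trans (le_max_right _ _)⟩
  · linarith
  · linarith
  · linarith
  · have h1 : x1 - x0 = 2 * h := by
      rw [hh]
      ring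
    rw [h1]
    nlinarith
  · have h1 := hin x hxi
    have h2 := deriv_zero h1
    exact ⟨h1.self_of_nhds, h2.self_of_nhds, (deriv_zero h2).self_of_nhds⟩

end Pool.Agent.Q64.BP
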