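import Pool.Agent.Q64.BP.Stm

set_option autoImplicit false

/-!
# Project BP (helper64), job GLUE (helper123): perturbations in the sub-boxes of a block
-/

namespace Pool.Agent.Q64.BP

open MeasureTheory Filter Topology Set
open scoped ENNReal NNReal ContDiff

namespace GLUE

theorem Bx_meas (t0 t1 x0 x1 : ℝ) : MeasurableSet (Bx t0 t1 x0 x1) :=
  measurableSet_Ioo.prod measurableSet_Ioo

theorem Bx_vol {t0 t1 x0 x1 : ℝ} (ht : t0 ≤ t1) :
    volume (Bx t0 t1 x0 x1) = ENNReal.ofReal ((t1 - t0) * (x1 - x0)) := by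
  unfold Bx
  rw [Measure.volume_eq_prod, Measure.prod_prod, Real.volume_Ioo, Real.volume_Ioo,
    ENNReal.ofReal_mul (by linarith)]

theorem Bx_sub {t0 t1 x0 x1 s0 s1 y0 y1 : ℝ} (h1 : t0 ≤ s0) (h2 : s1 ≤ t1) (h3 : x0 ≤ y0)
    (h4 : y1 ≤ x1) : Bx s0 s1 y0 y1 ⊆ Bx t0 t1 x0 x1 := by
  rintro p ⟨⟨a, b⟩, ⟨c, d⟩⟩
  exact ⟨⟨lt_of_le_of_lt h1 a, lt_of_lt_of_le b h2⟩, ⟨lt_of_le_of_lt h3 c, lt_of_lt_of_le d h4⟩⟩

theorem sum_at {n : ℕ} {B : Fin n → Set (ℝ × ℝ)} (hB : ∀ i j, i ≠ j → Disjoint (B i) (B j))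
    {w : Fin n → ℝ × ℝ → ℝ} (hw : ∀ i p, p ∉ B i → w i p = 0) {i : Fin n} {p : ℝ × ℝ}
    (hp : p ∈ B i) : ∑ j, w j p = w i p := by
  refine Finset.sum_eq_single i (fun j _ hj => hw j p fun hpj => ?_)
    (fun h => absurd (Finset.mem_univ _) h)
  exact (Set.disjoint_left.1 (hB j i hj)) hpj hp

theorem sum_off {n : ℕ} {B : Fin n → Set (ℝ × ℝ)}
    {w : Fin n → ℝ × ℝ → ℝ} (hw : ∀ i p, p ∉ B i → w i p = 0) {p : ℝ × ℝ}
    (hp : ∀ i, p ∉ B i) : ∑ j, w j p = 0 :=
  Finset.sum_eq_zero fun j _ => hw j p (hp j)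

theorem sum_abs {n : ℕ} {B : Fin n → Set (ℝ × ℝ)} (hB : ∀ i j, i ≠ j → Disjoint (B i) (B j))
    {w : Fin n → ℝ × ℝ → ℝ} (hw : ∀ i p, p ∉ B i → w i p = 0) {e : ℝ} (he : 0 ≤ e)
    (hb : ∀ i p, |w i p| ≤ e) (p : ℝ × ℝ) : |∑ j, w j p| ≤ e := by
  by_cases h : ∃ i, p ∈ B i
  · obtain ⟨i, hi⟩ := h
    rw [sum_at hB hw hi]
    exact hb i p
  · push Not at h
    rw [sum_off hw h, abs_zero]
    exact he

end GLUE

open GLUE in
/-- JOB GLUE -/
theorem t_GLUE : S_GLUE := by
  intro J g f a1 a2 b1 b2 lam v1 v2 hJ hl0 hl1 hBl hE1 hE2 t0 t1 x0 x1 ε δ ht hx hε hδ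
  obtain ⟨A, hA⟩ : ∃ A, A = (t1 - t0) * (x1 - x0) := ⟨_, rfl⟩
  have hA0 : 0 < A := by
    rw [hA]
    exact mul_pos (by linarith) (by linarith)
  obtain ⟨C, hC⟩ := hJ.2 (|g| + |f| + ε + |a1| + |b1| + |a2| + |b2|)
  obtain ⟨d, hd⟩ : ∃ d, d = δ / (2 * ((C : ℝ) + 1)) := ⟨_, rfl⟩
  have hC0 : (0 : ℝ) ≤ C := C.2
  have hd0 : 0 < d := by
    rw [hd]
    positivity
  have hCd : (C : ℝ) * d ≤ δ / 2 := by
    rw [hd, mul_div_assoc', div_le_div_iff₀ (by positivity) (by norm_num)]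
    nlinarith
  obtain ⟨w, wt, wx, wxx, n, s0, s1, y0, y1, l, hP, hbd, hbox, hdis, htru, hfal, htot, hval⟩ :=
    hBl t0 t1 x0 x1 (ε / 2) d ht hx (by linarith) hd0
  have hsub : ∀ i, ∃ u ut ux uxx : ℝ × ℝ → ℝ,
      Pert (Bx (s0 i) (s1 i) (y0 i) (y1 i)) (ε / 2) u ut ux uxx ∧
      ∫⁻ p in Bx (s0 i) (s1 i) (y0 i) (y1 i), J ((g + if l i then a1 else b1) + ut p,
        (f + if l i then a2 else b2) + uxx p) ≤
        ((if l i then v1 else v2) + ENNReal.ofReal (δ / 2)) *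
          ENNReal.ofReal ((s1 i - s0 i) * (y1 i - y0 i)) := by
    intro i
    obtain ⟨h1, h2, -⟩ := hbox i
    rcases Bool.eq_false_or_eq_true (l i) with h | h
    · simp only [h, if_true]
      exact hE1 _ _ _ _ _ _ h1 h2 (by linarith) (by linarith)
    · simp only [h, Bool.false_eq_true, if_false]
      exact hE2 _ _ _ _ _ _ h1 h2 (by linarith) (by linarith)
  choose u ut ux uxx hu hJu using hsub
  have hB : ∀ i j, i ≠ j → Disjoint (Bx (s0 i) (s1 i) (y0 i) (y1 i))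
      (Bx (s0 j) (s1 j) (y0 j) (y1 j)) := by
    intro i j hij
    rw [Set.disjoint_left]
    rintro p ⟨⟨c1, c2⟩, ⟨c3, c4⟩⟩ ⟨⟨e1, e2⟩, ⟨e3, e4⟩⟩
    rcases hdis i j hij with h | h | h | h
    · linarith
    · linarith
    · linarith
    · linarith
  have hsubset : ∀ i, Bx (s0 i) (s1 i) (y0 i) (y1 i) ⊆ Bx t0 t1 x0 x1 := fun i =>
    Bx_sub (hbox i).2.2.1 (hbox i).2.2.2.1 (hbox i).2.2.2.2.1 (hbox i).2.2.2.2.2
  have o0 : ∀ i p, p ∉ Bx (s0 i) (s1 i) (y0 i) (y1 i) → u i p = 0 := fun i p h => ((hu i).off p h).1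
  have o1 : ∀ i p, p ∉ Bx (s0 i) (s1 i) (y0 i) (y1 i) → ut i p = 0 := fun i p h =>
    ((hu i).off p h).2.1
  have o2 : ∀ i p, p ∉ Bx (s0 i) (s1 i) (y0 i) (y1 i) → ux i p = 0 := fun i p h =>
    ((hu i).off p h).2.2.1
  have o3 : ∀ i p, p ∉ Bx (s0 i) (s1 i) (y0 i) (y1 i) → uxx i p = 0 := fun i p h =>
    ((hu i).off p h).2.2.2
  refine ⟨fun p => w p + ∑ i, u i p, fun p => wt p + ∑ i, ut i p, fun p => wx p + ∑ i, ux i p,
    fun p => wxx p + ∑ i, uxx i p, ?_, ?_⟩
  · refine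
      { dt := fun t x => ?_
        dx := fun t x => ?_
        dxx := fun t x => ?_
        cw := ?_
        ct := ?_
        cx := ?_
        cxx := ?_
        off := fun p hp => ?_
        small := fun p => ?_ }
    · exact (hP.dt t x).add (HasDerivAt.fun_sum fun i _ => (hu i).dt t x)
    · exact (hP.dx t x).add (HasDerivAt.fun_sum fun i _ => (hu i).dx t x)
    · exact (hP.dxx t x).add (HasDerivAt.fun_sum fun i _ => (hu i).dxx t x)
    · exact hP.cw.add (continuous_finset_sum _ fun i _ => (hu i).cw)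
    · exact hP.ct.add (continuous_finset_sum _ fun i _ => (hu i).ct)
    · exact hP.cx.add (continuous_finset_sum _ fun i _ => (hu i).cx)
    · exact hP.cxx.add (continuous_finset_sum _ fun i _ => (hu i).cxx)
    · obtain ⟨h0, h1, h2, h3⟩ := hP.off p hp
      have hn : ∀ i, p ∉ Bx (s0 i) (s1 i) (y0 i) (y1 i) := fun i h => hp (hsubset i h)
      simp only [h0, h1, h2, h3, sum_off o0 hn, sum_off o1 hn, sum_off o2 hn, sum_off o3 hn,
        add_zero, and_self]
    · obtain ⟨h0, h2⟩ := hP.small p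
      have k0 := sum_abs hB o0 (by linarith : (0 : ℝ) ≤ ε / 2) (fun i p => ((hu i).small p).1) p
      have k2 := sum_abs hB o2 (by linarith : (0 : ℝ) ≤ ε / 2) (fun i p => ((hu i).small p).2) p
      exact ⟨(abs_add_le _ _).trans (by linarith), (abs_add_le _ _).trans (by linarith)⟩
  · obtain ⟨R, hR⟩ : ∃ R : Set (ℝ × ℝ), R = Bx t0 t1 x0 x1 \ ⋃ i, Bx (s0 i) (s1 i) (y0 i) (y1 i) :=
      ⟨_, rfl⟩
    have hUm : MeasurableSet (⋃ i, Bx (s0 i) (s1 i) (y0 i) (y1 i)) :=
      MeasurableSet.iUnion fun i => Bx_meas _ _ _ _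
    have hRm : MeasurableSet R := by
      rw [hR]
      exact (Bx_meas _ _ _ _).diff hUm
    have hUs : (⋃ i, Bx (s0 i) (s1 i) (y0 i) (y1 i)) ⊆ Bx t0 t1 x0 x1 := iUnion_subset hsubset
    have hdec : Bx t0 t1 x0 x1 = R ∪ ⋃ i, Bx (s0 i) (s1 i) (y0 i) (y1 i) := by
      rw [hR, Set.diff_union_of_subset hUs]
    have harea : ∀ i, 0 ≤ (s1 i - s0 i) * (y1 i - y0 i) := fun i =>
      mul_nonneg (by linarith [(hbox i).1]) (by linarith [(hbox i).2.1])
    have hUvol : volume (⋃ i, Bx (s0 i) (s1 i) (y0 i) (y1 i)) =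
        ENNReal.ofReal (∑ i, (s1 i - s0 i) * (y1 i - y0 i)) := by
      rw [measure_iUnion (fun i j hij => hB i j hij) (fun i => Bx_meas _ _ _ _), tsum_fintype,
        ENNReal.ofReal_sum_of_nonneg fun i _ => harea i]
      exact Finset.sum_congr rfl fun i _ => Bx_vol (hbox i).1.le
    have hRvol : volume R ≤ ENNReal.ofReal (d * A) := by
      rw [hR, measure_diff hUs hUm.nullMeasurableSet (by rw [hUvol]; exact ENNReal.ofReal_ne_top),
        hUvol, Bx_vol ht.le, ← ENNReal.ofReal_sub _ (Finset.sum_nonneg fun i _ => harea i)]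
      refine ENNReal.ofReal_le_ofReal ?_
      rw [← hA] at htot ⊢
      linarith
    -- the rest
    have hrest : ∫⁻ p in R, J (g + (wt p + ∑ i, ut i p), f + (wxx p + ∑ i, uxx i p)) ≤
        ENNReal.ofReal (δ / 2) * ENNReal.ofReal A := by
      have h1 : ∀ p ∈ R, J (g + (wt p + ∑ i, ut i p), f + (wxx p + ∑ i, uxx i p)) ≤ (C : ℝ≥0∞) := by
        intro p hp
        rw [hR] at hp
        have hn : ∀ i, p ∉ Bx (s0 i) (s1 i) (y0 i) (y1 i) := fun i h =>
          hp.2 (mem_iUnion.2 ⟨i, h⟩)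
        rw [sum_off o1 hn, sum_off o3 hn, add_zero, add_zero]
        obtain ⟨c1, c2⟩ := hbd p
        have n1 := abs_nonneg g
        have n2 := abs_nonneg f
        have n3 := abs_nonneg a1
        have n4 := abs_nonneg b1
        have n5 := abs_nonneg a2
        have n6 := abs_nonneg b2
        refine hC _ ?_ ?_
        · exact (abs_add_le _ _).trans (by linarith)
        · exact (abs_add_le _ _).trans (by linarith)
      calc ∫⁻ p in R, J (g + (wt p + ∑ i, ut i p), f + (wxx p + ∑ i, uxx i p)) ≤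
          ∫⁻ _p in R, (C : ℝ≥0∞) := setLIntegral_mono' hRm h1
        _ = C * volume R := setLIntegral_const _ _
        _ ≤ C * ENNReal.ofReal (d * A) := by gcongr
        _ = ENNReal.ofReal (C * d) * ENNReal.ofReal A := by
            rw [ENNReal.ofReal_mul hd0.le, ENNReal.ofReal_mul hC0, ENNReal.ofReal_coe_nnreal,
              mul_assoc]
        _ ≤ ENNReal.ofReal (δ / 2) * ENNReal.ofReal A := by gcongr
    -- the boxes
    have hbx : ∀ i, ∫⁻ p in Bx (s0 i) (s1 i) (y0 i) (y1 i),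
        J (g + (wt p + ∑ i, ut i p), f + (wxx p + ∑ i, uxx i p)) ≤
        ((if l i then v1 else v2) + ENNReal.ofReal (δ / 2)) *
          ENNReal.ofReal ((s1 i - s0 i) * (y1 i - y0 i)) := by
      intro i
      refine le_trans (le_of_eq ?_) (hJu i)
      refine setLIntegral_congr_fun (Bx_meas _ _ _ _) fun p hp => ?_
      obtain ⟨e1, e2⟩ := hval i p hp
      show J (g + (wt p + ∑ i, ut i p), f + (wxx p + ∑ i, uxx i p)) = _
      rw [sum_at hB o1 hp, sum_at hB o3 hp, e1, e2, ← add_assoc, ← add_assoc]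
    have hboxes : ∑ i, ∫⁻ p in Bx (s0 i) (s1 i) (y0 i) (y1 i),
        J (g + (wt p + ∑ i, ut i p), f + (wxx p + ∑ i, uxx i p)) ≤
        (ENNReal.ofReal lam * v1 + ENNReal.ofReal (1 - lam) * v2 + ENNReal.ofReal (δ / 2)) *
          ENNReal.ofReal A := by
      have hnn1 : ∀ i, 0 ≤ (if l i then (s1 i - s0 i) * (y1 i - y0 i) else 0) := fun i => by
        split_ifs
        · exact harea i
        · exact le_rfl
      have hnn2 : ∀ i, 0 ≤ (if l i then 0 else (s1 i - s0 i) * (y1 i - y0 i)) := fun i => by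
        split_ifs
        · exact le_rfl
        · exact harea i
      calc ∑ i, ∫⁻ p in Bx (s0 i) (s1 i) (y0 i) (y1 i),
            J (g + (wt p + ∑ i, ut i p), f + (wxx p + ∑ i, uxx i p))
          ≤ ∑ i, ((if l i then v1 else v2) + ENNReal.ofReal (δ / 2)) *
              ENNReal.ofReal ((s1 i - s0 i) * (y1 i - y0 i)) :=
            Finset.sum_le_sum fun i _ => hbx i
        _ = ∑ i, (v1 * ENNReal.ofReal (if l i then (s1 i - s0 i) * (y1 i - y0 i) else 0) +
              v2 * ENNReal.ofReal (if l i then 0 else (s1 i - s0 i) * (y1 i - y0 i)) +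
              ENNReal.ofReal (δ / 2) *
                (ENNReal.ofReal (if l i then (s1 i - s0 i) * (y1 i - y0 i) else 0) +
                ENNReal.ofReal (if l i then 0 else (s1 i - s0 i) * (y1 i - y0 i)))) := by
            refine Finset.sum_congr rfl fun i _ => ?_
            split_ifs
            · rw [ENNReal.ofReal_zero, mul_zero, add_zero, add_zero, add_mul]
            · rw [ENNReal.ofReal_zero, mul_zero, zero_add, zero_add, add_mul]
        _ = v1 * ENNReal.ofReal (∑ i, if l i then (s1 i - s0 i) * (y1 i - y0 i) else 0) +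
              v2 * ENNReal.ofReal (∑ i, if l i then 0 else (s1 i - s0 i) * (y1 i - y0 i)) +
              ENNReal.ofReal (δ / 2) *
                (ENNReal.ofReal (∑ i, if l i then (s1 i - s0 i) * (y1 i - y0 i) else 0) +
                ENNReal.ofReal (∑ i, if l i then 0 else (s1 i - s0 i) * (y1 i - y0 i))) := by
            rw [ENNReal.ofReal_sum_of_nonneg fun i _ => hnn1 i,
              ENNReal.ofReal_sum_of_nonneg fun i _ => hnn2 i]
            simp only [Finset.sum_add_distrib, Finset.mul_sum, mul_add]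
        _ ≤ v1 * ENNReal.ofReal (lam * A) + v2 * ENNReal.ofReal ((1 - lam) * A) +
              ENNReal.ofReal (δ / 2) *
                (ENNReal.ofReal (lam * A) + ENNReal.ofReal ((1 - lam) * A)) := by
            rw [← hA] at htru hfal
            gcongr
        _ = _ := by
            rw [ENNReal.ofReal_mul hl0.le, ENNReal.ofReal_mul (by linarith : (0 : ℝ) ≤ 1 - lam),
              ← add_mul (ENNReal.ofReal lam), ← ENNReal.ofReal_add hl0.le (by linarith)]
            rw [show lam + (1 - lam) = 1 by ring, ENNReal.ofReal_one, one_mul]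
            ring
    calc ∫⁻ p in Bx t0 t1 x0 x1, J (g + (wt p + ∑ i, ut i p), f + (wxx p + ∑ i, uxx i p))
        = ∫⁻ p in R ∪ ⋃ i, Bx (s0 i) (s1 i) (y0 i) (y1 i),
            J (g + (wt p + ∑ i, ut i p), f + (wxx p + ∑ i, uxx i p)) := by rw [← hdec]
      _ ≤ (∫⁻ p in R, J (g + (wt p + ∑ i, ut i p), f + (wxx p + ∑ i, uxx i p))) +
            ∫⁻ p in ⋃ i, Bx (s0 i) (s1 i) (y0 i) (y1 i),
              J (g + (wt p + ∑ i, ut i p), f + (wxx p + ∑ i, uxx i p)) := lintegral_union_le _ _ _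
      _ ≤ ENNReal.ofReal (δ / 2) * ENNReal.ofReal A +
            (ENNReal.ofReal lam * v1 + ENNReal.ofReal (1 - lam) * v2 + ENNReal.ofReal (δ / 2)) *
              ENNReal.ofReal A := by
          refine add_le_add hrest (le_trans (lintegral_iUnion_le _ _) ?_)
          rw [tsum_fintype]
          exact hboxes
      _ = (ENNReal.ofReal lam * v1 + ENNReal.ofReal (1 - lam) * v2 + ENNReal.ofReal δ) *
            ENNReal.ofReal ((t1 - t0) * (x1 - x0)) := by
          have h2 : ENNReal.ofReal δ = ENNReal.ofReal (δ / 2) + ENNReal.ofReal (δ / 2) := by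
            rw [← ENNReal.ofReal_add (by linarith) (by linarith)]
            congr 1
            ring
          rw [h2, ← hA]
          ring

end Pool.Agent.Q64.BP
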