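import Pool.Agent.Q64.BP.Stm

set_option autoImplicit false

open MeasureTheory Filter Topology Set
open scoped ENNReal NNReal ContDiff

namespace Pool.Agent.Q64.BP

namespace GRID

/-- the closed rectangle -/
def K (T : ℝ) : Set (ℝ × ℝ) := Icc 0 T ×ˢ Icc 0 1

/-- the closed bad set -/
def B (T : ℝ) (a b : ℝ × ℝ → ℝ) : Set (ℝ × ℝ) := K T ∩ {p | ¬ Good (a p) (b p)}

lemma isClosed_bad {a b : ℝ × ℝ → ℝ} (ha : Continuous a) (hb : Continuous b) :
    IsClosed {p | ¬ Good (a p) (b p)} := by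
  have h : IsOpen {p : ℝ × ℝ | Good (a p) (b p)} := by
    unfold Good
    refine (isOpen_lt continuous_const hb.abs).inter
      ((isOpen_lt continuous_const (ha.mul hb)).inter (isOpen_lt hb.abs ha.abs))
  exact isClosed_compl_iff.2 h

lemma isCompact_K (T : ℝ) : IsCompact (K T) := isCompact_Icc.prod isCompact_Icc

lemma isCompact_B (T : ℝ) {a b : ℝ × ℝ → ℝ} (ha : Continuous a) (hb : Continuous b) :
    IsCompact (B T a b) := (isCompact_K T).inter_right (isClosed_bad ha hb)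

/-- the density -/
noncomputable def psi (a b : ℝ × ℝ → ℝ) (p : ℝ × ℝ) : ℝ := Psi (a p) (b p)

lemma psi_cont {a b : ℝ × ℝ → ℝ} (ha : Continuous a) (hb : Continuous b) :
    Continuous (psi a b) := by
  unfold psi Psi
  fun_prop

lemma psi_nonneg (a b : ℝ × ℝ → ℝ) (p : ℝ × ℝ) : 0 ≤ psi a b p := by
  unfold psi Psi
  positivity

lemma lint_B {T : ℝ} {a b : ℝ × ℝ → ℝ} :
    ∫⁻ p in B T a b, ENNReal.ofReal (psi a b p) = bad T a b := by
  unfold bad
  refine setLIntegral_congr ?_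
  unfold B K Q Bx
  exact ((Measure.set_prod_ae_eq Ioo_ae_eq_Icc Ioo_ae_eq_Icc).symm).inter (ae_eq_refl _)

lemma not_DG {g f : ℝ} (h : ¬ Good g f) : ¬ DG g f := fun h1 =>
  h ⟨by linarith [h1.1], h1.2.1, by linarith [h1.2.2]⟩

/-- a neighbourhood of the bad set has almost the same mass -/
lemma nbhd {T : ℝ} {a b : ℝ × ℝ → ℝ} (ha : Continuous a) (hb : Continuous b) {η : ℝ}
    (hη : 0 < η) : ∃ r : ℝ, 0 < r ∧ ∫⁻ p in Metric.cthickening r (B T a b),
      ENNReal.ofReal (psi a b p) ≤ bad T a b + ENNReal.ofReal η := by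
  have hc := psi_cont ha hb
  have hloc := IsLocallyFiniteMeasure.withDensity_ofReal (μ := (volume : Measure (ℝ × ℝ))) hc
  have ht := tendsto_measure_cthickening_of_isCompact
    (μ := (volume : Measure (ℝ × ℝ)).withDensity fun p => ENNReal.ofReal (psi a b p))
    (isCompact_B T ha hb)
  have hfin : ((volume : Measure (ℝ × ℝ)).withDensity fun p => ENNReal.ofReal (psi a b p))
      (B T a b) ≠ ⊤ := (isCompact_B T ha hb).measure_lt_top.ne
  have hB : ((volume : Measure (ℝ × ℝ)).withDensity fun p => ENNReal.ofReal (psi a b p))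
      (B T a b) = bad T a b := by
    rw [withDensity_apply _ (isCompact_B T ha hb).measurableSet, lint_B]
  rw [hB] at ht hfin
  have hlt : bad T a b < bad T a b + ENNReal.ofReal η :=
    ENNReal.lt_add_right hfin (ENNReal.ofReal_pos.2 hη).ne'
  have hev := ht.eventually (gt_mem_nhds hlt)
  obtain ⟨ε, hε, h⟩ := Metric.eventually_nhds_iff.1 hev
  refine ⟨ε / 2, half_pos hε, ?_⟩
  have h1 := h (y := ε / 2) (by
    rw [Real.dist_eq, sub_zero, abs_of_pos (half_pos hε)]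
    exact half_lt_self hε)
  rw [withDensity_apply _ Metric.isClosed_cthickening.measurableSet] at h1
  exact h1.le

/-- uniform continuity on the rectangle -/
lemma unif {T : ℝ} {f : ℝ × ℝ → ℝ} (hf : Continuous f) {ε : ℝ} (hε : 0 < ε) :
    ∃ δ : ℝ, 0 < δ ∧ ∀ p ∈ K T, ∀ q ∈ K T, dist p q ≤ δ → |f p - f q| ≤ ε := by
  have h := (isCompact_K T).uniformContinuousOn_of_continuous hf.continuousOn
  obtain ⟨δ, hδ, h1⟩ := Metric.uniformContinuousOn_iff.1 h ε hε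
  refine ⟨δ / 2, half_pos hδ, fun p hp q hq hpq => ?_⟩
  have := h1 p hp q hq (lt_of_le_of_lt hpq (half_lt_self hδ))
  rw [Real.dist_eq] at this
  exact this.le

/-- the grid boxes -/
noncomputable def lo (T : ℝ) (m : ℕ) (i : Fin m) : ℝ := T * ((i : ℕ) / m)
noncomputable def hi (T : ℝ) (m : ℕ) (i : Fin m) : ℝ := T * (((i : ℕ) + 1) / m)

lemma lo_lt {T : ℝ} (hT : 0 < T) {m : ℕ} (i : Fin m) : lo T m i < hi T m i := by
  have hm : (0 : ℝ) < m := by exact_mod_cast i.pos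
  unfold lo hi
  refine mul_lt_mul_of_pos_left ?_ hT
  exact div_lt_div_of_pos_right (by linarith) hm

lemma lo_nonneg {T : ℝ} (hT : 0 < T) {m : ℕ} (i : Fin m) : 0 ≤ lo T m i := by
  unfold lo
  positivity

lemma hi_le {T : ℝ} (hT : 0 < T) {m : ℕ} (i : Fin m) : hi T m i ≤ T := by
  have hm : (0 : ℝ) < m := by exact_mod_cast i.pos
  have h1 : ((i : ℕ) : ℝ) + 1 ≤ m := by exact_mod_cast i.isLt
  unfold hi
  calc T * (((i : ℕ) + 1) / m) ≤ T * 1 :=
        mul_le_mul_of_nonneg_left ((div_le_one hm).2 h1) hT.le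
    _ = T := mul_one T

lemma sep {T : ℝ} (hT : 0 < T) {m : ℕ} {i j : Fin m} (h : i < j) : hi T m i ≤ lo T m j := by
  have hm : (0 : ℝ) < m := by exact_mod_cast i.pos
  have h1 : ((i : ℕ) : ℝ) + 1 ≤ (j : ℕ) := by exact_mod_cast h
  unfold hi lo
  exact mul_le_mul_of_nonneg_left (div_le_div_of_nonneg_right h1 hm.le) hT.le

lemma len {T : ℝ} {m : ℕ} (i : Fin m) : hi T m i - lo T m i = T / m := by
  unfold hi lo
  ring

lemma find {T : ℝ} (hT : 0 < T) {m : ℕ} (hm : 0 < m) {x : ℝ} (hx : 0 ≤ x) (hx' : x < T) :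
    ∃ i : Fin m, x ∈ Icc (lo T m i) (hi T m i) := by
  have hm' : (0 : ℝ) < m := by exact_mod_cast hm
  have h0 : 0 ≤ x / T * m := by positivity
  have h1 : x / T * m < m := by
    have : x / T < 1 := (div_lt_one hT).2 hx'
    nlinarith
  refine ⟨⟨⌊x / T * m⌋₊, (Nat.floor_lt h0).2 h1⟩, ?_, ?_⟩
  · unfold lo
    have h2 := Nat.floor_le h0
    simp only
    calc T * ((⌊x / T * m⌋₊ : ℝ) / m) ≤ T * (x / T * m / m) :=
          mul_le_mul_of_nonneg_left (div_le_div_of_nonneg_right h2 hm'.le) hT.le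
      _ = x := by field_simp
  · unfold hi
    have h2 := (Nat.lt_floor_add_one (x / T * m)).le
    simp only
    calc x = T * (x / T * m / m) := by field_simp
      _ ≤ T * (((⌊x / T * m⌋₊ : ℝ) + 1) / m) :=
          mul_le_mul_of_nonneg_left (div_le_div_of_nonneg_right h2 hm'.le) hT.le

lemma near {T : ℝ} {m : ℕ} {i : Fin m} {x y : ℝ} (hx : x ∈ Icc (lo T m i) (hi T m i))
    (hy : y ∈ Icc (lo T m i) (hi T m i)) : |x - y| ≤ T / m := by
  rw [← len i, abs_le]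
  constructor
  · linarith [hx.1, hy.2]
  · linarith [hx.2, hy.1]

/-- the closed box -/
def bx (T : ℝ) (m : ℕ) (q : Fin m × Fin m) : Set (ℝ × ℝ) :=
  Icc (lo T m q.1) (hi T m q.1) ×ˢ Icc (lo 1 m q.2) (hi 1 m q.2)

lemma bx_sub {T : ℝ} (hT : 0 < T) {m : ℕ} (q : Fin m × Fin m) : bx T m q ⊆ K T := by
  rintro ⟨x, y⟩ ⟨hx, hy⟩
  exact ⟨⟨(lo_nonneg hT q.1).trans hx.1, hx.2.trans (hi_le hT q.1)⟩,
    ⟨(lo_nonneg one_pos q.2).trans hy.1, hy.2.trans (hi_le one_pos q.2)⟩⟩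

lemma bx_dist {T : ℝ} {m : ℕ} {q : Fin m × Fin m} {p p' : ℝ × ℝ} (hp : p ∈ bx T m q)
    (hp' : p' ∈ bx T m q) {r : ℝ} (h1 : T / m ≤ r) (h2 : 1 / m ≤ r) : dist p p' ≤ r := by
  rw [Prod.dist_eq, Real.dist_eq, Real.dist_eq]
  exact max_le ((near hp.1 hp'.1).trans h1) ((near hp.2 hp'.2).trans h2)

lemma vol_Bx {t0 t1 x0 x1 : ℝ} (ht : t0 ≤ t1) :
    volume (Bx t0 t1 x0 x1) = ENNReal.ofReal ((t1 - t0) * (x1 - x0)) := by
  unfold Bx
  rw [Measure.volume_eq_prod, Measure.prod_prod, Real.volume_Ioo, Real.volume_Ioo,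
    ← ENNReal.ofReal_mul (sub_nonneg.2 ht)]

lemma Bx_meas (t0 t1 x0 x1 : ℝ) : MeasurableSet (Bx t0 t1 x0 x1) :=
  measurableSet_Ioo.prod measurableSet_Ioo

lemma Bx_sub (t0 t1 x0 x1 : ℝ) : Bx t0 t1 x0 x1 ⊆ Icc t0 t1 ×ˢ Icc x0 x1 :=
  prod_mono Ioo_subset_Icc_self Ioo_subset_Icc_self

lemma Bx_disj {t0 t1 x0 x1 t0' t1' x0' x1' : ℝ}
    (h : t1 ≤ t0' ∨ t1' ≤ t0 ∨ x1 ≤ x0' ∨ x1' ≤ x0) :
    Disjoint (Bx t0 t1 x0 x1) (Bx t0' t1' x0' x1') := by
  rw [Set.disjoint_left]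
  rintro ⟨x, y⟩ ⟨h1, h2⟩ ⟨h3, h4⟩
  simp only [mem_Ioo] at h1 h2 h3 h4
  rcases h with h | h | h | h <;> linarith [h1.1, h1.2, h2.1, h2.2, h3.1, h3.2, h4.1, h4.2]

/-- the sum of the values -/
lemma sum_le {T : ℝ} (hT : 0 < T) {a b : ℝ × ℝ → ℝ} {n : ℕ} {s0 s1 y0 y1 v : Fin n → ℝ} {η' : ℝ}
    (hη' : 0 ≤ η') {D : Set (ℝ × ℝ)} (hlt : ∀ i, s0 i < s1 i ∧ y0 i < y1 i)
    (hdisj : ∀ i j, i ≠ j → s1 i ≤ s0 j ∨ s1 j ≤ s0 i ∨ y1 i ≤ y0 j ∨ y1 j ≤ y0 i)
    (hK : ∀ i, Icc (s0 i) (s1 i) ×ˢ Icc (y0 i) (y1 i) ⊆ K T)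
    (hD : ∀ i, Icc (s0 i) (s1 i) ×ˢ Icc (y0 i) (y1 i) ⊆ D) (hv : ∀ i, 0 ≤ v i)
    (hclose : ∀ i, ∀ p ∈ Icc (s0 i) (s1 i) ×ˢ Icc (y0 i) (y1 i), v i ≤ psi a b p + η') :
    ENNReal.ofReal (∑ i, v i * ((s1 i - s0 i) * (y1 i - y0 i))) ≤
      (∫⁻ p in D, ENNReal.ofReal (psi a b p)) + ENNReal.ofReal (η' * T) := by
  have hd : Pairwise (Function.onFun Disjoint fun i => Bx (s0 i) (s1 i) (y0 i) (y1 i)) :=
    fun i j hij => Bx_disj (hdisj i j hij)
  have harea : ∀ i, 0 ≤ (s1 i - s0 i) * (y1 i - y0 i) := fun i =>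
    mul_nonneg (sub_nonneg.2 (hlt i).1.le) (sub_nonneg.2 (hlt i).2.le)
  rw [ENNReal.ofReal_sum_of_nonneg fun i _ => mul_nonneg (hv i) (harea i)]
  have h1 : ∀ i, ENNReal.ofReal (v i * ((s1 i - s0 i) * (y1 i - y0 i))) ≤
      (∫⁻ p in Bx (s0 i) (s1 i) (y0 i) (y1 i), ENNReal.ofReal (psi a b p)) +
        ENNReal.ofReal η' * volume (Bx (s0 i) (s1 i) (y0 i) (y1 i)) := by
    intro i
    rw [ENNReal.ofReal_mul (hv i), ← vol_Bx (hlt i).1.le, ← setLIntegral_const,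
      ← setLIntegral_const, ← lintegral_add_right _ measurable_const]
    refine setLIntegral_mono' (Bx_meas _ _ _ _) fun p hp => ?_
    rw [← ENNReal.ofReal_add (psi_nonneg a b p) hη']
    exact ENNReal.ofReal_le_ofReal (hclose i p (Bx_sub _ _ _ _ hp))
  refine (Finset.sum_le_sum fun i _ => h1 i).trans ?_
  rw [Finset.sum_add_distrib, ← Finset.mul_sum]
  have hU : ∑ i, ∫⁻ p in Bx (s0 i) (s1 i) (y0 i) (y1 i), ENNReal.ofReal (psi a b p) =
      ∫⁻ p in ⋃ i, Bx (s0 i) (s1 i) (y0 i) (y1 i), ENNReal.ofReal (psi a b p) := by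
    rw [lintegral_iUnion (fun i => Bx_meas _ _ _ _) hd, tsum_fintype]
  have hV : ∑ i, volume (Bx (s0 i) (s1 i) (y0 i) (y1 i)) =
      volume (⋃ i, Bx (s0 i) (s1 i) (y0 i) (y1 i)) := by
    rw [measure_iUnion hd (fun i => Bx_meas _ _ _ _), tsum_fintype]
  rw [hU, hV]
  refine add_le_add (lintegral_mono_set (iUnion_subset fun i =>
    (Bx_sub _ _ _ _).trans (hD i))) ?_
  have hvK : volume (K T) = ENNReal.ofReal T := by
    unfold K
    rw [Measure.volume_eq_prod, Measure.prod_prod, Real.volume_Icc, Real.volume_Icc]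
    simp
  rw [ENNReal.ofReal_mul hη', ← hvK]
  exact mul_le_mul_right (measure_mono (iUnion_subset fun i =>
    (Bx_sub _ _ _ _).trans (hK i))) _

end GRID

open GRID in
theorem t_GRID : S_GRID := by
  intro T hT a b ha hb η hη
  obtain ⟨r, hr, hr1⟩ := nbhd (T := T) ha hb (half_pos hη)
  have hη' : 0 < η / (2 * T) := by positivity
  obtain ⟨da, hda, hda1⟩ := unif (T := T) ha (by norm_num : (0 : ℝ) < 1 / 8)
  obtain ⟨db, hdb, hdb1⟩ := unif (T := T) hb (by norm_num : (0 : ℝ) < 1 / 8)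
  obtain ⟨dp, hdp, hdp1⟩ := unif (T := T) (psi_cont ha hb) hη'
  obtain ⟨δ, hδ, hδr, hδa, hδb, hδp⟩ : ∃ δ : ℝ, 0 < δ ∧ δ ≤ r ∧ δ ≤ da ∧ δ ≤ db ∧ δ ≤ dp :=
    ⟨min (min r da) (min db dp), lt_min (lt_min hr hda) (lt_min hdb hdp),
      (min_le_left _ _).trans (min_le_left _ _), (min_le_left _ _).trans (min_le_right _ _),
      (min_le_right _ _).trans (min_le_left _ _), (min_le_right _ _).trans (min_le_right _ _)⟩
  obtain ⟨m, hm⟩ := exists_nat_gt (max T 1 / δ)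
  have hm0 : (0 : ℝ) < m := lt_of_le_of_lt (by positivity) hm
  have hmp : 0 < m := by exact_mod_cast hm0
  have hm1 : max T 1 ≤ δ * m := by
    rw [div_lt_iff₀ hδ] at hm
    linarith
  have hT1 : T / m ≤ δ := by
    rw [div_le_iff₀ hm0]
    exact (le_max_left _ _).trans hm1
  have h11 : 1 / (m : ℝ) ≤ δ := by
    rw [div_le_iff₀ hm0]
    exact (le_max_right _ _).trans hm1
  classical
  let ι := {q : Fin m × Fin m // (bx T m q ∩ B T a b).Nonempty}
  let e : Fin (Fintype.card ι) ≃ ι := (Fintype.equivFin ι).symm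
  choose pt hpt using fun q : ι => q.2
  have hd : ∀ (q : ι) (p : ℝ × ℝ), p ∈ bx T m q.1 → dist p (pt q) ≤ δ := fun q p hp =>
    bx_dist hp (hpt q).1 hT1 h11
  refine ⟨Fintype.card ι, fun i => lo T m (e i).1.1, fun i => hi T m (e i).1.1,
    fun i => lo 1 m (e i).1.2, fun i => hi 1 m (e i).1.2, fun i => a (pt (e i)),
    fun i => b (pt (e i)), ?_, ?_, ?_, ?_, ?_, ?_, ?_⟩
  · intro i
    exact ⟨lo_lt hT _, lo_lt one_pos _, lo_nonneg hT _, hi_le hT _, lo_nonneg one_pos _,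
      hi_le one_pos _⟩
  · intro i j hij
    have h1 : (e i).1 ≠ (e j).1 := fun h => hij (e.injective (Subtype.ext h))
    rcases lt_trichotomy (e i).1.1 (e j).1.1 with h | h | h
    · exact Or.inl (sep hT h)
    · rcases lt_trichotomy (e i).1.2 (e j).1.2 with h2 | h2 | h2
      · exact Or.inr (Or.inr (Or.inl (sep one_pos h2)))
      · exact absurd (Prod.ext h h2) h1
      · exact Or.inr (Or.inr (Or.inr (sep one_pos h2)))
    · exact Or.inr (Or.inl (sep hT h))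
  · intro p hp hbad
    obtain ⟨i, hi1⟩ := find hT hmp hp.1.1.le hp.1.2
    obtain ⟨j, hj1⟩ := find one_pos hmp hp.2.1.le hp.2.2
    have hq : (bx T m (i, j) ∩ B T a b).Nonempty :=
      ⟨p, ⟨hi1, hj1⟩, ⟨⟨hp.1.1.le, hp.1.2.le⟩, ⟨hp.2.1.le, hp.2.2.le⟩⟩, hbad⟩
    refine ⟨e.symm ⟨(i, j), hq⟩, ?_⟩
    simp only [Equiv.apply_symm_apply]
    exact ⟨hi1, hj1⟩
  · intro i p hp
    have hp1 : p ∈ bx T m (e i).1 := hp
    have h1 := hd (e i) p hp1
    have h2 := bx_sub hT _ hp1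
    have h3 := (hpt (e i)).2.1
    exact ⟨hda1 p h2 _ h3 (h1.trans hδa), hdb1 p h2 _ h3 (h1.trans hδb)⟩
  · intro i
    exact not_DG (hpt (e i)).2.2
  · have hD : ∀ i : Fin (Fintype.card ι), bx T m (e i).1 ⊆ Metric.cthickening r (B T a b) :=
      fun i p hp => Metric.mem_cthickening_of_dist_le p (pt (e i)) r _ (hpt (e i)).2
        ((hd (e i) p hp).trans hδr)
    have h := sum_le (a := a) (b := b) hT hη'.le (n := Fintype.card ι)
      (s0 := fun i => lo T m (e i).1.1) (s1 := fun i => hi T m (e i).1.1)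
      (y0 := fun i => lo 1 m (e i).1.2) (y1 := fun i => hi 1 m (e i).1.2)
      (v := fun i => Psi (a (pt (e i))) (b (pt (e i))))
      (D := Metric.cthickening r (B T a b))
      (fun i => ⟨lo_lt hT _, lo_lt one_pos _⟩) ?_ (fun i => bx_sub hT _) hD
      (fun i => psi_nonneg a b (pt (e i))) ?_
    · refine h.trans ?_
      have h2 : η / (2 * T) * T = η / 2 := by field_simp
      rw [h2]
      calc (∫⁻ p in Metric.cthickening r (B T a b), ENNReal.ofReal (psi a b p)) +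
            ENNReal.ofReal (η / 2) ≤
            (bad T a b + ENNReal.ofReal (η / 2)) + ENNReal.ofReal (η / 2) :=
            add_le_add hr1 le_rfl
        _ = bad T a b + ENNReal.ofReal η := by
            rw [add_assoc, ← ENNReal.ofReal_add (half_pos hη).le (half_pos hη).le, add_halves]
    · intro i j hij
      have h1 : (e i).1 ≠ (e j).1 := fun h => hij (e.injective (Subtype.ext h))
      rcases lt_trichotomy (e i).1.1 (e j).1.1 with h | h | h
      · exact Or.inl (sep hT h)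
      · rcases lt_trichotomy (e i).1.2 (e j).1.2 with h2 | h2 | h2
        · exact Or.inr (Or.inr (Or.inl (sep one_pos h2)))
        · exact absurd (Prod.ext h h2) h1
        · exact Or.inr (Or.inr (Or.inr (sep one_pos h2)))
      · exact Or.inr (Or.inl (sep hT h))
    · intro i p hp
      have hp1 : p ∈ bx T m (e i).1 := hp
      have h1 := hdp1 p (bx_sub hT _ hp1) _ (hpt (e i)).2.1 ((hd (e i) p hp1).trans hδp)
      have h2 := (abs_le.1 h1).1
      show psi a b (pt (e i)) ≤ _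
      linarith
  · have hsub : (⋃ i : Fin (Fintype.card ι), Icc (lo T m (e i).1.1) (hi T m (e i).1.1) ×ˢ
        Icc (lo 1 m (e i).1.2) (hi 1 m (e i).1.2)) ⊆ Metric.cthickening r (B T a b) :=
      iUnion_subset fun i p hp => Metric.mem_cthickening_of_dist_le p (pt (e i)) r _
        (hpt (e i)).2 ((hd (e i) p hp).trans hδr)
    refine (lintegral_mono_set hsub).trans (hr1.trans ?_)
    exact add_le_add le_rfl (ENNReal.ofReal_le_ofReal (by linarith))

end Pool.Agent.Q64.BP
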