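import Pool.Agent.Q64.BP.Stm

/-! # Project BP: job KEY -/

open MeasureTheory Filter Topology Set
open scoped ENNReal NNReal ContDiff

namespace Pool.Agent.Q64.BP
namespace KEY

theorem measTh : Measurable (fun q : ℝ × ℝ => Th q.1 q.2) := by
  unfold Th
  measurability

theorem measPsi : Measurable (fun q : ℝ × ℝ => Psi q.1 q.2) := by
  unfold Psi
  measurability

theorem measDG : MeasurableSet {q : ℝ × ℝ | DG q.1 q.2} := by
  have h1 : Measurable (fun q : ℝ × ℝ => |q.2|) := by measurability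
  have h2 : Measurable (fun q : ℝ × ℝ => q.1 * q.2) := by measurability
  have h3 : Measurable (fun q : ℝ × ℝ => |q.2| + 2) := by measurability
  have h4 : Measurable (fun q : ℝ × ℝ => |q.1|) := by measurability
  exact (measurableSet_le measurable_const h1).inter
    ((measurableSet_lt measurable_const h2).inter (measurableSet_le h3 h4))

theorem measJ0 : Measurable J0 := by
  classical
  unfold J0
  refine Measurable.ite measDG ?_ ?_
  · exact (measTh.const_mul _).ennreal_ofReal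
  · exact measPsi.ennreal_ofReal

theorem J0_DG {g f : ℝ} (h : DG g f) : J0 (g, f) = ENNReal.ofReal (1 / 100 * Th g f) := by
  unfold J0
  simp only [h, if_true]

theorem J0_nDG {g f : ℝ} (h : ¬ DG g f) : J0 (g, f) = ENNReal.ofReal (Psi g f) := by
  unfold J0
  simp only [h, if_false]

theorem locB : LocB J0 := by
  refine ⟨measJ0, fun M => ⟨Real.toNNReal (1 + 2 * M + 2 * M ^ 2), ?_⟩⟩
  rintro ⟨g, f⟩ h1 h2
  simp only at h1 h2
  have hM : 0 ≤ M := le_trans (abs_nonneg g) h1
  have hg := abs_nonneg g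
  have hf := abs_nonneg f
  have hf2 : f ^ 2 ≤ M ^ 2 := by
    rw [← sq_abs f]; exact pow_le_pow_left₀ hf h2 2
  change J0 (g, f) ≤ ENNReal.ofReal _
  by_cases h : DG g f
  · rw [J0_DG h]
    refine ENNReal.ofReal_le_ofReal ?_
    have h1' : |g * f| ≤ M ^ 2 := by
      rw [abs_mul, sq]; exact mul_le_mul h1 h2 hf hM
    have h2' : |g / f| ≤ M := by
      rw [abs_div]
      exact le_trans (div_le_self hg h.1) h1
    unfold Th
    nlinarith [abs_nonneg (g * f), abs_nonneg (g / f), sq_nonneg f]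
  · rw [J0_nDG h]
    refine ENNReal.ofReal_le_ofReal ?_
    unfold Psi
    nlinarith [sq_nonneg M]

theorem volBx {t0 t1 x0 x1 : ℝ} (h : t0 < t1) (_h' : x0 < x1) :
    volume (Bx t0 t1 x0 x1) = ENNReal.ofReal ((t1 - t0) * (x1 - x0)) := by
  unfold Bx
  rw [Measure.volume_eq_prod, Measure.prod_prod, Real.volume_Ioo, Real.volume_Ioo,
    ENNReal.ofReal_mul (by linarith)]

theorem env_const (g f : ℝ) : Env J0 g f (J0 (g, f)) := by
  intro t0 t1 x0 x1 ε δ ht hx hε hδ
  refine ⟨fun _ => 0, fun _ => 0, fun _ => 0, fun _ => 0, ⟨⟨?_, ?_, ?_, ?_, ?_, ?_, ?_⟩, ?_, ?_⟩, ?_⟩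
  · intro t x; exact hasDerivAt_const _ _
  · intro t x; exact hasDerivAt_const _ _
  · intro t x; exact hasDerivAt_const _ _
  · exact continuous_const
  · exact continuous_const
  · exact continuous_const
  · exact continuous_const
  · intro p _; simp
  · intro p; simp [hε.le]
  · simp only [add_zero, lintegral_const, Measure.restrict_apply MeasurableSet.univ, univ_inter]
    rw [volBx ht hx]
    gcongr
    exact le_self_add

theorem env_mono {g f : ℝ} {v v' : ℝ≥0∞} (h : Env J0 g f v) (hv : v ≤ v') : Env J0 g f v' := by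
  intro t0 t1 x0 x1 ε δ ht hx hε hδ
  obtain ⟨w, wt, wx, wxx, h1, h2⟩ := h t0 t1 x0 x1 ε δ ht hx hε hδ
  exact ⟨w, wt, wx, wxx, h1, le_trans h2 (by gcongr)⟩

theorem DG_neg {g f : ℝ} : DG (-g) (-f) ↔ DG g f := by
  unfold DG
  simp

theorem J0_neg (g f : ℝ) : J0 (-g, -f) = J0 (g, f) := by
  by_cases h : DG g f
  · rw [J0_DG h, J0_DG (DG_neg.2 h)]
    simp [Th]
  · rw [J0_nDG h, J0_nDG (fun h' => h (DG_neg.1 h'))]
    simp [Psi]

theorem env_neg {g f : ℝ} {v : ℝ≥0∞} (h : Env J0 (-g) (-f) v) : Env J0 g f v := by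
  intro t0 t1 x0 x1 ε δ ht hx hε hδ
  obtain ⟨w, wt, wx, wxx, ⟨⟨a1, a2, a3, a4, a5, a6, a7⟩, h4, h5⟩, h2⟩ :=
    h t0 t1 x0 x1 ε δ ht hx hε hδ
  refine ⟨fun p => - w p, fun p => - wt p, fun p => - wx p, fun p => - wxx p,
    ⟨⟨fun t x => (a1 t x).neg, fun t x => (a2 t x).neg, fun t x => (a3 t x).neg,
      a4.neg, a5.neg, a6.neg, a7.neg⟩, ?_, ?_⟩, ?_⟩
  · intro p hp
    obtain ⟨b1, b2, b3, b4⟩ := h4 p hp
    simp [b1, b2, b3, b4]
  · intro p
    simpa using h5 p
  · refine le_trans (le_of_eq ?_) h2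
    refine lintegral_congr fun p => ?_
    rw [← J0_neg]
    congr 2 <;> ring

theorem key_neg (sp : S_SP) (g f : ℝ) (hf : f ≤ -1) (h : ¬ DG g f) :
    Env J0 g f (ENNReal.ofReal (18 / 100 * Psi g f)) := by
  have hg2 : f - 2 < g := by
    by_contra hc
    push Not at hc
    apply h
    have hfa : |f| = -f := abs_of_neg (by linarith)
    have hga : |g| = -g := abs_of_neg (by linarith)
    refine ⟨?_, ?_, ?_⟩
    · rw [hfa]; linarith
    · nlinarith
    · rw [hfa, hga]; linarith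
  set R : ℝ := 300 * (1 - f) + |g| with hR
  have hga := abs_nonneg g
  have hgl := le_abs_self g
  have hR1 : 600 ≤ R := by rw [hR]; linarith
  have hRf : 300 * (1 - f) ≤ R := by rw [hR]; linarith
  have hRg : g < R ^ 2 := by
    have : |g| ≤ R := by rw [hR]; linarith
    nlinarith
  set S : ℝ := R ^ 2 - f + 3 with hS
  have hSpos : 0 < S := by rw [hS]; nlinarith
  set θ : ℝ := (g - f + 3) / S with hθ
  have hθ0 : 0 < θ := div_pos (by linarith) hSpos
  have hθ1 : θ < 1 := by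
    rw [hθ, div_lt_one hSpos, hS]; linarith
  set θ' : ℝ := (1 - f) / (1 + R) with hθ'
  have hR1' : (0 : ℝ) < 1 + R := by linarith
  have hθ'0 : 0 < θ' := div_pos (by linarith) hR1'
  have hθ'1 : θ' < 1 := by
    rw [hθ', div_lt_one hR1']; linarith
  have hn : ¬ DG (R ^ 2) (-R) := by
    intro hc
    have := hc.2.1
    nlinarith [pow_pos (show (0 : ℝ) < R by linarith) 3]
  have hd1 : DG (R ^ 2) 1 := by
    refine ⟨by simp, by positivity, ?_⟩
    rw [abs_one, abs_of_nonneg (by positivity)]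
    nlinarith
  have hfa : |f| = -f := abs_of_neg (by linarith)
  have hf3 : |f - 3| = 3 - f := by rw [abs_of_neg (by linarith)]; ring
  have hd2 : DG (f - 3) f := by
    refine ⟨by rw [hfa]; linarith, by nlinarith, ?_⟩
    rw [hfa, hf3]; linarith
  have E1 := env_const (R ^ 2) (-R)
  rw [J0_nDG hn] at E1
  have E2 := env_const (R ^ 2) 1
  rw [J0_DG hd1] at E2
  have E4 := env_const (f - 3) f
  rw [J0_DG hd2] at E4
  have E3 := (sp J0 locB (R ^ 2) f θ' (-R) 1 _ _ hθ'0 hθ'1).1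
    (by rw [hθ']; field_simp; ring) E1 E2
  have E5 := (sp J0 locB g f θ (R ^ 2) (f - 3) _ _ hθ0 hθ1).2
    (by rw [hθ, hS]; rw [hS] at hSpos; field_simp; ring) E3 E4
  refine env_mono E5 ?_
  have p1 : 0 ≤ Psi (R ^ 2) (-R) := by unfold Psi; positivity
  have p2 : 0 ≤ 1 / 100 * Th (R ^ 2) 1 := by unfold Th; positivity
  have p3 : 0 ≤ 1 / 100 * Th (f - 3) f := by unfold Th; positivity
  rw [← ENNReal.ofReal_mul hθ'0.le, ← ENNReal.ofReal_mul (by linarith),
    ← ENNReal.ofReal_add (by positivity) (mul_nonneg (by linarith) p2),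
    ← ENNReal.ofReal_mul hθ0.le, ← ENNReal.ofReal_mul (by linarith),
    ← ENNReal.ofReal_add (mul_nonneg hθ0.le (add_nonneg (by positivity)
      (mul_nonneg (by linarith) p2))) (mul_nonneg (by linarith) p3)]
  refine ENNReal.ofReal_le_ofReal ?_
  -- the real inequality
  have q1 : Psi (R ^ 2) (-R) ≤ 3 * R ^ 2 := by
    unfold Psi
    rw [abs_of_nonneg (by positivity)]
    nlinarith
  have q2 : Th (R ^ 2) 1 ≤ 4 * R ^ 2 := by
    unfold Th
    rw [mul_one, div_one, abs_of_nonneg (by positivity)]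
    nlinarith
  have q3 : Th (f - 3) f ≤ 13 * f ^ 2 := by
    unfold Th
    have e1 : |(f - 3) * f| = (3 - f) * (-f) := by rw [abs_mul, hf3, hfa]
    have e2 : |(f - 3) / f| ≤ 4 := by
      rw [abs_div, hf3, hfa, div_le_iff₀ (by linarith)]
      linarith
    rw [e1, hf3]
    nlinarith
  have q4 : θ' * Psi (R ^ 2) (-R) ≤ R ^ 2 / 100 := by
    have : θ' * (3 * R ^ 2) ≤ R ^ 2 / 100 := by
      rw [hθ', div_mul_eq_mul_div, div_le_iff₀ hR1']
      nlinarith [sq_nonneg R, mul_nonneg (sq_nonneg R) (sub_nonneg.2 hRf)]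
    exact le_trans (mul_le_mul_of_nonneg_left q1 hθ'0.le) this
  have q5 : (1 - θ') * (1 / 100 * Th (R ^ 2) 1) ≤ 4 / 100 * R ^ 2 := by
    have : (1 - θ') * (1 / 100 * Th (R ^ 2) 1) ≤ 1 * (1 / 100 * Th (R ^ 2) 1) :=
      mul_le_mul_of_nonneg_right (by linarith) p2
    linarith
  have q6 : θ * (θ' * Psi (R ^ 2) (-R) + (1 - θ') * (1 / 100 * Th (R ^ 2) 1)) ≤
      5 / 100 * (g - f + 3) := by
    have h1 : θ * (θ' * Psi (R ^ 2) (-R) + (1 - θ') * (1 / 100 * Th (R ^ 2) 1)) ≤
        θ * (5 / 100 * R ^ 2) := mul_le_mul_of_nonneg_left (by linarith) hθ0.le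
    have h2 : θ * (5 / 100 * R ^ 2) ≤ θ * (5 / 100 * S) :=
      mul_le_mul_of_nonneg_left (by rw [hS]; linarith) hθ0.le
    have h3 : θ * (5 / 100 * S) = 5 / 100 * (g - f + 3) := by
      rw [hθ]; field_simp
    linarith
  have q7 : (1 - θ) * (1 / 100 * Th (f - 3) f) ≤ 13 / 100 * f ^ 2 := by
    have : (1 - θ) * (1 / 100 * Th (f - 3) f) ≤ 1 * (1 / 100 * Th (f - 3) f) :=
      mul_le_mul_of_nonneg_right (by linarith) p3
    linarith
  have q8 : 5 / 100 * (g - f + 3) + 13 / 100 * f ^ 2 ≤ 18 / 100 * Psi g f := by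
    unfold Psi
    nlinarith
  linarith

theorem key_big (sp : S_SP) (g f : ℝ) (hf : 1 ≤ |f|) (h : ¬ DG g f) :
    Env J0 g f (ENNReal.ofReal (18 / 100 * Psi g f)) := by
  rcases le_total f 0 with h0 | h0
  · rw [abs_of_nonpos h0] at hf
    exact key_neg sp g f (by linarith) h
  · rw [abs_of_nonneg h0] at hf
    have := key_neg sp (-g) (-f) (by linarith) (fun h' => h (DG_neg.1 h'))
    have e : Psi (-g) (-f) = Psi g f := by simp [Psi]
    rw [e] at this
    exact env_neg this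

theorem key_one (sp : S_SP) (g f : ℝ) (hf : |f| = 1) :
    Env J0 g f (ENNReal.ofReal (36 / 100 * (1 + |g|))) := by
  have hga := abs_nonneg g
  have hf2 : f ^ 2 = 1 := by rw [← sq_abs, hf]; norm_num
  by_cases h : DG g f
  · have := env_const g f
    rw [J0_DG h] at this
    refine env_mono this (ENNReal.ofReal_le_ofReal ?_)
    unfold Th
    rw [abs_mul, abs_div, hf, hf2]
    simp only [mul_one, div_one]
    linarith
  · refine env_mono (key_big sp g f hf.ge h) (ENNReal.ofReal_le_ofReal ?_)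
    unfold Psi
    rw [hf2]
    linarith

end KEY

open KEY in
theorem t_KEY (sp : S_SP) : S_KEY := by
  refine ⟨locB, fun g f h => ?_⟩
  have hga := abs_nonneg g
  have hf2 := sq_nonneg f
  by_cases hf : 1 ≤ |f|
  · refine env_mono (key_big sp g f hf h) (ENNReal.ofReal_le_ofReal ?_)
    unfold Psi
    linarith
  · push Not at hf
    rw [abs_lt] at hf
    have E := (sp J0 locB g f ((1 + f) / 2) 1 (-1) _ _ (by linarith) (by linarith)).1
      (by ring) (key_one sp g 1 (by simp)) (key_one sp g (-1) (by simp))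
    refine env_mono E ?_
    rw [← add_mul, ← ENNReal.ofReal_add (by linarith) (by linarith)]
    have : (1 + f) / 2 + (1 - (1 + f) / 2) = 1 := by ring
    rw [this, ENNReal.ofReal_one, one_mul]
    refine ENNReal.ofReal_le_ofReal ?_
    unfold Psi
    linarith

end Pool.Agent.Q64.BP
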