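import Pool.Agent.Q64.BP.Stm

/-!
# BP-L1: uniform limits of `u n` and `∂ₓ u n`, and the derivative of the limit.
-/

open MeasureTheory Filter Topology Set
open scoped ENNReal NNReal ContDiff

namespace Pool.Agent.Q64.BP.L1

/-- a sequence of functions with geometrically small increments converges uniformly -/
theorem lim (w : ℕ → ℝ × ℝ → ℝ) (h : ∀ n p, |w (n + 1) p - w n p| ≤ (1 / 2 : ℝ) ^ n) :
    ∃ W : ℝ × ℝ → ℝ, TendstoUniformly w W atTop := by
  have hd : ∀ p n, dist (w n p) (w (n + 1) p) ≤ 1 * (1 / 2 : ℝ) ^ n := fun p n => by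
    rw [dist_comm, Real.dist_eq, one_mul]
    exact h n p
  have hc : ∀ p, CauchySeq (fun n => w n p) := fun p =>
    cauchySeq_of_le_geometric (1 / 2 : ℝ) 1 (by norm_num) (hd p)
  choose W hW using fun p => cauchySeq_tendsto_of_complete (hc p)
  refine ⟨W, ?_⟩
  rw [Metric.tendstoUniformly_iff]
  intro ε hε
  have hz : Tendsto (fun n : ℕ => 1 * (1 / 2 : ℝ) ^ n / (1 - 1 / 2)) atTop (𝓝 0) := by
    have h1 := tendsto_pow_atTop_nhds_zero_of_lt_one (r := (1 / 2 : ℝ)) (by norm_num) (by norm_num)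
    have h2 := (h1.const_mul (1 : ℝ)).div_const (1 - 1 / 2 : ℝ)
    simpa using h2
  filter_upwards [hz.eventually (gt_mem_nhds hε)] with n hn p
  have h3 := dist_le_of_le_geometric_of_tendsto (1 / 2 : ℝ) 1 (by norm_num) (hd p) (hW p) n
  rw [dist_comm]
  exact lt_of_le_of_lt h3 hn

end Pool.Agent.Q64.BP.L1

namespace Pool.Agent.Q64.BP

theorem t_L1 : S_L1 := by
  intro T u ut ux uxx D hT hS
  obtain ⟨U, hU⟩ := L1.lim u (fun n p => by
    obtain ⟨ε, -, -, h2, hst⟩ := hS.step n
    exact (hst.near p).1.trans h2)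
  obtain ⟨Ux, hUx⟩ := L1.lim ux (fun n p => by
    obtain ⟨ε, -, -, h2, hst⟩ := hS.step n
    exact (hst.near p).2.trans h2)
  refine ⟨U, Ux, hU.continuous (Frequently.of_forall fun n => (hS.st n).cw),
    hUx.continuous (Frequently.of_forall fun n => (hS.st n).cx), ?_, hU, hUx⟩
  intro t x
  have h1 : TendstoUniformly (fun n y => ux n (t, y)) (fun y => Ux (t, y)) atTop := by
    rw [Metric.tendstoUniformly_iff] at hUx ⊢
    intro ε hε
    filter_upwards [hUx ε hε] with n hn y
    exact hn (t, y)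
  exact hasDerivAt_of_tendstoUniformly (f := fun n y => u n (t, y)) h1
    (Eventually.of_forall fun n y => (hS.st n).dx t y) (fun y => hU.tendsto_at (t, y)) x

end Pool.Agent.Q64.BP
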