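import Pool.Agent.Q64.BP.Stm

/-!
# Project BP (helper64), job L2: almost everywhere eventual constancy
-/

set_option autoImplicit false

open MeasureTheory Filter Topology Set
open scoped ENNReal NNReal ContDiff

namespace Pool.Agent.Q64.BP.L2

/-- the points which are in finitely many of the sets only -/
def EE (D : ℕ → Set (ℝ × ℝ)) : Set (ℝ × ℝ) := {p | ∃ N, ∀ n, N ≤ n → p ∉ D n}

theorem meas_EE {D : ℕ → Set (ℝ × ℝ)} (hD : ∀ n, MeasurableSet (D n)) : MeasurableSet (EE D) := by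
  have e : EE D = ⋃ N, ⋂ n, ⋂ (_ : N ≤ n), (D n)ᶜ := by
    ext p
    simp [EE]
  rw [e]
  exact MeasurableSet.iUnion fun N => MeasurableSet.iInter fun n =>
    MeasurableSet.iInter fun _ => (hD n).compl

open Classical in
/-- the limit -/
noncomputable def lm (D : ℕ → Set (ℝ × ℝ)) (a : ℕ → ℝ × ℝ → ℝ) (p : ℝ × ℝ) : ℝ :=
  if h : ∃ N, ∀ n, N ≤ n → p ∉ D n then a (Nat.find h) p else 0

theorem const {D : ℕ → Set (ℝ × ℝ)} {a : ℕ → ℝ × ℝ → ℝ}
    (hs : ∀ n p, p ∉ D n → a (n + 1) p = a n p) {p : ℝ × ℝ} {N : ℕ} (hN : ∀ n, N ≤ n → p ∉ D n) :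
    ∀ n, N ≤ n → a n p = a N p := by
  intro n hn
  induction n, hn using Nat.le_induction with
  | base => rfl
  | succ n hn ih => rw [hs n p (hN n hn), ih]

theorem lm_eq {D : ℕ → Set (ℝ × ℝ)} {a : ℕ → ℝ × ℝ → ℝ}
    (hs : ∀ n p, p ∉ D n → a (n + 1) p = a n p) {p : ℝ × ℝ} {N : ℕ} (hN : ∀ n, N ≤ n → p ∉ D n) :
    ∀ n, N ≤ n → a n p = lm D a p := by
  classical
  intro n hn
  have h : ∃ N, ∀ n, N ≤ n → p ∉ D n := ⟨N, hN⟩
  have e : lm D a p = a (Nat.find h) p := by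
    rw [lm, dif_pos h]
  rw [e]
  exact const hs (Nat.find_spec h) n ((Nat.find_min' h hN).trans hn)

theorem lm_off {D : ℕ → Set (ℝ × ℝ)} {a : ℕ → ℝ × ℝ → ℝ} {p : ℝ × ℝ} (h : ∀ n, a n p = 0) :
    lm D a p = 0 := by
  unfold lm
  split_ifs
  · exact h _
  · rfl

theorem meas_lm {D : ℕ → Set (ℝ × ℝ)} {a : ℕ → ℝ × ℝ → ℝ} (hD : ∀ n, MeasurableSet (D n))
    (ha : ∀ n, Measurable (a n)) (hs : ∀ n p, p ∉ D n → a (n + 1) p = a n p) :
    Measurable (lm D a) := by
  refine measurable_of_tendsto_metrizable (f := fun n => (EE D).indicator (a n))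
    (fun n => (ha n).indicator (meas_EE hD)) ?_
  rw [tendsto_pi_nhds]
  intro p
  by_cases hp : p ∈ EE D
  · obtain ⟨N, hN⟩ := hp
    refine tendsto_const_nhds.congr' ?_
    filter_upwards [eventually_ge_atTop N] with n hn
    rw [indicator_of_mem (show p ∈ EE D from ⟨N, hN⟩), lm_eq hs hN n hn]
  · have e : lm D a p = 0 := by
      have : ¬ ∃ N, ∀ n, N ≤ n → p ∉ D n := hp
      rw [lm, dif_neg this]
    rw [e]
    refine tendsto_const_nhds.congr fun n => ?_
    rw [indicator_of_notMem hp]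

theorem vol_le {T ε : ℝ} {D : Set (ℝ × ℝ)} {u ut ux uxx v vt vx vxx : ℝ × ℝ → ℝ}
    (h : Step T ε D u ut ux uxx v vt vx vxx) :
    volume D ≤ bad T ut uxx + ENNReal.ofReal ε := by
  refine le_trans ?_ h.mass
  calc volume D = ∫⁻ _ in D, 1 := by simp
    _ ≤ ∫⁻ p in D, ENNReal.ofReal (Psi (ut p) (uxx p)) := by
        refine lintegral_mono fun p => ?_
        rw [← ENNReal.ofReal_one]
        refine ENNReal.ofReal_le_ofReal ?_
        unfold Psi
        have := abs_nonneg (ut p)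
        nlinarith [sq_nonneg (uxx p)]

end Pool.Agent.Q64.BP.L2

namespace Pool.Agent.Q64.BP

theorem t_L2 : S_L2 := by
  intro T u ut ux uxx D hT h
  have hD : ∀ n, MeasurableSet (D n) := by
    intro n
    obtain ⟨ε, _, _, _, hs⟩ := h.step n
    exact hs.meas
  have h1 : ∀ n p, p ∉ D n → ut (n + 1) p = ut n p := by
    intro n p hp
    obtain ⟨ε, _, _, _, hs⟩ := h.step n
    exact (hs.same p hp).2.1
  have h2 : ∀ n p, p ∉ D n → uxx (n + 1) p = uxx n p := by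
    intro n p hp
    obtain ⟨ε, _, _, _, hs⟩ := h.step n
    exact (hs.same p hp).2.2.2
  have hv : ∀ n, volume (D n) ≤ ENNReal.ofReal (2 * T * (7 / 8) ^ n) := by
    intro n
    obtain ⟨ε, h0, h3, _, hs⟩ := h.step n
    refine (L2.vol_le hs).trans ((add_le_add (h.bd n) (ENNReal.ofReal_le_ofReal h3)).trans ?_)
    rw [← ENNReal.ofReal_add (by positivity) (by positivity)]
    exact ENNReal.ofReal_le_ofReal (by linarith)
  have hsum : ∑' n, volume (D n) ≠ ⊤ := by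
    have hS : Summable fun n : ℕ => 2 * T * (7 / 8 : ℝ) ^ n :=
      (summable_geometric_of_lt_one (by norm_num) (by norm_num)).mul_left _
    refine ne_top_of_le_ne_top ?_ (ENNReal.tsum_le_tsum hv)
    rw [← ENNReal.ofReal_tsum_of_nonneg (fun n => by positivity) hS]
    exact ENNReal.ofReal_ne_top
  have hae : ∀ᵐ p : ℝ × ℝ, ∃ N, ∀ n, N ≤ n → p ∉ D n := by
    filter_upwards [ae_eventually_notMem hsum] with p hp
    exact eventually_atTop.1 hp
  refine ⟨L2.lm D ut, L2.lm D uxx, L2.meas_lm hD (fun n => (h.st n).ct.measurable) h1,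
    L2.meas_lm hD (fun n => (h.st n).cxx.measurable) h2, ?_, ?_, ?_⟩
  · intro p hp
    exact ⟨L2.lm_off fun n => ((h.st n).off p hp).2.1, L2.lm_off fun n => ((h.st n).off p hp).2.2.2⟩
  · filter_upwards [hae] with p hp
    obtain ⟨N, hN⟩ := hp
    exact ⟨N, fun n hn => ⟨hN n hn, L2.lm_eq h1 hN n hn, L2.lm_eq h2 hN n hn⟩⟩
  · filter_upwards [hae] with p hp hQ
    obtain ⟨N, hN⟩ := hp
    obtain ⟨ε, _, _, _, hs⟩ := h.step N
    rw [← L2.lm_eq h1 hN N le_rfl, ← L2.lm_eq h2 hN N le_rfl]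
    by_contra hg
    exact hN N le_rfl (hs.cover p hQ hg)

end Pool.Agent.Q64.BP
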