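import Pool.Agent.Q64.BP.Stm

/-!
# Project BP: L3 (helper65). Cauchy estimates of the time derivative and the second space derivative.
-/

set_option autoImplicit false

open MeasureTheory Filter Topology Set
open scoped ENNReal NNReal ContDiff

namespace Pool.Agent.Q64.BP

namespace L3

theorem meas_Q (T : ℝ) : MeasurableSet (Q T) := measurableSet_Ioo.prod measurableSet_Ioo

theorem meas_good {a b : ℝ × ℝ → ℝ} (ha : Continuous a) (hb : Continuous b) :
    MeasurableSet {p | Good (a p) (b p)} := by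
  have h : {p | Good (a p) (b p)} = {p | 1 / 2 < |b p|} ∩ ({p | 0 < a p * b p} ∩ {p | |b p| < |a p|}) := by
    ext p
    rfl
  rw [h]
  exact ((isOpen_lt continuous_const hb.abs).inter
    ((isOpen_lt continuous_const (ha.mul hb)).inter (isOpen_lt hb.abs ha.abs))).measurableSet

theorem meas_Psi {a b : ℝ × ℝ → ℝ} (ha : Continuous a) (hb : Continuous b) :
    Measurable fun p => ENNReal.ofReal (Psi (a p) (b p)) := by
  unfold Psi
  exact (ENNReal.continuous_ofReal.comp ((continuous_const.add ha.abs).add (hb.pow 2))).measurable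

theorem meas_Th {a b : ℝ × ℝ → ℝ} (ha : Continuous a) (hb : Continuous b) :
    Measurable fun p => ENNReal.ofReal (Th (a p) (b p)) := by
  unfold Th
  have ma := ha.measurable
  have mb := hb.measurable
  refine ENNReal.measurable_ofReal.comp ?_
  exact ((((continuous_abs.measurable.comp ma).add (mb.pow_const 2)).add
    (continuous_abs.measurable.comp (ma.mul mb))).add (continuous_abs.measurable.comp (ma.div mb)))

theorem Psi_nonneg (g f : ℝ) : 0 ≤ Psi g f := by unfold Psi; positivity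

theorem Th_nonneg (g f : ℝ) : 0 ≤ Th g f := by unfold Th; positivity

theorem le_Psi (g f : ℝ) : |g| ≤ Psi g f ∧ f ^ 2 ≤ Psi g f := by
  unfold Psi
  constructor <;> nlinarith [abs_nonneg g, sq_nonneg f]

theorem le_Th (g f : ℝ) : |g| ≤ Th g f ∧ f ^ 2 ≤ Th g f := by
  unfold Th
  constructor <;> nlinarith [abs_nonneg g, sq_nonneg f, abs_nonneg (g * f), abs_nonneg (g / f)]

open Classical in
/-- the dominating function -/
noncomputable def dom (T : ℝ) (D : Set (ℝ × ℝ)) (a b a' b' : ℝ × ℝ → ℝ) (p : ℝ × ℝ) : ℝ≥0∞ :=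
  (D.indicator (fun p => ENNReal.ofReal (Psi (a p) (b p))) p +
    (D ∩ Q T ∩ {p | Good (a' p) (b' p)}).indicator (fun p => ENNReal.ofReal (Th (a' p) (b' p))) p) +
    (Q T ∩ {p | ¬ Good (a' p) (b' p)}).indicator (fun p => ENNReal.ofReal (Psi (a' p) (b' p))) p

theorem pointwise {T : ℝ} {D : Set (ℝ × ℝ)} {a b a' b' : ℝ × ℝ → ℝ} {p : ℝ × ℝ}
    (h1 : p ∉ D → a' p = a p ∧ b' p = b p) (h2 : p ∉ Q T → a p = 0 ∧ b p = 0 ∧ a' p = 0 ∧ b' p = 0) :
    ENNReal.ofReal |a' p - a p| ≤ dom T D a b a' b' p ∧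
      ENNReal.ofReal (|b' p - b p| ^ 2) ≤ 2 * dom T D a b a' b' p := by
  classical
  by_cases hD : p ∈ D
  · by_cases hQ : p ∈ Q T
    · have k1 : |a' p - a p| ≤ |a p| + |a' p| := by
        rw [add_comm]; exact abs_sub _ _
      have k2 : |b' p - b p| ^ 2 ≤ 2 * (b p ^ 2 + b' p ^ 2) := by
        rw [sq_abs]; nlinarith [sq_nonneg (b' p + b p)]
      by_cases hG : Good (a' p) (b' p)
      · have e : dom T D a b a' b' p = ENNReal.ofReal (Psi (a p) (b p) + Th (a' p) (b' p)) := by
          unfold dom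
          rw [indicator_of_mem hD, indicator_of_mem (show p ∈ D ∩ Q T ∩ {p | Good (a' p) (b' p)} from ⟨⟨hD, hQ⟩, hG⟩),
            indicator_of_notMem (show p ∉ Q T ∩ {p | ¬ Good (a' p) (b' p)} from fun h => h.2 hG), add_zero,
            ENNReal.ofReal_add (Psi_nonneg _ _) (Th_nonneg _ _)]
        have e2 : (2 : ℝ≥0∞) * dom T D a b a' b' p =
            ENNReal.ofReal (2 * (Psi (a p) (b p) + Th (a' p) (b' p))) := by
          rw [e, ENNReal.ofReal_mul (by norm_num)]; norm_num
        rw [e2, e]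
        exact ⟨ENNReal.ofReal_le_ofReal (k1.trans (add_le_add (le_Psi _ _).1 (le_Th _ _).1)),
          ENNReal.ofReal_le_ofReal (k2.trans (mul_le_mul_of_nonneg_left
            (add_le_add (le_Psi _ _).2 (le_Th _ _).2) (by norm_num)))⟩
      · have e : dom T D a b a' b' p = ENNReal.ofReal (Psi (a p) (b p) + Psi (a' p) (b' p)) := by
          unfold dom
          rw [indicator_of_mem hD, indicator_of_notMem (show p ∉ D ∩ Q T ∩ {p | Good (a' p) (b' p)} from
              fun h => hG h.2),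
            indicator_of_mem (show p ∈ Q T ∩ {p | ¬ Good (a' p) (b' p)} from ⟨hQ, hG⟩), add_zero,
            ENNReal.ofReal_add (Psi_nonneg _ _) (Psi_nonneg _ _)]
        have e2 : (2 : ℝ≥0∞) * dom T D a b a' b' p =
            ENNReal.ofReal (2 * (Psi (a p) (b p) + Psi (a' p) (b' p))) := by
          rw [e, ENNReal.ofReal_mul (by norm_num)]; norm_num
        rw [e2, e]
        exact ⟨ENNReal.ofReal_le_ofReal (k1.trans (add_le_add (le_Psi _ _).1 (le_Psi _ _).1)),
          ENNReal.ofReal_le_ofReal (k2.trans (mul_le_mul_of_nonneg_left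
            (add_le_add (le_Psi _ _).2 (le_Psi _ _).2) (by norm_num)))⟩
    · obtain ⟨q1, q2, q3, q4⟩ := h2 hQ
      rw [q1, q2, q3, q4]
      simp
  · obtain ⟨q1, q2⟩ := h1 hD
    rw [q1, q2]
    simp

theorem lint {T : ℝ} {D : Set (ℝ × ℝ)} {a b a' b' : ℝ × ℝ → ℝ} (hD : MeasurableSet D)
    (ca : Continuous a) (cb : Continuous b) (ca' : Continuous a') (cb' : Continuous b') :
    ∫⁻ p, dom T D a b a' b' p ≤ ((∫⁻ p in D, ENNReal.ofReal (Psi (a p) (b p))) +
      ∫⁻ p in D ∩ Q T ∩ {p | Good (a' p) (b' p)}, ENNReal.ofReal (Th (a' p) (b' p))) + bad T a' b' := by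
  have mG := meas_good ca' cb'
  have mN : MeasurableSet {p | ¬ Good (a' p) (b' p)} := mG.compl
  unfold dom bad
  rw [lintegral_add_right _ ((meas_Psi ca' cb').indicator ((meas_Q T).inter mN)),
    lintegral_add_right _ ((meas_Th ca' cb').indicator ((hD.inter (meas_Q T)).inter mG)),
    lintegral_indicator hD, lintegral_indicator ((hD.inter (meas_Q T)).inter mG),
    lintegral_indicator ((meas_Q T).inter mN)]

end L3

theorem t_L3 : S_L3 := by
  intro T u ut ux uxx D hT hS
  refine ⟨408 * T, fun n => ?_⟩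
  obtain ⟨ε, hε, hε1, hε2, hst⟩ := hS.step n
  have hpt : ∀ p, ENNReal.ofReal |ut (n + 1) p - ut n p| ≤
      L3.dom T (D n) (ut n) (uxx n) (ut (n + 1)) (uxx (n + 1)) p ∧
      ENNReal.ofReal (|uxx (n + 1) p - uxx n p| ^ 2) ≤
        2 * L3.dom T (D n) (ut n) (uxx n) (ut (n + 1)) (uxx (n + 1)) p := by
    intro p
    refine L3.pointwise (fun h => ?_) (fun h => ?_)
    · have := hst.same p h
      exact ⟨this.2.1, this.2.2.2⟩
    · have h1 := (hS.st n).off p h
      have h2 := (hS.st (n + 1)).off p h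
      exact ⟨h1.2.1, h1.2.2.2, h2.2.1, h2.2.2.2⟩
  set X : ℝ≥0∞ := ENNReal.ofReal (T * (7 / 8) ^ n) with hX
  have hεX : ENNReal.ofReal ε ≤ X := ENNReal.ofReal_le_ofReal hε1
  have hbn : bad T (ut n) (uxx n) ≤ X := hS.bd n
  have hbn1 : bad T (ut (n + 1)) (uxx (n + 1)) ≤ X := by
    refine (hS.bd (n + 1)).trans (ENNReal.ofReal_le_ofReal ?_)
    rw [pow_succ]
    have : (0 : ℝ) < T * (7 / 8) ^ n := by positivity
    nlinarith
  have hI : ∫⁻ p, L3.dom T (D n) (ut n) (uxx n) (ut (n + 1)) (uxx (n + 1)) p ≤ 204 * X := by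
    refine (L3.lint hst.meas (hS.st n).ct (hS.st n).cxx (hS.st (n + 1)).ct (hS.st (n + 1)).cxx).trans ?_
    have h1 := hst.mass
    have h2 := hst.theta
    calc _ ≤ (X + X) + (200 * X + X) + X := by
          refine add_le_add (add_le_add (h1.trans (add_le_add hbn hεX)) (h2.trans (add_le_add ?_ hεX))) hbn1
          gcongr
      _ = 204 * X := by ring
  have hX2 : (2 : ℝ≥0∞) * (204 * X) = ENNReal.ofReal (408 * T * (7 / 8) ^ n) := by
    rw [hX, mul_assoc 408, ENNReal.ofReal_mul (p := 408) (by norm_num), ← mul_assoc]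
    norm_num
  constructor
  · refine (lintegral_mono fun p => (hpt p).1).trans (hI.trans ?_)
    rw [← hX2]
    exact le_mul_of_one_le_left (by positivity) (by norm_num)
  · refine (lintegral_mono fun p => (hpt p).2).trans ?_
    rw [lintegral_const_mul' _ _ (by norm_num), ← hX2]
    gcongr

end Pool.Agent.Q64.BP
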