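import Pool.Agent.Q64.BP.ND2

set_option autoImplicit false
set_option linter.unusedSimpArgs false

/-!
# Project BP (helper64), job ND (helper153), part 3: from one space dimension to `n + 1` dimensions
-/

open MeasureTheory Filter Topology Set
open scoped ENNReal NNReal ContDiff

namespace Pool.Agent.Q64.BP.ND

open Pool.Agent.Q64.BP

variable {n : ℕ}

/-- the first derivatives -/
noncomputable def DD (T : ℝ) (Ux : ℝ × ℝ → ℝ) (i : Fin (n + 1)) : ℝ × V n → ℝ :=
  if i = 0 then fun p => Ux (sm T p) else fun _ => 0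

/-- the second derivatives -/
noncomputable def HH (T : ℝ) (F : ℝ × ℝ → ℝ) (i j : Fin (n + 1)) : ℝ × V n → ℝ :=
  if i = 0 ∧ j = 0 then fun p => F (sm T p) else fun _ => 0

/-- the coefficient on the rectangle -/
noncomputable def mm (G F : ℝ × ℝ → ℝ) (q : ℝ × ℝ) : ℝ :=
  if 1 < G q / F q then G q / F q else 1

theorem DD_sum (T : ℝ) (Ux : ℝ × ℝ → ℝ) (p : ℝ × V n) :
    ∑ i, DD T Ux i p ^ 2 = Ux (sm T p) ^ 2 := by
  rw [Finset.sum_eq_single (0 : Fin (n + 1))]
  · rw [DD, if_pos rfl]
  · intro i _ hi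
    rw [DD, if_neg hi]
    simp
  · intro h
    exact absurd (Finset.mem_univ _) h

theorem HH_sum (T : ℝ) (F : ℝ × ℝ → ℝ) (p : ℝ × V n) :
    ∑ i, HH T F i i p = F (sm T p) := by
  rw [Finset.sum_eq_single (0 : Fin (n + 1))]
  · rw [HH, if_pos ⟨rfl, rfl⟩]
  · intro i _ hi
    rw [HH, if_neg fun h => hi h.1]
  · intro h
    exact absurd (Finset.mem_univ _) h

theorem HH_sum2 (T : ℝ) (F : ℝ × ℝ → ℝ) (p : ℝ × V n) :
    ∑ i, ∑ j, HH T F i j p ^ 2 = F (sm T p) ^ 2 := by
  rw [Finset.sum_eq_single (0 : Fin (n + 1))]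
  · rw [Finset.sum_eq_single (0 : Fin (n + 1))]
    · rw [HH, if_pos ⟨rfl, rfl⟩]
    · intro i _ hi
      rw [HH, if_neg fun h => hi h.2]
      simp
    · intro h
      exact absurd (Finset.mem_univ _) h
  · intro i _ hi
    refine Finset.sum_eq_zero fun j _ => ?_
    rw [HH, if_neg fun h => hi h.1]
    simp
  · intro h
    exact absurd (Finset.mem_univ _) h

theorem wx0 (T : ℝ) {f g : ℝ × ℝ → ℝ} (hf : Integrable f) (hg : Integrable g)
    (hf0 : ∀ q, q ∉ Q T → f q = 0) (hg0 : ∀ q, q ∉ Q T → g q = 0)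
    (hw : ∀ φ φx : ℝ × ℝ → ℝ, Continuous φ → Continuous φx →
      (∀ t x, HasDerivAt (fun y => φ (t, y)) (φx (t, x)) x) → ∫ p, f p * φx p = -∫ p, g p * φ p) :
    WeakX (n := n) T 0 (fun p => f (sm T p)) (fun p => g (sm T p)) := by
  refine ⟨int_sm T hf.integrableOn, int_sm T hg.integrableOn, fun φ hφ => ?_⟩
  rw [(fub T hf hf0 (test_fd hφ (0, Pi.single 0 1))).2, (fub T hg hg0 hφ.1.continuous).2,
    ← integral_neg]
  refine integral_congr_ae (Eventually.of_forall fun y => ?_)
  have hc : Continuous fun q : ℝ × ℝ => ((T - q.1, (0 : Fin (n + 1)).insertNth q.2 y) : ℝ × V n) :=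
    (continuous_const.sub continuous_fst).prodMk
      (Continuous.finInsertNth 0 continuous_snd continuous_const)
  exact hw (fun q => φ (T - q.1, (0 : Fin (n + 1)).insertNth q.2 y)) _ (hφ.1.continuous.comp hc)
    ((test_fd hφ (0, Pi.single 0 1)).comp hc) (fun t x => test_x hφ 0 (T - t) y x)

theorem wxi (T : ℝ) {i : Fin (n + 1)} (hi : i ≠ 0) {f : ℝ × ℝ → ℝ} (hf : Integrable f)
    (hf0 : ∀ q, q ∉ Q T → f q = 0) : WeakX T i (fun p => f (sm T p)) (fun _ => 0) := by
  refine ⟨int_sm T hf.integrableOn, integrableOn_zero, fun φ hφ => ?_⟩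
  rw [fubx T hi hf hf0 hφ]
  simp

theorem wxz (T : ℝ) (i : Fin (n + 1)) : WeakX T i (fun _ => 0) (fun _ => 0) := by
  refine ⟨integrableOn_zero, integrableOn_zero, fun φ _ => ?_⟩
  simp

theorem wt0 (T : ℝ) {f g : ℝ × ℝ → ℝ} (hf : Integrable f) (hg : Integrable g)
    (hf0 : ∀ q, q ∉ Q T → f q = 0) (hg0 : ∀ q, q ∉ Q T → g q = 0)
    (hw : ∀ φ φt : ℝ × ℝ → ℝ, Continuous φ → Continuous φt →
      (∀ t x, HasDerivAt (fun s => φ (s, x)) (φt (t, x)) t) → ∫ p, f p * φt p = -∫ p, g p * φ p) :
    WeakT (n := n) T (fun p => f (sm T p)) (fun p => -g (sm T p)) := by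
  refine ⟨int_sm T hf.integrableOn, (int_sm T hg.integrableOn).neg, fun φ hφ => ?_⟩
  have e1 : -∫ p in QT T n, -g (sm T p) * φ p = ∫ p in QT T n, g (sm T p) * φ p := by
    rw [← integral_neg]
    refine integral_congr_ae (Eventually.of_forall fun p => ?_)
    simp only
    ring
  rw [e1, (fub T hf hf0 (test_fd hφ (1, 0))).2, (fub T hg hg0 hφ.1.continuous).2]
  refine integral_congr_ae (Eventually.of_forall fun y => ?_)
  have hc : Continuous fun q : ℝ × ℝ => ((T - q.1, (0 : Fin (n + 1)).insertNth q.2 y) : ℝ × V n) :=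
    (continuous_const.sub continuous_fst).prodMk
      (Continuous.finInsertNth 0 continuous_snd continuous_const)
  have h := hw (fun q => φ (T - q.1, (0 : Fin (n + 1)).insertNth q.2 y))
    (fun q => -(fderiv ℝ φ (T - q.1, (0 : Fin (n + 1)).insertNth q.2 y) (1, 0)))
    (hφ.1.continuous.comp hc) (((test_fd hφ (1, 0)).comp hc).neg)
    (fun t x => test_t hφ ((0 : Fin (n + 1)).insertNth x y) t)
  simp only [mul_neg, integral_neg, neg_inj] at h
  exact h

/-- the pointwise facts at a good point -/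
theorem good_pt {g f : ℝ} (h : Good g f) : 1 < g / f ∧ |g / f| ≤ Th g f ∧
    g ^ 2 / (g / f) ≤ Th g f ∧ g / f * f ^ 2 ≤ Th g f ∧ g / f * f = g ∧ |g| ≤ Th g f := by
  obtain ⟨h1, h2, h3⟩ := h
  have hf : f ≠ 0 := by
    intro h0
    rw [h0, abs_zero] at h1
    linarith
  have hg : g ≠ 0 := by
    intro h0
    rw [h0, zero_mul] at h2
    exact lt_irrefl _ h2
  have hfa : 0 < |f| := by linarith
  have e1 : |g| * |f| = g * f := by rw [← abs_mul, abs_of_pos h2]
  have e2 : |f| * |f| = f * f := abs_mul_abs_self f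
  have e3 : 1 < g / f := by
    have h4 : g / f = (g * f) / (f * f) := by
      field_simp
    rw [h4, one_lt_div (by rw [← e2]; exact mul_pos hfa hfa), ← e1, ← e2]
    exact mul_lt_mul_of_pos_right h3 hfa
  have n1 : 0 ≤ |g| := abs_nonneg g
  have n2 : 0 ≤ f ^ 2 := sq_nonneg f
  have n3 : 0 ≤ |g * f| := abs_nonneg _
  have n4 : 0 ≤ |g / f| := abs_nonneg _
  have e4 : g ^ 2 / (g / f) = g * f := by
    field_simp
  have e5 : g / f * f ^ 2 = g * f := by
    field_simp
  have e6 : g / f * f = g := div_mul_cancel₀ g hf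
  have n5 : g * f ≤ |g * f| := le_abs_self _
  unfold Th
  refine ⟨e3, by linarith, by rw [e4]; linarith, by rw [e5]; linarith, e6, by linarith⟩

end Pool.Agent.Q64.BP.ND

namespace Pool.Agent.Q64.BP

open Pool.Agent.Q64.BP.ND

theorem t_ND : S_ND := by
  intro n T hT U Ux G F hS
  have hoffU : ∀ q, q ∉ Q T → U q = 0 := fun q hq => (hS.off q hq).1
  have hoffUx : ∀ q, q ∉ Q T → Ux q = 0 := fun q hq => (hS.off q hq).2.1
  have hoffG : ∀ q, q ∉ Q T → G q = 0 := fun q hq => (hS.off q hq).2.2.1
  have hoffF : ∀ q, q ∉ Q T → F q = 0 := fun q hq => (hS.off q hq).2.2.2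
  have hK : IsCompact (Icc (0 : ℝ) T ×ˢ Icc (0 : ℝ) 1) := isCompact_Icc.prod isCompact_Icc
  have hKQ : ∀ q, q ∉ Icc (0 : ℝ) T ×ˢ Icc (0 : ℝ) 1 → q ∉ Q T := fun q hq h =>
    hq ⟨Ioo_subset_Icc_self h.1, Ioo_subset_Icc_self h.2⟩
  have hcU : HasCompactSupport U := HasCompactSupport.intro hK fun q hq => hoffU q (hKQ q hq)
  have hcUx : HasCompactSupport Ux := HasCompactSupport.intro hK fun q hq => hoffUx q (hKQ q hq)
  have hUi : Integrable U := hS.cU.integrable_of_hasCompactSupport hcU
  have hUxi : Integrable Ux := hS.cUx.integrable_of_hasCompactSupport hcUx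
  obtain ⟨A, hA⟩ := hS.cU.bounded_above_of_compact_support hcU
  obtain ⟨B, hB⟩ := hS.cUx.bounded_above_of_compact_support hcUx
  have hA2 : ∀ q, U q ^ 2 ≤ A ^ 2 := fun q => by
    rw [← sq_abs (U q)]
    exact pow_le_pow_left₀ (abs_nonneg _) (hA q) 2
  have hB2 : ∀ q, Ux q ^ 2 ≤ B ^ 2 := fun q => by
    rw [← sq_abs (Ux q)]
    exact pow_le_pow_left₀ (abs_nonneg _) (hB q) 2
  have hThm : Measurable fun q => Th (G q) (F q) := by
    unfold Th
    exact (((hS.mG.abs).add (hS.mF.pow_const 2)).add ((hS.mG.mul hS.mF).abs)).add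
      ((hS.mG.div hS.mF).abs)
  have hTh0 : ∀ g f : ℝ, 0 ≤ Th g f := fun g f => by
    unfold Th
    positivity
  have hThi : IntegrableOn (fun q => Th (G q) (F q)) (Q T) := by
    unfold IntegrableOn
    rw [← lintegral_ofReal_ne_top_iff_integrable hThm.aestronglyMeasurable
      (Eventually.of_forall fun q => hTh0 _ _)]
    exact hS.fin.ne
  have hvol : volume (Q T) ≠ ⊤ := by
    refine ne_top_of_le_ne_top hK.measure_lt_top.ne (measure_mono fun q h =>
      ⟨Ioo_subset_Icc_self h.1, Ioo_subset_Icc_self h.2⟩)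
  have hG1 : ∀ g f : ℝ, |g| ≤ Th g f := fun g f => by
    unfold Th
    have := sq_nonneg f
    have := abs_nonneg (g * f)
    have := abs_nonneg (g / f)
    linarith
  have hF1 : ∀ g f : ℝ, f ^ 2 ≤ Th g f := fun g f => by
    unfold Th
    have := abs_nonneg g
    have := abs_nonneg (g * f)
    have := abs_nonneg (g / f)
    linarith
  have hGi : IntegrableOn G (Q T) := Integrable.mono' hThi hS.mG.aestronglyMeasurable
    (Eventually.of_forall fun q => hG1 _ _)
  have hFi : IntegrableOn F (Q T) := by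
    have h1 : IntegrableOn (fun q => 1 + Th (G q) (F q)) (Q T) :=
      (integrableOn_const hvol).add hThi
    refine Integrable.mono' h1 hS.mF.aestronglyMeasurable (Eventually.of_forall fun q => ?_)
    have h2 := hF1 (G q) (F q)
    rw [Real.norm_eq_abs, abs_le]
    constructor
    · nlinarith [sq_nonneg (F q + 1)]
    · nlinarith [sq_nonneg (F q - 1)]
  have hGI : Integrable G := (integrableOn_iff_integrable_of_support_subset
    (fun q hq => by_contra fun h => hq (hoffG q h))).1 hGi
  have hFI : Integrable F := (integrableOn_iff_integrable_of_support_subset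
    (fun q hq => by_contra fun h => hq (hoffF q h))).1 hFi
  have hmm : Measurable (mm G F) := by
    unfold mm
    exact Measurable.ite (measurableSet_lt measurable_const (hS.mG.div hS.mF))
      (hS.mG.div hS.mF) measurable_const
  have hgood : ∀ᵐ q : ℝ × ℝ, q ∈ Q T → Good (G q) (F q) ∧ mm G F q = G q / F q := by
    filter_upwards [hS.good] with q hq hqQ
    have h := hq hqQ
    refine ⟨h, ?_⟩
    unfold mm
    rw [if_pos (good_pt h).1]
  have hgr : ∀ᵐ q ∂(volume.restrict (Q T)), Good (G q) (F q) ∧ mm G F q = G q / F q :=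
    (ae_restrict_iff' (Q_meas T)).2 hgood
  refine ⟨fun p => mm G F (sm T p), fun p => U (sm T p), fun p => -G (sm T p), DD T Ux, HH T F,
    hmm.comp (sm_meas T), ?_, ?_, ?_, ?_, ?_, ?_, ?_⟩
  · intro t x k
    simp only [sm, Int.fract_add_intCast]
  · refine int_sm T (f := mm G F) ?_
    refine Integrable.mono' hThi hmm.aestronglyMeasurable ?_
    filter_upwards [hgr] with q hq
    rw [hq.2]
    exact (good_pt hq.1).2.1
  · intro p
    simp only [mm]
    split_ifs with h
    · exact h.le
    · exact le_refl _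
  · refine ⟨?_, ?_, ?_, ?_, ?_, ?_, ?_, ?_, ?_, ?_⟩
    · intro t x k
      simp only [sm, Int.fract_add_intCast]
    · exact wt0 T hUi hGI hoffU hoffG hS.weakt
    · intro i
      by_cases hi : i = 0
      · rw [hi, DD, if_pos rfl]
        exact wx0 T hUi hUxi hoffU hoffUx hS.weakx
      · rw [DD, if_neg hi]
        exact wxi T hi hUi hoffU
    · intro i j
      by_cases hi : i = 0
      · rw [hi, DD, if_pos rfl]
        by_cases hj : j = 0
        · rw [hj, HH, if_pos ⟨rfl, rfl⟩]
          exact wx0 T hUxi hFI hoffUx hoffF hS.weakxx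
        · rw [HH, if_neg fun h => hj h.2]
          exact wxi T hj hUxi hoffUx
      · rw [DD, if_neg hi, HH, if_neg fun h => hi h.1]
        exact wxz T j
    · refine ⟨A ^ 2 + B ^ 2, Eventually.of_forall fun t _ => ?_⟩
      have h1 : ∀ x : V n, ENNReal.ofReal (U (sm T (t, x)) ^ 2 + ∑ i, DD T Ux i (t, x) ^ 2) ≤
          ENNReal.ofReal (A ^ 2 + B ^ 2) := by
        intro x
        rw [DD_sum]
        exact ENNReal.ofReal_le_ofReal (add_le_add (hA2 _) (hB2 _))
      calc ∫⁻ x in cube n, ENNReal.ofReal (U (sm T (t, x)) ^ 2 + ∑ i, DD T Ux i (t, x) ^ 2) ≤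
          ∫⁻ _x in cube n, ENNReal.ofReal (A ^ 2 + B ^ 2) := lintegral_mono fun x => h1 x
        _ = ENNReal.ofReal (A ^ 2 + B ^ 2) := by
          rw [setLIntegral_const, cube_vol, mul_one]
    · have h1 : ∀ p : ℝ × V n, ENNReal.ofReal (U (sm T p) ^ 2 + ∑ i, DD T Ux i p ^ 2 +
          ∑ i, ∑ j, HH T F i j p ^ 2) =
          (fun q => ENNReal.ofReal (U q ^ 2 + Ux q ^ 2 + F q ^ 2)) (sm T p) := by
        intro p
        rw [DD_sum, HH_sum2]
      simp only [h1]
      rw [lint T (h := fun q => ENNReal.ofReal (U q ^ 2 + Ux q ^ 2 + F q ^ 2))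
        (((hS.cU.measurable.pow_const 2).add (hS.cUx.measurable.pow_const 2)).add
          (hS.mF.pow_const 2)).ennreal_ofReal]
      have h2 : IntegrableOn (fun q => (A ^ 2 + B ^ 2) + Th (G q) (F q)) (Q T) :=
        (integrableOn_const hvol).add hThi
      have h3 : ∫⁻ q in Q T, ENNReal.ofReal (U q ^ 2 + Ux q ^ 2 + F q ^ 2) ≤
          ∫⁻ q in Q T, ENNReal.ofReal ((A ^ 2 + B ^ 2) + Th (G q) (F q)) :=
        lintegral_mono fun q => ENNReal.ofReal_le_ofReal
          (add_le_add (add_le_add (hA2 q) (hB2 q)) (hF1 _ _))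
      exact lt_of_le_of_lt h3 h2.lintegral_lt_top
    · intro t _
      have hm : Measurable fun x : V n => U (sm T (t, x)) :=
        hS.cU.measurable.comp ((sm_meas T).comp measurable_prodMk_left)
      refine ⟨hm.aestronglyMeasurable, ?_⟩
      have h3 : ∫⁻ x in cube n, ENNReal.ofReal (U (sm T (t, x)) ^ 2) ≤
          ∫⁻ _x in cube n, ENNReal.ofReal (A ^ 2) :=
        lintegral_mono fun x => ENNReal.ofReal_le_ofReal (hA2 _)
      refine lt_of_le_of_lt h3 ?_
      rw [setLIntegral_const, cube_vol, mul_one]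
      exact ENNReal.ofReal_lt_top
    · intro t _
      have hz : ∫⁻ _x : V n in cube n, (0 : ℝ≥0∞) = 0 := lintegral_zero
      rw [← hz]
      refine tendsto_lintegral_filter_of_dominated_convergence
        (fun _ => ENNReal.ofReal ((2 * A) ^ 2)) ?_ ?_ ?_ ?_
      · refine Eventually.of_forall fun s => ?_
        have hm : ∀ s : ℝ, Measurable fun x : V n => U (sm T (s, x)) := fun s =>
          hS.cU.measurable.comp ((sm_meas T).comp measurable_prodMk_left)
        exact (((hm s).sub (hm t)).pow_const 2).ennreal_ofReal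
      · refine Eventually.of_forall fun s => Eventually.of_forall fun x => ?_
        refine ENNReal.ofReal_le_ofReal ?_
        have h1 := hA (sm T (s, x))
        have h2 := hA (sm T (t, x))
        have h3 : |U (sm T (s, x)) - U (sm T (t, x))| ≤ 2 * A := by
          refine (abs_sub _ _).trans ?_
          rw [Real.norm_eq_abs] at h1 h2
          linarith
        rw [← sq_abs]
        exact pow_le_pow_left₀ (abs_nonneg _) h3 2
      · rw [setLIntegral_const, cube_vol, mul_one]
        exact ENNReal.ofReal_ne_top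
      · refine Eventually.of_forall fun x => ?_
        have hc : Continuous fun s : ℝ =>
            ENNReal.ofReal ((U (T - s, Int.fract (x 0)) - U (T - t, Int.fract (x 0))) ^ 2) := by
          refine ENNReal.continuous_ofReal.comp ?_
          exact ((hS.cU.comp ((continuous_const.sub continuous_id).prodMk
            continuous_const)).sub continuous_const).pow 2
        have h1 := hc.tendsto t
        rw [sub_self, zero_pow two_ne_zero, ENNReal.ofReal_zero] at h1
        exact h1.mono_left nhdsWithin_le_nhds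
    · have h1 : ∀ p : ℝ × V n, ENNReal.ofReal ((-G (sm T p)) ^ 2 / mm G F (sm T p)) =
          (fun q => ENNReal.ofReal (G q ^ 2 / mm G F q)) (sm T p) := by
        intro p
        rw [neg_sq]
      simp only [h1]
      rw [lint T (h := fun q => ENNReal.ofReal (G q ^ 2 / mm G F q))
        ((hS.mG.pow_const 2).div hmm).ennreal_ofReal]
      refine lt_of_le_of_lt (lintegral_mono_ae ?_) hS.fin
      filter_upwards [hgr] with q hq
      rw [hq.2]
      exact ENNReal.ofReal_le_ofReal (good_pt hq.1).2.2.1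
    · have h1 : ∀ p : ℝ × V n, ENNReal.ofReal (mm G F (sm T p) * (∑ i, HH T F i i p) ^ 2) =
          (fun q => ENNReal.ofReal (mm G F q * F q ^ 2)) (sm T p) := by
        intro p
        rw [HH_sum]
      simp only [h1]
      rw [lint T (h := fun q => ENNReal.ofReal (mm G F q * F q ^ 2))
        (hmm.mul (hS.mF.pow_const 2)).ennreal_ofReal]
      refine lt_of_le_of_lt (lintegral_mono_ae ?_) hS.fin
      filter_upwards [hgr] with q hq
      rw [hq.2]
      exact ENNReal.ofReal_le_ofReal (good_pt hq.1).2.2.2.1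
  · have h1 := ae_sm (n := n) T hgood
    filter_upwards [h1] with p hp
    rw [HH_sum, hp.2, (good_pt hp.1).2.2.2.2.1]
    ring
  · intro x
    refine hoffU _ fun h => ?_
    have h1 := h.1.1
    simp only [sm, sub_self] at h1
    exact lt_irrefl _ h1
  · intro h
    have h1 : ∫⁻ p in QT T n, (fun q => ENNReal.ofReal |U q|) (sm T p) = 0 := by
      rw [lintegral_eq_zero_iff' ?_]
      · filter_upwards [h] with p hp
        simp [hp]
      · exact ((hS.cU.measurable.abs.ennreal_ofReal).comp (sm_meas T)).aemeasurable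
    rw [lint T hS.cU.measurable.abs.ennreal_ofReal,
      lintegral_eq_zero_iff hS.cU.measurable.abs.ennreal_ofReal] at h1
    have h2 : ∀ᵐ q : ℝ × ℝ, U q = 0 := by
      have h3 := (ae_restrict_iff' (Q_meas T)).1 h1
      filter_upwards [h3] with q hq
      by_cases hqQ : q ∈ Q T
      · have h4 := hq hqQ
        simp only [Pi.zero_apply, ENNReal.ofReal_eq_zero] at h4
        exact abs_nonpos_iff.1 h4
      · exact hoffU q hqQ
    have h5 : ∀ᵐ q : ℝ × ℝ, G q = 0 := by
      refine ae_eq_zero_of_integral_contDiff_smul_eq_zero hGI.locallyIntegrable ?_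
      intro g hg _
      have hd : Differentiable ℝ g := hg.differentiable (by simp)
      have h6 := hS.weakt g (fun p => fderiv ℝ g p (1, 0)) hg.continuous
        ((hg.continuous_fderiv (by simp)).clm_apply continuous_const) (fun t x => by
          have hc : HasDerivAt (fun s : ℝ => ((s, x) : ℝ × ℝ)) (1, 0) t :=
            (hasDerivAt_id t).prodMk (hasDerivAt_const t x)
          exact ((hd (t, x)).hasFDerivAt).comp_hasDerivAt t hc)
      have h7 : ∫ p, U p * fderiv ℝ g p (1, 0) = 0 := by
        rw [integral_eq_zero_of_ae]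
        filter_upwards [h2] with q hq
        rw [hq]
        simp
      rw [h7] at h6
      have h8 : ∫ p, g p • G p = ∫ p, G p * g p := by
        refine integral_congr_ae (Eventually.of_forall fun p => ?_)
        simp only [smul_eq_mul]
        ring
      rw [h8]
      linarith
    have h9 : ∀ᵐ q : ℝ × ℝ, q ∉ Q T := by
      filter_upwards [h5, hgood] with q hq1 hq2 hq3
      have h10 := (hq2 hq3).1.2.1
      rw [hq1, zero_mul] at h10
      exact lt_irrefl _ h10
    have h11 : volume (Q T) = 0 := by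
      have := ae_iff.1 h9
      simpa using this
    have h12 : volume (Q T) = ENNReal.ofReal T := by
      unfold Q Bx
      rw [Measure.volume_eq_prod, Measure.prod_prod, Real.volume_Ioo, Real.volume_Ioo]
      simp
    rw [h12, ENNReal.ofReal_eq_zero] at h11
    linarith

end Pool.Agent.Q64.BP
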