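import Pool.Agent.Q64.BP.Stm

/-! Project BP (helper64), job PTW: pointwise comparison of values (by helper182). -/

open MeasureTheory Filter Topology Set
open scoped ENNReal NNReal ContDiff

namespace Pool.Agent.Q64.BP

namespace PTW

lemma Th_eq (g f : ℝ) : Th g f = |g| + |f| ^ 2 + |g| * |f| + |g| / |f| := by
  unfold Th
  rw [sq_abs, abs_mul, abs_div]

lemma Psi_eq (g f : ℝ) : Psi g f = 1 + |g| + |f| ^ 2 := by
  unfold Psi
  rw [sq_abs]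

lemma near (a a' : ℝ) (h : |a' - a| ≤ 1 / 8) : |a'| ≤ |a| + 1 / 8 ∧ |a| ≤ |a'| + 1 / 8 := by
  have h1 := abs_abs_sub_abs_le a' a
  have h2 := abs_le.1 (h1.trans h)
  exact ⟨by linarith [h2.2], by linarith [h2.1]⟩

lemma sgn (a b a' b' : ℝ) (h : 0 < a * b) (ha : 1 / 8 < |a|) (hb : 1 / 8 < |b|)
    (h1 : |a' - a| ≤ 1 / 8) (h2 : |b' - b| ≤ 1 / 8) : 0 < a' * b' := by
  have h1' := abs_le.1 h1
  have h2' := abs_le.1 h2
  rcases mul_pos_iff.1 h with ⟨p, q⟩ | ⟨p, q⟩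
  · rw [abs_of_pos p] at ha
    rw [abs_of_pos q] at hb
    exact mul_pos (by linarith [h1'.1]) (by linarith [h2'.1])
  · rw [abs_of_neg p] at ha
    rw [abs_of_neg q] at hb
    exact mul_pos_of_neg_of_neg (by linarith [h1'.2]) (by linarith [h2'.2])

lemma partA (G F G' F' : ℝ) (hG : |G' - G| ≤ 1 / 8) (hF : |F' - F| ≤ 1 / 8) (h : DG G F) :
    Good G' F' ∧ Th G' F' ≤ 4 * Th G F := by
  obtain ⟨h1, h2, h3⟩ := h
  obtain ⟨a1, a2⟩ := near G G' hG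
  obtain ⟨b1, b2⟩ := near F F' hF
  refine ⟨⟨by linarith, sgn G F G' F' h2 (by linarith) (by linarith) hG hF, by linarith⟩, ?_⟩
  rw [Th_eq, Th_eq]
  obtain ⟨x, hx⟩ : ∃ x, x = |G| := ⟨_, rfl⟩
  obtain ⟨y, hy⟩ : ∃ y, y = |F| := ⟨_, rfl⟩
  obtain ⟨x', hx'⟩ : ∃ x', x' = |G'| := ⟨_, rfl⟩
  obtain ⟨y', hy'⟩ : ∃ y', y' = |F'| := ⟨_, rfl⟩
  rw [← hx, ← hy, ← hx', ← hy']
  rw [← hy] at h1 h3
  rw [← hx] at h3
  rw [← hx, ← hx'] at a1 a2
  rw [← hy, ← hy'] at b1 b2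
  have c1 : x' ≤ 2 * x := by linarith
  have c2 : y' ≤ 2 * y := by linarith
  have c3 : y / 2 ≤ y' := by linarith
  have c4 : 0 ≤ x' := by linarith
  have c5 : 0 < y' := by linarith
  have d1 : y' ^ 2 ≤ 4 * y ^ 2 := by
    have := mul_self_le_mul_self c5.le c2
    nlinarith
  have d2 : x' * y' ≤ 4 * (x * y) := by
    have := mul_le_mul c1 c2 c5.le (by linarith)
    linarith
  have d3 : x' / y' ≤ 4 * (x / y) := by
    have e1 : x' / y' ≤ (2 * x) / (y / 2) :=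
      div_le_div₀ (by linarith) c1 (by linarith) c3
    have e2 : (2 * x) / (y / 2) = 4 * (x / y) := by
      have : y ≠ 0 := by linarith
      field_simp
      ring
    linarith
  linarith

lemma partB (G F G' F' : ℝ) (hG : |G' - G| ≤ 1 / 8) (hF : |F' - F| ≤ 1 / 8) :
    Psi G' F' ≤ 3 / 2 * Psi G F := by
  obtain ⟨a1, a2⟩ := near G G' hG
  obtain ⟨b1, b2⟩ := near F F' hF
  rw [Psi_eq, Psi_eq]
  have c1 : 0 ≤ |G| := abs_nonneg _
  have c2 : 0 ≤ |F| := abs_nonneg _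
  have c3 : 0 ≤ |F'| := abs_nonneg _
  have d1 := mul_self_le_mul_self c3 b1
  nlinarith [sq_nonneg (|F| - 1)]

lemma partC (G F G' F' : ℝ) (hG : |G' - G| ≤ 1 / 8) (hF : |F' - F| ≤ 1 / 8) (h : Good G' F')
    (hn : ¬ DG G F) : Th G' F' ≤ 400 * Psi G F := by
  obtain ⟨h1, h2, h3⟩ := h
  obtain ⟨a1, a2⟩ := near G G' hG
  obtain ⟨b1, b2⟩ := near F F' hF
  have hpos : 0 < G * F := by
    refine sgn G' F' G F h2 (by linarith) (by linarith) ?_ ?_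
    · rw [abs_sub_comm]; exact hG
    · rw [abs_sub_comm]; exact hF
  have hc : |F| < 1 ∨ |G| < |F| + 2 := by
    by_contra hcon
    push Not at hcon
    exact hn ⟨hcon.1, hpos, hcon.2⟩
  rw [Th_eq, Psi_eq]
  obtain ⟨x, hx⟩ : ∃ x, x = |G| := ⟨_, rfl⟩
  obtain ⟨y, hy⟩ : ∃ y, y = |F| := ⟨_, rfl⟩
  obtain ⟨x', hx'⟩ : ∃ x', x' = |G'| := ⟨_, rfl⟩
  obtain ⟨y', hy'⟩ : ∃ y', y' = |F'| := ⟨_, rfl⟩
  have e1 : 0 ≤ x := by rw [hx]; exact abs_nonneg _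
  have e2 : 0 ≤ y := by rw [hy]; exact abs_nonneg _
  rw [← hx, ← hy] at hc
  rw [← hx, ← hy, ← hx', ← hy']
  rw [← hx', ← hy'] at h3
  rw [← hy'] at h1
  rw [← hx, ← hx'] at a1 a2
  rw [← hy, ← hy'] at b1 b2
  have c5 : 0 < y' := by linarith
  have c4 : 0 ≤ x' := by linarith
  have d3 : x' / y' ≤ 2 * x' := by
    rw [div_le_iff₀ c5]
    nlinarith
  have d1 : y' ^ 2 ≤ (y + 1 / 8) ^ 2 := by
    have := mul_self_le_mul_self c5.le b1
    nlinarith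
  have d2 : x' * y' ≤ (x + 1 / 8) * (y + 1 / 8) := mul_le_mul a1 b1 c5.le (by linarith)
  have key : x * y ≤ x + y * (y + 2) := by
    rcases hc with hc | hc
    · have := mul_le_mul_of_nonneg_left hc.le e1
      nlinarith
    · have := mul_le_mul_of_nonneg_right hc.le e2
      nlinarith
  nlinarith [sq_nonneg (y - 1)]

end PTW

/-- **JOB PTW** -/
theorem t_PTW : S_PTW := fun G F G' F' hG hF =>
  ⟨fun h => PTW.partA G F G' F' hG hF h, PTW.partB G F G' F' hG hF,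
    fun h hn => PTW.partC G F G' F' hG hF h hn⟩

end Pool.Agent.Q64.BP
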