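import Pool.Agent.Q64.BP.Stm

/-!
# BP: `t_REP` (periodic repetition of the cell), written by helper181
-/

set_option autoImplicit false

open MeasureTheory Filter Topology Set
open scoped ENNReal NNReal ContDiff

namespace Pool.Agent.Q64.BP

namespace REP

/-- the sum of `m` translated and scaled copies -/
noncomputable def rep (g : ℝ → ℝ) (m : ℕ) (x0 d x : ℝ) : ℝ :=
  ∑ j ∈ Finset.range m, g ((x - (x0 + j * d)) / d)

theorem shift {x0 d x : ℝ} (hd : 0 < d) (j j' : ℕ) :
    (x - (x0 + j' * d)) / d = (x - (x0 + j * d)) / d + ((j : ℝ) - j') := by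
  field_simp
  ring

theorem notMem {x0 d x : ℝ} (hd : 0 < d) {j j' : ℕ} (hj : (x - (x0 + j * d)) / d ∈ Ioo (0 : ℝ) 1)
    (h : j' ≠ j) : (x - (x0 + j' * d)) / d ∉ Ioo (0 : ℝ) 1 := by
  rw [shift hd j j']
  rintro ⟨h1, h2⟩
  rcases lt_or_gt_of_ne h with h3 | h3
  · have h4 : (j' : ℝ) + 1 ≤ j := by exact_mod_cast h3
    linarith [hj.1]
  · have h4 : (j : ℝ) + 1 ≤ j' := by exact_mod_cast h3
    linarith [hj.2]

theorem rep_eq {g : ℝ → ℝ} (hg : ∀ x, x ∉ Ioo (0 : ℝ) 1 → g x = 0) {m : ℕ} {x0 d x : ℝ}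
    (hd : 0 < d) {j : ℕ} (hjm : j < m) (hj : (x - (x0 + j * d)) / d ∈ Ioo (0 : ℝ) 1) :
    rep g m x0 d x = g ((x - (x0 + j * d)) / d) := by
  unfold rep
  refine Finset.sum_eq_single_of_mem j (Finset.mem_range.2 hjm) fun j' _ h => ?_
  exact hg _ (notMem hd hj h)

theorem rep_zero {g : ℝ → ℝ} (hg : ∀ x, x ∉ Ioo (0 : ℝ) 1 → g x = 0) {m : ℕ} {x0 d x : ℝ}
    (h : ∀ j < m, (x - (x0 + j * d)) / d ∉ Ioo (0 : ℝ) 1) : rep g m x0 d x = 0 := by
  unfold rep
  exact Finset.sum_eq_zero fun j hj => hg _ (h j (Finset.mem_range.1 hj))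

theorem rep_bound {g : ℝ → ℝ} (hg : ∀ x, x ∉ Ioo (0 : ℝ) 1 → g x = 0) {B : ℝ}
    (hB : ∀ x, |g x| ≤ B) {m : ℕ} {x0 d x : ℝ} (hd : 0 < d) : |rep g m x0 d x| ≤ B := by
  by_cases h : ∀ j < m, (x - (x0 + j * d)) / d ∉ Ioo (0 : ℝ) 1
  · rw [rep_zero hg h, abs_zero]
    exact (abs_nonneg _).trans (hB 0)
  · push Not at h
    obtain ⟨j, hj, hj'⟩ := h
    rw [rep_eq hg hd hj hj']
    exact hB _

theorem rep_deriv {g g' : ℝ → ℝ} (hg : ∀ x, HasDerivAt g (g' x) x) {m : ℕ} {x0 d : ℝ}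
    (hd : 0 < d) (x : ℝ) : HasDerivAt (fun x => d * rep g m x0 d x) (rep g' m x0 d x) x := by
  have h1 : ∀ j ∈ Finset.range m, HasDerivAt (fun x : ℝ => g ((x - (x0 + j * d)) / d))
      (g' ((x - (x0 + j * d)) / d) * (1 / d)) x := by
    intro j _
    have h2 : HasDerivAt (fun x : ℝ => (x - (x0 + j * d)) / d) (1 / d) x :=
      ((hasDerivAt_id x).sub_const (x0 + j * d)).div_const d
    exact (hg ((x - (x0 + j * d)) / d)).comp x h2
  have h3 := (HasDerivAt.fun_sum h1).const_mul d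
  have h4 : d * ∑ j ∈ Finset.range m, g' ((x - (x0 + j * d)) / d) * (1 / d) = rep g' m x0 d x := by
    unfold rep
    rw [← Finset.sum_mul]
    field_simp
  rw [h4] at h3
  exact h3

theorem rep_cont {g : ℝ → ℝ} (hg : Continuous g) (m : ℕ) (x0 d : ℝ) :
    Continuous (fun x => rep g m x0 d x) := by
  unfold rep
  exact continuous_finsetSum _ fun j _ => hg.comp (by fun_prop)

theorem bdd {g : ℝ → ℝ} (hg : Continuous g) (h0 : ∀ x, x ∉ Ioo (0 : ℝ) 1 → g x = 0) :
    ∃ B : ℝ, 0 ≤ B ∧ ∀ x, |g x| ≤ B := by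
  obtain ⟨B, hB⟩ := (isCompact_Icc (a := (0 : ℝ)) (b := 1)).exists_bound_of_continuousOn
    hg.continuousOn
  refine ⟨max B 0, le_max_right _ _, fun x => ?_⟩
  by_cases hx : x ∈ Ioo (0 : ℝ) 1
  · exact ((hB x (Ioo_subset_Icc_self hx)).trans (le_max_left _ _))
  · rw [h0 x hx, abs_zero]
    exact le_max_right _ _

/-- the scaled copies of the intervals -/
noncomputable def sc {n : ℕ} (m : ℕ) (x0 d : ℝ) (y : Fin n → ℝ) (i : Fin (m * n)) : ℝ :=
  x0 + ((finProdFinEquiv.symm i).1 : ℕ) * d + d * y (finProdFinEquiv.symm i).2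

theorem sum_sc {n m : ℕ} (F : Fin n → ℝ) :
    ∑ i : Fin (m * n), F (finProdFinEquiv.symm i).2 = m * ∑ i, F i := by
  rw [Equiv.sum_comp (finProdFinEquiv.symm : Fin (m * n) ≃ Fin m × Fin n)
    (fun p : Fin m × Fin n => F p.2), Fintype.sum_prod_type]
  simp

theorem fam {lam δ : ℝ} {n : ℕ} {y z : Fin n → ℝ} {l : Fin n → Bool} (h : Fam 0 1 lam δ n y z l)
    {x0 x1 d : ℝ} {m : ℕ} (hd : 0 < d) (hm : m * d = x1 - x0) :
    Fam x0 x1 lam δ (m * n) (sc m x0 d y) (sc m x0 d z)
      (fun i => l (finProdFinEquiv.symm i).2) := by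
  have hlen : ∀ i, sc m x0 d z i - sc m x0 d y i =
      d * (z (finProdFinEquiv.symm i).2 - y (finProdFinEquiv.symm i).2) := by
    intro i
    unfold sc
    ring
  have hj : ∀ i : Fin (m * n), (((finProdFinEquiv.symm i).1 : ℕ) : ℝ) + 1 ≤ m := by
    intro i
    exact_mod_cast (finProdFinEquiv.symm i).1.2
  have key : ∀ i j : Fin (m * n), (finProdFinEquiv.symm i).1 < (finProdFinEquiv.symm j).1 →
      sc m x0 d z i ≤ sc m x0 d y j := by
    intro i j hij
    unfold sc
    have h1 : (((finProdFinEquiv.symm i).1 : ℕ) : ℝ) + 1 ≤ ((finProdFinEquiv.symm j).1 : ℕ) := by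
      exact_mod_cast hij
    have h2 := mul_le_mul_of_nonneg_right h1 hd.le
    have h3 := mul_le_mul_of_nonneg_left (h.right (finProdFinEquiv.symm i).2) hd.le
    have h4 := mul_nonneg hd.le (h.left (finProdFinEquiv.symm j).2)
    linarith
  refine ⟨?_, ?_, ?_, ?_, ?_, ?_, ?_⟩
  · intro i
    have h1 := hlen i
    have h2 := mul_pos hd (sub_pos.2 (h.lt (finProdFinEquiv.symm i).2))
    linarith
  · intro i
    unfold sc
    have h1 : 0 ≤ (((finProdFinEquiv.symm i).1 : ℕ) : ℝ) * d := by positivity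
    have h2 := mul_nonneg hd.le (h.left (finProdFinEquiv.symm i).2)
    linarith
  · intro i
    unfold sc
    have h1 := mul_le_mul_of_nonneg_right (hj i) hd.le
    have h3 := mul_le_mul_of_nonneg_left (h.right (finProdFinEquiv.symm i).2) hd.le
    linarith
  · intro i j hij
    rcases lt_trichotomy (finProdFinEquiv.symm i).1 (finProdFinEquiv.symm j).1 with h1 | h1 | h1
    · exact Or.inl (key i j h1)
    · have h2 : (finProdFinEquiv.symm i).2 ≠ (finProdFinEquiv.symm j).2 := by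
        intro h2
        exact hij (finProdFinEquiv.symm.injective (Prod.ext h1 h2))
      unfold sc
      rw [h1]
      rcases h.disj _ _ h2 with h3 | h3
      · left
        have h4 := mul_le_mul_of_nonneg_left h3 hd.le
        linarith
      · right
        have h4 := mul_le_mul_of_nonneg_left h3 hd.le
        linarith
    · exact Or.inr (key j i h1)
  · have h1 : ∀ i : Fin (m * n), (if l (finProdFinEquiv.symm i).2 then
        sc m x0 d z i - sc m x0 d y i else 0) =
        (fun i' => d * (if l i' then z i' - y i' else 0)) (finProdFinEquiv.symm i).2 := by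
      intro i
      rw [hlen i]
      simp only
      split_ifs
      · rfl
      · rw [mul_zero]
    have h5 := (Finset.sum_congr rfl fun i (_ : i ∈ Finset.univ) => h1 i).trans
      (sum_sc (m := m) (fun i' => d * (if l i' then z i' - y i' else 0)))
    rw [← Finset.mul_sum, ← mul_assoc, hm] at h5
    rw [h5]
    have h2 := mul_le_mul_of_nonneg_left h.tru (show 0 ≤ x1 - x0 by rw [← hm]; positivity)
    linarith
  · have h1 : ∀ i : Fin (m * n), (if l (finProdFinEquiv.symm i).2 then 0 else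
        sc m x0 d z i - sc m x0 d y i) =
        (fun i' => d * (if l i' then 0 else z i' - y i')) (finProdFinEquiv.symm i).2 := by
      intro i
      rw [hlen i]
      simp only
      split_ifs
      · rw [mul_zero]
      · rfl
    have h5 := (Finset.sum_congr rfl fun i (_ : i ∈ Finset.univ) => h1 i).trans
      (sum_sc (m := m) (fun i' => d * (if l i' then 0 else z i' - y i')))
    rw [← Finset.mul_sum, ← mul_assoc, hm] at h5
    rw [h5]
    have h2 := mul_le_mul_of_nonneg_left h.fal (show 0 ≤ x1 - x0 by rw [← hm]; positivity)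
    linarith
  · have h1 : ∀ i : Fin (m * n), sc m x0 d z i - sc m x0 d y i =
        (fun i' => d * (z i' - y i')) (finProdFinEquiv.symm i).2 := hlen
    have h5 := (Finset.sum_congr rfl fun i (_ : i ∈ Finset.univ) => h1 i).trans
      (sum_sc (m := m) (fun i' => d * (z i' - y i')))
    rw [← Finset.mul_sum, ← mul_assoc, hm] at h5
    rw [h5]
    have h2 := mul_le_mul_of_nonneg_left h.tot (show 0 ≤ x1 - x0 by rw [← hm]; positivity)
    linarith

end REP

open REP in
/-- REP. -/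
theorem t_REP (cell : S_CELL) : S_REP := by
  intro x0 x1 lam a b δ ε hx hl0 hl1 hab hδ hε
  obtain ⟨κ0, κ1, κ2, n, y, z, l, hF, hc2, hd0, hd1, hoff, hk2, hval⟩ :=
    cell lam a b δ hl0 hl1 hab hδ
  have ho0 : ∀ x, x ∉ Ioo (0 : ℝ) 1 → κ0 x = 0 := fun x hx => (hoff x hx).1
  have ho1 : ∀ x, x ∉ Ioo (0 : ℝ) 1 → κ1 x = 0 := fun x hx => (hoff x hx).2.1
  have ho2 : ∀ x, x ∉ Ioo (0 : ℝ) 1 → κ2 x = 0 := fun x hx => (hoff x hx).2.2
  have hc0 : Continuous κ0 := continuous_iff_continuousAt.2 fun x => (hd0 x).continuousAt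
  have hc1 : Continuous κ1 := continuous_iff_continuousAt.2 fun x => (hd1 x).continuousAt
  obtain ⟨B0, hB0, hb0⟩ := bdd hc0 ho0
  obtain ⟨B1, hB1, hb1⟩ := bdd hc1 ho1
  obtain ⟨m, hm⟩ := exists_nat_gt ((x1 - x0) * (1 + (B0 + B1) / ε))
  have hx' : 0 < x1 - x0 := sub_pos.2 hx
  have hm0 : (0 : ℝ) < m := lt_of_le_of_lt (by positivity) hm
  set d : ℝ := (x1 - x0) / m with hd
  have hdpos : 0 < d := div_pos hx' hm0
  have hmd : m * d = x1 - x0 := by
    rw [hd]
    field_simp
  have hd1' : d ≤ 1 := by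
    rw [hd, div_le_one hm0]
    have : (x1 - x0) * 1 ≤ (x1 - x0) * (1 + (B0 + B1) / ε) :=
      mul_le_mul_of_nonneg_left (by
        have : 0 ≤ (B0 + B1) / ε := by positivity
        linarith) hx'.le
    linarith
  have hdB : d * (B0 + B1) ≤ ε := by
    have h1 : (x1 - x0) * ((B0 + B1) / ε) ≤ m := by
      have : (x1 - x0) * ((B0 + B1) / ε) ≤ (x1 - x0) * (1 + (B0 + B1) / ε) :=
        mul_le_mul_of_nonneg_left (by linarith) hx'.le
      linarith
    have h2 : d * (B0 + B1) = ((x1 - x0) * ((B0 + B1) / ε)) * (ε / m) := by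
      rw [hd]
      field_simp
    rw [h2]
    calc ((x1 - x0) * ((B0 + B1) / ε)) * (ε / m) ≤ m * (ε / m) :=
          mul_le_mul_of_nonneg_right h1 (by positivity)
      _ = ε := by field_simp
  have hout : ∀ x, x ∉ Ioo x0 x1 → ∀ j < m, (x - (x0 + j * d)) / d ∉ Ioo (0 : ℝ) 1 := by
    intro x hx j hj hmem
    apply hx
    have h1 := mul_pos hdpos hmem.1
    have h2 := mul_lt_mul_of_pos_left hmem.2 hdpos
    have h3 : d * ((x - (x0 + j * d)) / d) = x - (x0 + j * d) := by field_simp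
    rw [h3] at h1 h2
    have h4 : (0 : ℝ) ≤ j * d := by positivity
    have h5 : ((j : ℝ) + 1) * d ≤ m * d :=
      mul_le_mul_of_nonneg_right (by exact_mod_cast hj) hdpos.le
    constructor
    · linarith
    · linarith
  refine ⟨fun x => d * (d * rep κ0 m x0 d x), fun x => d * rep κ1 m x0 d x,
    fun x => rep κ2 m x0 d x, m * n, sc m x0 d y, sc m x0 d z,
    fun i => l (finProdFinEquiv.symm i).2, fam hF hdpos hmd, rep_cont hc2 m x0 d, ?_, ?_, ?_, ?_,
    ?_, ?_⟩
  · intro x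
    exact (rep_deriv hd0 hdpos x).const_mul d
  · intro x
    exact rep_deriv hd1 hdpos x
  · intro x hx
    simp only [rep_zero ho0 (hout x hx), rep_zero ho1 (hout x hx), rep_zero ho2 (hout x hx),
      mul_zero, and_self]
  · intro x
    have h0 := rep_bound (m := m) (x0 := x0) (x := x) ho0 hb0 hdpos
    have h1 := rep_bound (m := m) (x0 := x0) (x := x) ho1 hb1 hdpos
    simp only [abs_mul, abs_of_pos hdpos]
    constructor
    · calc d * (d * |rep κ0 m x0 d x|) ≤ 1 * (d * B0) :=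
            mul_le_mul hd1' (mul_le_mul_of_nonneg_left h0 hdpos.le) (by positivity) zero_le_one
        _ ≤ ε := by
            have : 0 ≤ d * B1 := by positivity
            linarith
    · calc d * |rep κ1 m x0 d x| ≤ d * B1 := mul_le_mul_of_nonneg_left h1 hdpos.le
        _ ≤ ε := by
            have : 0 ≤ d * B0 := by positivity
            linarith
  · intro x
    exact rep_bound ho2 hk2 hdpos
  · intro i x hx
    set p := finProdFinEquiv.symm i with hp
    have h1 : x0 + ((p.1 : ℕ) : ℝ) * d + d * y p.2 < x := hx.1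
    have h2 : x < x0 + ((p.1 : ℕ) : ℝ) * d + d * z p.2 := hx.2
    have h3 : (x - (x0 + ((p.1 : ℕ) : ℝ) * d)) / d ∈ Ioo (y p.2) (z p.2) := by
      constructor
      · rw [lt_div_iff₀ hdpos]
        linarith
      · rw [div_lt_iff₀ hdpos]
        linarith
    have h4 : (x - (x0 + ((p.1 : ℕ) : ℝ) * d)) / d ∈ Ioo (0 : ℝ) 1 :=
      ⟨(hF.left p.2).trans_lt h3.1, h3.2.trans_le (hF.right p.2)⟩
    show rep κ2 m x0 d x = if l p.2 then a else b
    rw [rep_eq ho2 hdpos p.1.2 h4]
    exact hval p.2 _ h3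

end Pool.Agent.Q64.BP
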