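import Pool.Agent.Q64.BP.Stm

/-! # Project BP (helper64), job SEQ (helper18) -/

set_option autoImplicit false

open MeasureTheory Filter Topology Set
open scoped ENNReal NNReal ContDiff

namespace Pool.Agent.Q64.BP.SEQ

/-- functions on the plane -/
abbrev Fn := ℝ × ℝ → ℝ

/-- states -/
def Sta (T : ℝ) : Type := {s : Fn × Fn × Fn × Fn // St T s.1 s.2.1 s.2.2.1 s.2.2.2}

theorem st_zero (T : ℝ) : St T (fun _ => 0) (fun _ => 0) (fun _ => 0) (fun _ => 0) where
  dt t _ := hasDerivAt_const t (0 : ℝ)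
  dx _ x := hasDerivAt_const x (0 : ℝ)
  dxx _ x := hasDerivAt_const x (0 : ℝ)
  cw := continuous_const
  ct := continuous_const
  cx := continuous_const
  cxx := continuous_const
  off _ _ := ⟨rfl, rfl, rfl, rfl⟩

theorem bad_zero (T : ℝ) : bad T (fun _ => 0) (fun _ => 0) ≤ ENNReal.ofReal T := by
  unfold bad
  have h1 : ENNReal.ofReal (Psi 0 0) = 1 := by
    simp [Psi]
  simp only [h1]
  rw [lintegral_one, Measure.restrict_apply_univ]
  refine (measure_mono inter_subset_left).trans ?_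
  unfold Q Bx
  rw [Measure.volume_eq_prod, Measure.prod_prod, Real.volume_Ioo, Real.volume_Ioo]
  simp

/-- the sequence of the errors -/
noncomputable def ep (T : ℝ) (n : ℕ) : ℝ := min (T * (7 / 8) ^ n / 8) ((1 / 2) ^ n)

theorem ep_pos {T : ℝ} (hT : 0 < T) (n : ℕ) : 0 < ep T n := by
  unfold ep
  refine lt_min ?_ ?_ <;> positivity

theorem ep_le1 {T : ℝ} (n : ℕ) : ep T n ≤ T * (7 / 8) ^ n / 8 := min_le_left _ _

theorem ep_le2 {T : ℝ} (n : ℕ) : ep T n ≤ (1 / 2) ^ n := min_le_right _ _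

end Pool.Agent.Q64.BP.SEQ

namespace Pool.Agent.Q64.BP

open SEQ in
theorem t_SEQ (step : S_STEP) : S_SEQ := by
  intro T hT
  have key : ∀ (n : ℕ) (s : Sta T), ∃ (s' : Sta T) (D : Set (ℝ × ℝ)),
      Step T (ep T n) D s.1.1 s.1.2.1 s.1.2.2.1 s.1.2.2.2 s'.1.1 s'.1.2.1 s'.1.2.2.1 s'.1.2.2.2 := by
    intro n s
    obtain ⟨v, vt, vx, vxx, D, h1, h2⟩ := step T hT s.1.1 s.1.2.1 s.1.2.2.1 s.1.2.2.2 s.2 (ep T n)
      (ep_pos hT n)
    exact ⟨⟨(v, vt, vx, vxx), h1⟩, D, h2⟩
  choose nxt D hD using key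
  let z : Sta T := ⟨((fun _ => 0), (fun _ => 0), (fun _ => 0), (fun _ => 0)), st_zero T⟩
  let sq : ℕ → Sta T := fun n => Nat.rec z (fun n s => nxt n s) n
  have hs : ∀ n, sq (n + 1) = nxt n (sq n) := fun n => rfl
  have hstep : ∀ n, Step T (ep T n) (D n (sq n)) (sq n).1.1 (sq n).1.2.1 (sq n).1.2.2.1
      (sq n).1.2.2.2 (sq (n + 1)).1.1 (sq (n + 1)).1.2.1 (sq (n + 1)).1.2.2.1
      (sq (n + 1)).1.2.2.2 := fun n => by
    rw [hs]
    exact hD n (sq n)
  refine ⟨fun n => (sq n).1.1, fun n => (sq n).1.2.1, fun n => (sq n).1.2.2.1,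
    fun n => (sq n).1.2.2.2, fun n => D n (sq n), fun n => (sq n).2, fun p => ⟨rfl, rfl, rfl, rfl⟩,
    fun n => ⟨ep T n, ep_pos hT n, ?_, ep_le2 n, hstep n⟩, ?_⟩
  · have h1 := ep_le1 (T := T) n
    have h2 : 0 < T * (7 / 8) ^ n := by positivity
    linarith
  · intro n
    induction n with
    | zero =>
      have h := bad_zero T
      have e : T * (7 / 8 : ℝ) ^ 0 = T := by rw [pow_zero, mul_one]
      rw [e]
      exact h
    | succ n ih =>
      refine (hstep n).better.trans ?_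
      have h1 := ep_le1 (T := T) n
      have h2 : 0 < T * (7 / 8) ^ n := by positivity
      calc ENNReal.ofReal (3 / 4) * bad T (sq n).1.2.1 (sq n).1.2.2.2 + ENNReal.ofReal (ep T n)
          ≤ ENNReal.ofReal (3 / 4) * ENNReal.ofReal (T * (7 / 8) ^ n) +
            ENNReal.ofReal (T * (7 / 8) ^ n / 8) := by
            gcongr
        _ = ENNReal.ofReal (3 / 4 * (T * (7 / 8) ^ n) + T * (7 / 8) ^ n / 8) := by
            rw [← ENNReal.ofReal_mul (by norm_num), ← ENNReal.ofReal_add (by positivity)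
              (by positivity)]
        _ = ENNReal.ofReal (T * (7 / 8) ^ (n + 1)) := by
            congr 1
            rw [pow_succ]
            ring

end Pool.Agent.Q64.BP
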