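import Pool.Agent.Q64.BP.Stm

/-! Project BP, job SOL (helper142 for helper64). -/

set_option autoImplicit false

open MeasureTheory Filter Topology Set
open scoped ENNReal NNReal ContDiff

namespace Pool.Agent.Q64.BP.SOL

open Pool.Agent.Q64.BP

theorem mem_Q {T : ℝ} (p : ℝ × ℝ) : p ∈ Q T ↔ (0 < p.1 ∧ p.1 < T) ∧ 0 < p.2 ∧ p.2 < 1 := Iff.rfl

theorem meas_Q (T : ℝ) : MeasurableSet (Q T) := measurableSet_Ioo.prod measurableSet_Ioo

theorem vol_Q (T : ℝ) : volume (Q T) = ENNReal.ofReal T := by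
  unfold Q Bx
  rw [Measure.volume_eq_prod, Measure.prod_prod, Real.volume_Ioo, Real.volume_Ioo, sub_zero, sub_zero,
    ENNReal.ofReal_one, mul_one]

/-- a compact set containing `Q T` -/
def KK (T : ℝ) : Set (ℝ × ℝ) := Icc 0 T ×ˢ Icc 0 1

theorem comp_KK (T : ℝ) : IsCompact (KK T) := isCompact_Icc.prod isCompact_Icc

theorem sub_KK (T : ℝ) : Q T ⊆ KK T := fun _ hp =>
  ⟨⟨hp.1.1.le, hp.1.2.le⟩, ⟨hp.2.1.le, hp.2.2.le⟩⟩

theorem comp_supp {T : ℝ} {f : ℝ × ℝ → ℝ} (h : ∀ p, p ∉ Q T → f p = 0) : HasCompactSupport f :=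
  HasCompactSupport.intro (comp_KK T) fun p hp => h p fun h1 => hp (sub_KK T h1)

theorem int_cont {T : ℝ} {f : ℝ × ℝ → ℝ} (hf : Continuous f) (h : ∀ p, p ∉ Q T → f p = 0) :
    Integrable f := hf.integrable_of_hasCompactSupport (comp_supp h)

theorem int_slice {a b : ℝ} {f : ℝ → ℝ} (hf : Continuous f) (h : ∀ x, x ∉ Ioo a b → f x = 0) :
    Integrable f := by
  refine hf.integrable_of_hasCompactSupport (HasCompactSupport.intro (isCompact_Icc (a := a) (b := b))
    fun x hx => h x fun h1 => hx ⟨h1.1.le, h1.2.le⟩)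

/-- integration by parts in `x` -/
theorem ibp_x {T : ℝ} {w wx φ φx : ℝ × ℝ → ℝ} (cw : Continuous w) (cx : Continuous wx)
    (hw : ∀ p, p ∉ Q T → w p = 0) (hx : ∀ p, p ∉ Q T → wx p = 0)
    (hd : ∀ t x, HasDerivAt (fun y => w (t, y)) (wx (t, x)) x) (cφ : Continuous φ)
    (cφx : Continuous φx) (hφ : ∀ t x, HasDerivAt (fun y => φ (t, y)) (φx (t, x)) x) :
    ∫ p, w p * φx p = -∫ p, wx p * φ p := by
  have i1 : Integrable fun p => w p * φx p :=
    int_cont (T := T) (cw.mul cφx) fun p hp => by rw [hw p hp, zero_mul]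
  have i2 : Integrable fun p => wx p * φ p :=
    int_cont (T := T) (cx.mul cφ) fun p hp => by rw [hx p hp, zero_mul]
  have i3 : Integrable fun p => wx p * φ p + w p * φx p := i2.add i1
  have h0 : ∫ p, (wx p * φ p + w p * φx p) = 0 := by
    rw [Measure.volume_eq_prod] at i3 ⊢
    rw [integral_prod _ i3]
    have : ∀ t : ℝ, ∫ x : ℝ, (wx (t, x) * φ (t, x) + w (t, x) * φx (t, x)) = 0 := by
      intro t
      have c1 : Continuous fun x : ℝ => (t, x) := by fun_prop
      refine integral_eq_zero_of_hasDerivAt_of_integrable (f := fun x => w (t, x) * φ (t, x))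
        (fun x => (hd t x).mul (hφ t x)) ?_ ?_
      · refine int_slice (a := 0) (b := 1)
          (((cx.comp c1).mul (cφ.comp c1)).add ((cw.comp c1).mul (cφx.comp c1))) fun x hx' => ?_
        have hn : (t, x) ∉ Q T := fun h => hx' h.2
        rw [hw _ hn, hx _ hn]; ring
      · refine int_slice (a := 0) (b := 1) ((cw.comp c1).mul (cφ.comp c1)) fun x hx' => ?_
        have hn : (t, x) ∉ Q T := fun h => hx' h.2
        show w (t, x) * φ (t, x) = 0
        rw [hw _ hn]; ring
    simp only [this, integral_zero]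
  rw [integral_add i2 i1] at h0
  linarith

/-- integration by parts in `t` -/
theorem ibp_t {T : ℝ} {w wt φ φt : ℝ × ℝ → ℝ} (cw : Continuous w) (ct : Continuous wt)
    (hw : ∀ p, p ∉ Q T → w p = 0) (ht : ∀ p, p ∉ Q T → wt p = 0)
    (hd : ∀ t x, HasDerivAt (fun s => w (s, x)) (wt (t, x)) t) (cφ : Continuous φ)
    (cφt : Continuous φt) (hφ : ∀ t x, HasDerivAt (fun s => φ (s, x)) (φt (t, x)) t) :
    ∫ p, w p * φt p = -∫ p, wt p * φ p := by
  have i1 : Integrable fun p => w p * φt p :=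
    int_cont (T := T) (cw.mul cφt) fun p hp => by rw [hw p hp, zero_mul]
  have i2 : Integrable fun p => wt p * φ p :=
    int_cont (T := T) (ct.mul cφ) fun p hp => by rw [ht p hp, zero_mul]
  have i3 : Integrable fun p => wt p * φ p + w p * φt p := i2.add i1
  have h0 : ∫ p, (wt p * φ p + w p * φt p) = 0 := by
    rw [Measure.volume_eq_prod] at i3 ⊢
    rw [integral_prod_symm _ i3]
    have : ∀ x : ℝ, ∫ t : ℝ, (wt (t, x) * φ (t, x) + w (t, x) * φt (t, x)) = 0 := by
      intro x
      have c1 : Continuous fun t : ℝ => (t, x) := by fun_prop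
      refine integral_eq_zero_of_hasDerivAt_of_integrable (f := fun t => w (t, x) * φ (t, x))
        (fun t => (hd t x).mul (hφ t x)) ?_ ?_
      · refine int_slice (a := 0) (b := T)
          (((ct.comp c1).mul (cφ.comp c1)).add ((cw.comp c1).mul (cφt.comp c1))) fun t hx' => ?_
        have hn : (t, x) ∉ Q T := fun h => hx' h.1
        rw [hw _ hn, ht _ hn]; ring
      · refine int_slice (a := 0) (b := T) ((cw.comp c1).mul (cφ.comp c1)) fun t hx' => ?_
        have hn : (t, x) ∉ Q T := fun h => hx' h.1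
        show w (t, x) * φ (t, x) = 0
        rw [hw _ hn]; ring
    simp only [this, integral_zero]
  rw [integral_add i2 i1] at h0
  linarith

/-- convergence in `L¹` from summable increments and eventual equality -/
theorem tail_lim {a : ℕ → ℝ × ℝ → ℝ} {G : ℝ × ℝ → ℝ} (ha : ∀ n, Measurable (a n)) {C r : ℝ}
    (hr0 : 0 ≤ r) (hr1 : r < 1)
    (h : ∀ n, ∫⁻ p, ENNReal.ofReal |a (n + 1) p - a n p| ≤ ENNReal.ofReal (C * r ^ n))
    (hae : ∀ᵐ p : ℝ × ℝ, ∃ N, ∀ n, N ≤ n → a n p = G p) :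
    Tendsto (fun n => ∫⁻ p, ENNReal.ofReal |a n p - G p|) atTop (𝓝 0) := by
  have hb : ∀ n, ∫⁻ p, ENNReal.ofReal |a n p - G p| ≤ ENNReal.ofReal (|C| * r ^ n * (1 - r)⁻¹) := by
    intro n
    have h1 : ∫⁻ p, ENNReal.ofReal |a n p - G p| ≤
        ∫⁻ p, ∑' m, ENNReal.ofReal |a (n + m + 1) p - a (n + m) p| := by
      refine lintegral_mono_ae ?_
      filter_upwards [hae] with p hp
      obtain ⟨N, hN⟩ := hp
      obtain ⟨K, hK⟩ : ∃ K : ℕ, N ≤ n + K := ⟨N, by omega⟩
      have h2 : G p - a n p = ∑ m ∈ Finset.range K, (a (n + m + 1) p - a (n + m) p) := by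
        have := Finset.sum_range_sub (fun m => a (n + m) p) K
        rw [show (∑ m ∈ Finset.range K, (a (n + m + 1) p - a (n + m) p)) =
          ∑ m ∈ Finset.range K, (a (n + (m + 1)) p - a (n + m) p) from rfl, this, hN _ hK]
        rfl
      have h3 : |a n p - G p| ≤ ∑ m ∈ Finset.range K, |a (n + m + 1) p - a (n + m) p| := by
        rw [abs_sub_comm, h2]
        exact Finset.abs_sum_le_sum_abs _ _
      calc ENNReal.ofReal |a n p - G p|
          ≤ ENNReal.ofReal (∑ m ∈ Finset.range K, |a (n + m + 1) p - a (n + m) p|) :=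
            ENNReal.ofReal_le_ofReal h3
        _ = ∑ m ∈ Finset.range K, ENNReal.ofReal |a (n + m + 1) p - a (n + m) p| :=
            ENNReal.ofReal_sum_of_nonneg fun m _ => abs_nonneg _
        _ ≤ ∑' m, ENNReal.ofReal |a (n + m + 1) p - a (n + m) p| := ENNReal.sum_le_tsum _
    refine h1.trans ?_
    have hm : ∀ m : ℕ, Measurable fun p => ENNReal.ofReal |a (n + m + 1) p - a (n + m) p| :=
      fun m => ((ha (n + m + 1)).sub (ha (n + m))).abs.ennreal_ofReal
    rw [lintegral_tsum fun m => (hm m).aemeasurable]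
    have hs : Summable fun m : ℕ => |C| * r ^ n * r ^ m :=
      (summable_geometric_of_lt_one hr0 hr1).mul_left _
    have h4 : ENNReal.ofReal (|C| * r ^ n * (1 - r)⁻¹) =
        ∑' m : ℕ, ENNReal.ofReal (|C| * r ^ n * r ^ m) := by
      rw [← ENNReal.ofReal_tsum_of_nonneg (fun m => by positivity) hs, tsum_mul_left,
        tsum_geometric_of_lt_one hr0 hr1]
    rw [h4]
    refine ENNReal.tsum_le_tsum fun m => (h (n + m)).trans (ENNReal.ofReal_le_ofReal ?_)
    rw [pow_add, mul_assoc]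
    exact mul_le_mul_of_nonneg_right (le_abs_self C) (by positivity)
  have hz : Tendsto (fun n : ℕ => ENNReal.ofReal (|C| * r ^ n * (1 - r)⁻¹)) atTop (𝓝 0) := by
    have h1 : Tendsto (fun n : ℕ => |C| * r ^ n * (1 - r)⁻¹) atTop (𝓝 (|C| * 0 * (1 - r)⁻¹)) :=
      ((tendsto_pow_atTop_nhds_zero_of_lt_one hr0 hr1).const_mul _).mul_const _
    rw [mul_zero, zero_mul] at h1
    have h2 := (ENNReal.continuous_ofReal.tendsto 0).comp h1
    rw [ENNReal.ofReal_zero] at h2
    exact h2
  exact tendsto_of_tendsto_of_tendsto_of_le_of_le tendsto_const_nhds hz (fun _ => zero_le) hb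

/-- passage to the limit under the integral -/
theorem lim_int {T : ℝ} {a : ℕ → ℝ × ℝ → ℝ} {G φ : ℝ × ℝ → ℝ} (ca : ∀ n, Continuous (a n))
    (ha : ∀ n p, p ∉ Q T → a n p = 0) (mG : Measurable G) (hG : ∀ p, p ∉ Q T → G p = 0)
    (h : Tendsto (fun n => ∫⁻ p, ENNReal.ofReal |a n p - G p|) atTop (𝓝 0)) (cφ : Continuous φ) :
    Tendsto (fun n => ∫ p, a n p * φ p) atTop (𝓝 (∫ p, G p * φ p)) := by
  obtain ⟨M, hM⟩ := (comp_KK T).exists_bound_of_continuousOn cφ.continuousOn
  refine tendsto_integral_of_L1 (fun p => G p * φ p)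
    (mG.mul cφ.measurable).aestronglyMeasurable (Filter.Eventually.of_forall fun n =>
      int_cont (T := T) ((ca n).mul cφ) fun p hp => by rw [ha n p hp, zero_mul]) ?_
  have hz : Tendsto (fun n => ENNReal.ofReal |M| * ∫⁻ p, ENNReal.ofReal |a n p - G p|) atTop (𝓝 0) := by
    have := ENNReal.Tendsto.const_mul (a := ENNReal.ofReal |M|) h
      (Or.inr ENNReal.ofReal_ne_top)
    rwa [mul_zero] at this
  refine tendsto_of_tendsto_of_tendsto_of_le_of_le tendsto_const_nhds hz (fun _ => zero_le)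
    fun n => ?_
  show ∫⁻ p, ‖a n p * φ p - G p * φ p‖ₑ ≤ ENNReal.ofReal |M| * ∫⁻ p, ENNReal.ofReal |a n p - G p|
  have hm : Measurable fun p => ENNReal.ofReal |a n p - G p| :=
    ((ca n).measurable.sub mG).abs.ennreal_ofReal
  rw [← lintegral_const_mul _ hm]
  refine lintegral_mono fun p => ?_
  by_cases hp : p ∈ Q T
  · rw [← sub_mul, enorm_mul, Real.enorm_eq_ofReal_abs, Real.enorm_eq_ofReal_abs, mul_comm]
    refine mul_le_mul_left (ENNReal.ofReal_le_ofReal ?_) _
    exact (hM p (sub_KK T hp)).trans (le_abs_self M)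
  · rw [ha n p hp, hG p hp]
    simp

/-- uniform convergence gives convergence in `L¹` -/
theorem unif_L1 {T : ℝ} {a : ℕ → ℝ × ℝ → ℝ} {G : ℝ × ℝ → ℝ}
    (ha : ∀ n p, p ∉ Q T → a n p = 0) (hG : ∀ p, p ∉ Q T → G p = 0)
    (hu : TendstoUniformly a G atTop) :
    Tendsto (fun n => ∫⁻ p, ENNReal.ofReal |a n p - G p|) atTop (𝓝 0) := by
  rw [ENNReal.tendsto_atTop_zero]
  intro ε hε
  obtain ⟨δ, hδ, hδε⟩ : ∃ δ : ℝ, 0 < δ ∧ ENNReal.ofReal δ * ENNReal.ofReal T ≤ ε := by
    rcases eq_or_ne ε ⊤ with rfl | hne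
    · exact ⟨1, one_pos, le_top⟩
    · have he : 0 < ε.toReal := ENNReal.toReal_pos hε.ne' hne
      refine ⟨ε.toReal / (1 + |T|), by positivity, ?_⟩
      rw [← ENNReal.ofReal_mul (by positivity)]
      refine (ENNReal.ofReal_le_ofReal ?_).trans (ENNReal.ofReal_toReal_le)
      rw [div_mul_eq_mul_div, div_le_iff₀ (by positivity)]
      have h1 : T ≤ 1 + |T| := by have := le_abs_self T; linarith
      exact mul_le_mul_of_nonneg_left h1 he.le
  have h1 := Metric.tendstoUniformly_iff.1 hu δ hδ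
  obtain ⟨N, hN⟩ := Filter.eventually_atTop.1 h1
  refine ⟨N, fun n hn => ?_⟩
  have h2 : ∫⁻ p, ENNReal.ofReal |a n p - G p| ≤ ∫⁻ p, (Q T).indicator (fun _ => ENNReal.ofReal δ) p := by
    refine lintegral_mono fun p => ?_
    by_cases hp : p ∈ Q T
    · rw [indicator_of_mem hp]
      refine ENNReal.ofReal_le_ofReal ?_
      have := hN n hn p
      rw [dist_comm, Real.dist_eq] at this
      exact this.le
    · rw [indicator_of_notMem hp, ha n p hp, hG p hp]
      simp
  refine h2.trans ?_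
  rw [lintegral_indicator (meas_Q T), lintegral_const, Measure.restrict_apply_univ, vol_Q]
  exact hδε

end Pool.Agent.Q64.BP.SOL

namespace Pool.Agent.Q64.BP

open SOL in
theorem t_SOL (seq : S_SEQ) (l1 : S_L1) (l2 : S_L2) (l3 : S_L3) (l4 : S_L4) : S_SOL := by
  intro T hT
  obtain ⟨u, ut, ux, uxx, D, hst, hz, hstep, hbd⟩ := seq T hT
  have hsq : Sq T u ut ux uxx D := ⟨hst, hz, hstep, hbd⟩
  obtain ⟨U, Ux, cU, cUx, hdx, huU, huUx⟩ := l1 T u ut ux uxx D hT hsq
  obtain ⟨G, F, mG, mF, hoff, hae, hgood⟩ := l2 T u ut ux uxx D hT hsq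
  obtain ⟨C, hC⟩ := l3 T u ut ux uxx D hT hsq
  have hfin := l4 T u ut ux uxx D hT hsq G F mG mF hae hgood
  have offU : ∀ p, p ∉ Q T → U p = 0 := by
    intro p hp
    have h1 := huU.tendsto_at p
    have h2 : (fun n => u n p) = fun _ => (0 : ℝ) := by
      funext n
      exact ((hst n).off p hp).1
    rw [h2] at h1
    exact tendsto_nhds_unique h1 tendsto_const_nhds
  have offUx : ∀ p, p ∉ Q T → Ux p = 0 := by
    intro p hp
    have h1 := huUx.tendsto_at p
    have h2 : (fun n => ux n p) = fun _ => (0 : ℝ) := by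
      funext n
      exact ((hst n).off p hp).2.2.1
    rw [h2] at h1
    exact tendsto_nhds_unique h1 tendsto_const_nhds
  -- L1 convergence of the four sequences
  have cv_u := unif_L1 (T := T) (fun n p hp => ((hst n).off p hp).1) offU huU
  have cv_ux := unif_L1 (T := T) (fun n p hp => ((hst n).off p hp).2.2.1) offUx huUx
  have cv_ut : Tendsto (fun n => ∫⁻ p, ENNReal.ofReal |ut n p - G p|) atTop (𝓝 0) := by
    refine tail_lim (fun n => (hst n).ct.measurable) (r := 7 / 8) (by norm_num) (by norm_num)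
      (fun n => (hC n).1) ?_
    filter_upwards [hae] with p hp
    obtain ⟨N, hN⟩ := hp
    exact ⟨N, fun n hn => (hN n hn).2.1⟩
  have cv_uxx : Tendsto (fun n => ∫⁻ p, ENNReal.ofReal |uxx n p - F p|) atTop (𝓝 0) := by
    refine tail_lim (C := T + |C|) (fun n => (hst n).cxx.measurable) (r := 15 / 16) (by norm_num)
      (by norm_num) (fun n => ?_) ?_
    · obtain ⟨δ, hδe⟩ : ∃ δ : ℝ, δ = (15 / 16 : ℝ) ^ n := ⟨_, rfl⟩
      have hδ : 0 < δ := by rw [hδe]; positivity
      have hpt : ∀ p, ENNReal.ofReal |uxx (n + 1) p - uxx n p| ≤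
          (Q T).indicator (fun _ => ENNReal.ofReal δ) p +
            ENNReal.ofReal δ⁻¹ * ENNReal.ofReal (|uxx (n + 1) p - uxx n p| ^ 2) := by
        intro p
        by_cases hp : p ∈ Q T
        · rw [indicator_of_mem hp, ← ENNReal.ofReal_mul (by positivity),
            ← ENNReal.ofReal_add hδ.le (by positivity)]
          refine ENNReal.ofReal_le_ofReal ?_
          obtain ⟨x, hx⟩ : ∃ x : ℝ, x = |uxx (n + 1) p - uxx n p| := ⟨_, rfl⟩
          have hx0 : 0 ≤ x := by rw [hx]; exact abs_nonneg _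
          rw [← hx]
          have h1 : x * δ ≤ (δ + δ⁻¹ * x ^ 2) * δ := by
            have h2 : (δ + δ⁻¹ * x ^ 2) * δ = δ ^ 2 + x ^ 2 := by field_simp
            rw [h2]
            nlinarith [sq_nonneg (x - δ)]
          exact le_of_mul_le_mul_right h1 hδ
        · rw [((hst n).off p hp).2.2.2, ((hst (n + 1)).off p hp).2.2.2]
          simp
      have hm : Measurable fun p => ENNReal.ofReal (|uxx (n + 1) p - uxx n p| ^ 2) :=
        (((hst (n + 1)).cxx.measurable.sub (hst n).cxx.measurable).abs.pow_const 2).ennreal_ofReal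
      refine (lintegral_mono hpt).trans ?_
      rw [lintegral_add_left ((measurable_const).indicator (meas_Q T)),
        lintegral_indicator (meas_Q T), lintegral_const, Measure.restrict_apply_univ, vol_Q,
        lintegral_const_mul _ hm]
      have h3 : ENNReal.ofReal δ⁻¹ * ∫⁻ p, ENNReal.ofReal (|uxx (n + 1) p - uxx n p| ^ 2) ≤
          ENNReal.ofReal (|C| * δ) := by
        calc ENNReal.ofReal δ⁻¹ * ∫⁻ p, ENNReal.ofReal (|uxx (n + 1) p - uxx n p| ^ 2)
            ≤ ENNReal.ofReal δ⁻¹ * ENNReal.ofReal (C * (7 / 8) ^ n) :=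
              mul_le_mul_right (hC n).2 _
          _ = ENNReal.ofReal (δ⁻¹ * (C * (7 / 8) ^ n)) :=
              (ENNReal.ofReal_mul (p := δ⁻¹) (q := C * (7 / 8) ^ n) (by positivity)).symm
          _ ≤ ENNReal.ofReal (|C| * δ) := by
              refine ENNReal.ofReal_le_ofReal ?_
              have h4 : (7 / 8 : ℝ) ^ n ≤ δ ^ 2 := by
                rw [hδe, ← pow_mul, mul_comm, pow_mul]
                exact pow_le_pow_left₀ (by norm_num) (by norm_num) n
              have h5 : C * (7 / 8 : ℝ) ^ n ≤ |C| * δ ^ 2 :=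
                (mul_le_mul_of_nonneg_right (le_abs_self C) (by positivity)).trans
                  (mul_le_mul_of_nonneg_left h4 (abs_nonneg C))
              calc δ⁻¹ * (C * (7 / 8) ^ n) ≤ δ⁻¹ * (|C| * δ ^ 2) :=
                    mul_le_mul_of_nonneg_left h5 (by positivity)
                _ = |C| * δ := by field_simp
      refine (add_le_add le_rfl h3).trans ?_
      rw [← ENNReal.ofReal_mul hδ.le, ← ENNReal.ofReal_add (by positivity) (by positivity), ← hδe]
      exact ENNReal.ofReal_le_ofReal (by linarith [mul_comm δ T])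
    · filter_upwards [hae] with p hp
      obtain ⟨N, hN⟩ := hp
      exact ⟨N, fun n hn => (hN n hn).2.2⟩
  refine ⟨U, Ux, G, F, ⟨cU, cUx, mG, mF, fun p hp => ⟨offU p hp, offUx p hp, hoff p hp⟩, hdx,
    ?_, ?_, ?_, hgood, hfin⟩⟩
  · intro φ φt cφ cφt hφ
    have e1 := lim_int (T := T) (fun n => (hst n).cw) (fun n p hp => ((hst n).off p hp).1)
      cU.measurable offU cv_u cφt
    have e2 := lim_int (T := T) (fun n => (hst n).ct) (fun n p hp => ((hst n).off p hp).2.1)
      mG (fun p hp => (hoff p hp).1) cv_ut cφ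
    have e3 : (fun n => ∫ p, u n p * φt p) = fun n => -∫ p, ut n p * φ p := by
      funext n
      exact ibp_t (T := T) (hst n).cw (hst n).ct (fun p hp => ((hst n).off p hp).1)
        (fun p hp => ((hst n).off p hp).2.1) (hst n).dt cφ cφt hφ
    rw [e3] at e1
    exact tendsto_nhds_unique e1 e2.neg
  · intro φ φx cφ cφx hφ
    exact ibp_x (T := T) cU cUx offU offUx hdx cφ cφx hφ
  · intro φ φx cφ cφx hφ
    have e1 := lim_int (T := T) (fun n => (hst n).cx) (fun n p hp => ((hst n).off p hp).2.2.1)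
      cUx.measurable offUx cv_ux cφx
    have e2 := lim_int (T := T) (fun n => (hst n).cxx) (fun n p hp => ((hst n).off p hp).2.2.2)
      mF (fun p hp => (hoff p hp).2) cv_uxx cφ
    have e3 : (fun n => ∫ p, ux n p * φx p) = fun n => -∫ p, uxx n p * φ p := by
      funext n
      exact ibp_x (T := T) (hst n).cx (hst n).cxx (fun p hp => ((hst n).off p hp).2.2.1)
        (fun p hp => ((hst n).off p hp).2.2.2) (hst n).dxx cφ cφx hφ
    rw [e3] at e1
    exact tendsto_nhds_unique e1 e2.neg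

end Pool.Agent.Q64.BP
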