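import Pool.Agent.Q64.BP.Stm

/-!
# Project BP (helper64), job SP: `Env` is convex along both axes (helper208)
-/

open MeasureTheory Filter Topology Set
open scoped ENNReal NNReal ContDiff

namespace Pool.Agent.Q64.BP

theorem t_SP (bx : S_BX) (bt : S_BT) (glue : S_GLUE) : S_SP := by
  intro J hJ g f lam c d v1 v2 h0 h1
  refine ⟨?_, ?_⟩
  · intro h hc hd
    have hb : Block 0 (c - f) 0 (d - f) lam := bx lam (c - f) (d - f) h0 h1 (by linarith)
    refine glue J g f 0 (c - f) 0 (d - f) lam v1 v2 hJ h0 h1 hb ?_ ?_
    · rw [add_zero, show f + (c - f) = c by ring]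
      exact hc
    · rw [add_zero, show f + (d - f) = d by ring]
      exact hd
  · intro h hc hd
    have hb : Block (c - g) 0 (d - g) 0 lam := bt lam (c - g) (d - g) h0 h1 (by linarith)
    refine glue J g f (c - g) 0 (d - g) 0 lam v1 v2 hJ h0 h1 hb ?_ ?_
    · rw [add_zero, show g + (c - g) = c by ring]
      exact hc
    · rw [add_zero, show g + (d - g) = d by ring]
      exact hd

end Pool.Agent.Q64.BP
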