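import Pool.Agent.Q64.BP.Stm

/-!
# Project BP, lemma STEP: one improvement step
-/

set_option autoImplicit false

open MeasureTheory Filter Topology Set
open scoped ENNReal NNReal ContDiff

namespace Pool.Agent.Q64.BP

namespace STEP

lemma measurableSet_Bx (t0 t1 x0 x1 : ℝ) : MeasurableSet (Bx t0 t1 x0 x1) :=
  measurableSet_Ioo.prod measurableSet_Ioo

/-- closed box -/
def Cx (t0 t1 x0 x1 : ℝ) : Set (ℝ × ℝ) := Icc t0 t1 ×ˢ Icc x0 x1

lemma Bx_sub_Cx {t0 t1 x0 x1 : ℝ} {p : ℝ × ℝ} (h : p ∈ Bx t0 t1 x0 x1) : p ∈ Cx t0 t1 x0 x1 :=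
  ⟨Ioo_subset_Icc_self h.1, Ioo_subset_Icc_self h.2⟩

lemma ae_mem (t0 t1 x0 x1 : ℝ) :
    ∀ᵐ p : ℝ × ℝ, p ∈ Cx t0 t1 x0 x1 → p ∈ Bx t0 t1 x0 x1 := by
  have h : (Bx t0 t1 x0 x1 : Set (ℝ × ℝ)) =ᵐ[volume] Cx t0 t1 x0 x1 := by
    rw [Measure.volume_eq_prod]
    exact Measure.set_prod_ae_eq Ioo_ae_eq_Icc Ioo_ae_eq_Icc
  filter_upwards [h.mem_iff] with p hp hc
  exact hp.2 hc

lemma master {n : ℕ} (s0 s1 y0 y1 : Fin n → ℝ) (S : Set (ℝ × ℝ)) (hS : MeasurableSet S)
    (H : ℝ × ℝ → ℝ≥0∞) (K : Fin n → ℝ × ℝ → ℝ≥0∞) (hK : ∀ i, Measurable (K i))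
    (hD : S ⊆ ⋃ i, Cx (s0 i) (s1 i) (y0 i) (y1 i))
    (hHK : ∀ i, ∀ p ∈ Bx (s0 i) (s1 i) (y0 i) (y1 i), p ∈ S → H p ≤ K i p) :
    ∫⁻ p in S, H p ≤ ∑ i, ∫⁻ p in Bx (s0 i) (s1 i) (y0 i) (y1 i), K i p := by
  have hae : ∀ᵐ p : ℝ × ℝ, ∀ i, p ∈ Cx (s0 i) (s1 i) (y0 i) (y1 i) →
      p ∈ Bx (s0 i) (s1 i) (y0 i) (y1 i) :=
    ae_all_iff.2 fun i => ae_mem _ _ _ _
  calc ∫⁻ p in S, H p = ∫⁻ p, S.indicator H p := (lintegral_indicator hS _).symm
    _ ≤ ∫⁻ p, ∑ i, (Bx (s0 i) (s1 i) (y0 i) (y1 i)).indicator (K i) p := by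
        refine lintegral_mono_ae ?_
        filter_upwards [hae] with p hp
        by_cases hpS : p ∈ S
        · rw [indicator_of_mem hpS]
          obtain ⟨i, hi⟩ := mem_iUnion.1 (hD hpS)
          have hb := hp i hi
          have h1 : (Bx (s0 i) (s1 i) (y0 i) (y1 i)).indicator (K i) p ≤
              ∑ i, (Bx (s0 i) (s1 i) (y0 i) (y1 i)).indicator (K i) p :=
            Finset.single_le_sum
              (f := fun i => (Bx (s0 i) (s1 i) (y0 i) (y1 i)).indicator (K i) p)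
              (fun _ _ => bot_le) (Finset.mem_univ i)
          rw [indicator_of_mem hb] at h1
          exact (hHK i p hb hpS).trans h1
        · rw [indicator_of_notMem hpS]
          exact bot_le
    _ = ∑ i, ∫⁻ p, (Bx (s0 i) (s1 i) (y0 i) (y1 i)).indicator (K i) p :=
        lintegral_finsetSum _ (fun i _ => (hK i).indicator (measurableSet_Bx _ _ _ _))
    _ = _ := Finset.sum_congr rfl fun i _ => lintegral_indicator (measurableSet_Bx _ _ _ _) _

lemma isOpen_good {a b : ℝ × ℝ → ℝ} (ha : Continuous a) (hb : Continuous b) :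
    IsOpen {p | Good (a p) (b p)} := by
  have h1 : IsOpen {p | 1 / 2 < |b p|} := isOpen_lt continuous_const hb.abs
  have h2 : IsOpen {p | 0 < a p * b p} := isOpen_lt continuous_const (ha.mul hb)
  have h3 : IsOpen {p | |b p| < |a p|} := isOpen_lt hb.abs ha.abs
  have e : {p | Good (a p) (b p)} =
      {p | 1 / 2 < |b p|} ∩ ({p | 0 < a p * b p} ∩ {p | |b p| < |a p|}) := by
    ext p
    rfl
  rw [e]
  exact h1.inter (h2.inter h3)

lemma disj_of {n : ℕ} {s0 s1 y0 y1 : Fin n → ℝ}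
    (hdis : ∀ i j, i ≠ j → s1 i ≤ s0 j ∨ s1 j ≤ s0 i ∨ y1 i ≤ y0 j ∨ y1 j ≤ y0 i)
    {i j : Fin n} {p : ℝ × ℝ} (hi : p ∈ Bx (s0 i) (s1 i) (y0 i) (y1 i)) (hj : j ≠ i) :
    p ∉ Bx (s0 j) (s1 j) (y0 j) (y1 j) := by
  intro h
  have a1 := hi.1.1
  have a2 := hi.1.2
  have a3 := hi.2.1
  have a4 := hi.2.2
  have b1 := h.1.1
  have b2 := h.1.2
  have b3 := h.2.1
  have b4 := h.2.2
  rcases hdis j i hj with h' | h' | h' | h' <;> linarith

lemma reg_add {u ut ux uxx : ℝ × ℝ → ℝ} (hu : Reg u ut ux uxx) {n : ℕ}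
    {w wt wx wxx : Fin n → ℝ × ℝ → ℝ} (hw : ∀ i, Reg (w i) (wt i) (wx i) (wxx i)) :
    Reg (fun p => u p + ∑ i, w i p) (fun p => ut p + ∑ i, wt i p) (fun p => ux p + ∑ i, wx i p)
      (fun p => uxx p + ∑ i, wxx i p) where
  dt t x := (hu.dt t x).add (HasDerivAt.fun_sum fun i _ => (hw i).dt t x)
  dx t x := (hu.dx t x).add (HasDerivAt.fun_sum fun i _ => (hw i).dx t x)
  dxx t x := (hu.dxx t x).add (HasDerivAt.fun_sum fun i _ => (hw i).dxx t x)
  cw := hu.cw.add (continuous_finsetSum _ fun i _ => (hw i).cw)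
  ct := hu.ct.add (continuous_finsetSum _ fun i _ => (hw i).ct)
  cx := hu.cx.add (continuous_finsetSum _ fun i _ => (hw i).cx)
  cxx := hu.cxx.add (continuous_finsetSum _ fun i _ => (hw i).cxx)

lemma sum_est {n : ℕ} (P a : Fin n → ℝ) (δ η : ℝ) (hP : ∀ i, 0 ≤ P i) (ha : ∀ i, 0 ≤ a i)
    (hδ : 0 ≤ δ) (hη : 0 ≤ η) (hδη : δ * ∑ i, a i ≤ η) (B : ℝ≥0∞) (I : Fin n → ℝ≥0∞)
    (hI : ∀ i, I i ≤ (ENNReal.ofReal (1 / 2 * P i) + ENNReal.ofReal δ) * ENNReal.ofReal (a i))
    (hB : ENNReal.ofReal (∑ i, P i * a i) ≤ B + ENNReal.ofReal η) :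
    ∑ i, I i ≤ ENNReal.ofReal (1 / 2) * B + ENNReal.ofReal (2 * η) := by
  have h1 : ∀ i, I i ≤ ENNReal.ofReal ((1 / 2 * P i + δ) * a i) := by
    intro i
    refine (hI i).trans (le_of_eq ?_)
    rw [← ENNReal.ofReal_add (by have := hP i; positivity) hδ,
      ← ENNReal.ofReal_mul (by have := hP i; positivity)]
  calc ∑ i, I i ≤ ∑ i, ENNReal.ofReal ((1 / 2 * P i + δ) * a i) :=
        Finset.sum_le_sum fun i _ => h1 i
    _ = ENNReal.ofReal (∑ i, (1 / 2 * P i + δ) * a i) :=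
        (ENNReal.ofReal_sum_of_nonneg fun i _ => by
          have := hP i
          have := ha i
          positivity).symm
    _ = ENNReal.ofReal (1 / 2 * (∑ i, P i * a i) + δ * ∑ i, a i) := by
        congr 1
        rw [Finset.mul_sum, Finset.mul_sum, ← Finset.sum_add_distrib]
        exact Finset.sum_congr rfl fun i _ => by ring
    _ ≤ ENNReal.ofReal (1 / 2 * (∑ i, P i * a i) + η) :=
        ENNReal.ofReal_le_ofReal (by linarith)
    _ ≤ ENNReal.ofReal (1 / 2) * ENNReal.ofReal (∑ i, P i * a i) + ENNReal.ofReal η := by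
        rw [← ENNReal.ofReal_mul (by norm_num)]
        exact ENNReal.ofReal_add_le
    _ ≤ ENNReal.ofReal (1 / 2) * (B + ENNReal.ofReal η) + ENNReal.ofReal η := by
        gcongr
    _ ≤ ENNReal.ofReal (1 / 2) * B + ENNReal.ofReal (2 * η) := by
        rw [mul_add, add_assoc, ← ENNReal.ofReal_mul (by norm_num),
          ← ENNReal.ofReal_add (by positivity) hη]
        gcongr
        linarith

end STEP

open STEP

theorem t_STEP (key : S_KEY) (grid : S_GRID) (ptw : S_PTW) : S_STEP := by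
  intro T hT u ut ux uxx hu ε hε
  obtain ⟨n, s0, s1, y0, y1, g, f, hbox, hdis, hcov, hval, hndg, hsum, hmass⟩ :=
    grid T hT ut uxx hu.ct hu.cxx (ε / 800) (by positivity)
  have har : ∀ i, 0 ≤ (s1 i - s0 i) * (y1 i - y0 i) := fun i =>
    mul_nonneg (by linarith [(hbox i).1]) (by linarith [(hbox i).2.1])
  have hA0 : 0 ≤ ∑ i, (s1 i - s0 i) * (y1 i - y0 i) := Finset.sum_nonneg fun i _ => har i
  have hδ : 0 < ε / 800 / (1 + ∑ i, (s1 i - s0 i) * (y1 i - y0 i)) := by positivity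
  choose w wt wx wxx hP hI using fun i => key.2 (g i) (f i) (hndg i) (s0 i) (s1 i) (y0 i) (y1 i) ε
    (ε / 800 / (1 + ∑ i, (s1 i - s0 i) * (y1 i - y0 i))) (hbox i).1 (hbox i).2.1 hε hδ
  have hBQ : ∀ i, ∀ p ∈ Bx (s0 i) (s1 i) (y0 i) (y1 i), p ∈ Q T := by
    intro i p hp
    obtain ⟨-, -, h1, h2, h3, h4⟩ := hbox i
    exact ⟨⟨lt_of_le_of_lt h1 hp.1.1, lt_of_lt_of_le hp.1.2 h2⟩,
      ⟨lt_of_le_of_lt h3 hp.2.1, lt_of_lt_of_le hp.2.2 h4⟩⟩
  -- the sums
  have hz : ∀ p, (∀ i, p ∉ Bx (s0 i) (s1 i) (y0 i) (y1 i)) →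
      ∑ i, w i p = 0 ∧ ∑ i, wt i p = 0 ∧ ∑ i, wx i p = 0 ∧ ∑ i, wxx i p = 0 := by
    intro p hp
    exact ⟨Finset.sum_eq_zero fun i _ => ((hP i).off p (hp i)).1,
      Finset.sum_eq_zero fun i _ => ((hP i).off p (hp i)).2.1,
      Finset.sum_eq_zero fun i _ => ((hP i).off p (hp i)).2.2.1,
      Finset.sum_eq_zero fun i _ => ((hP i).off p (hp i)).2.2.2⟩
  have h1 : ∀ i, ∀ p ∈ Bx (s0 i) (s1 i) (y0 i) (y1 i),
      ∑ j, w j p = w i p ∧ ∑ j, wt j p = wt i p ∧ ∑ j, wx j p = wx i p ∧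
        ∑ j, wxx j p = wxx i p := by
    intro i p hp
    have hj : ∀ j, j ≠ i → p ∉ Bx (s0 j) (s1 j) (y0 j) (y1 j) := fun j hj => disj_of hdis hp hj
    exact ⟨Finset.sum_eq_single i (fun j _ h => ((hP j).off p (hj j h)).1)
        (fun h => absurd (Finset.mem_univ i) h),
      Finset.sum_eq_single i (fun j _ h => ((hP j).off p (hj j h)).2.1)
        (fun h => absurd (Finset.mem_univ i) h),
      Finset.sum_eq_single i (fun j _ h => ((hP j).off p (hj j h)).2.2.1)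
        (fun h => absurd (Finset.mem_univ i) h),
      Finset.sum_eq_single i (fun j _ h => ((hP j).off p (hj j h)).2.2.2)
        (fun h => absurd (Finset.mem_univ i) h)⟩
  have hreg : Reg (fun p => u p + ∑ i, w i p) (fun p => ut p + ∑ i, wt i p)
      (fun p => ux p + ∑ i, wx i p) (fun p => uxx p + ∑ i, wxx i p) :=
    reg_add hu.toReg fun i => (hP i).toReg
  set D : Set (ℝ × ℝ) := ⋃ i, Icc (s0 i) (s1 i) ×ˢ Icc (y0 i) (y1 i) with hDdef
  have hBD : ∀ i, ∀ p ∈ Bx (s0 i) (s1 i) (y0 i) (y1 i), p ∈ D := by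
    intro i p hp
    exact mem_iUnion.2 ⟨i, Bx_sub_Cx hp⟩
  have hsame : ∀ p, p ∉ D → ∀ i, p ∉ Bx (s0 i) (s1 i) (y0 i) (y1 i) := by
    intro p hp i hi
    exact hp (hBD i p hi)
  have hDm : MeasurableSet D :=
    MeasurableSet.iUnion fun i => measurableSet_Icc.prod measurableSet_Icc
  have hQm : MeasurableSet (Q T) := measurableSet_Bx _ _ _ _
  have hGm : MeasurableSet {p | Good (ut p + ∑ i, wt i p) (uxx p + ∑ i, wxx i p)} :=
    (isOpen_good hreg.ct hreg.cxx).measurableSet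
  have hKm : ∀ i, Measurable fun p => J0 (g i + wt i p, f i + wxx i p) := by
    intro i
    refine key.1.1.comp ?_
    exact ((continuous_const.add (hP i).ct).prodMk (continuous_const.add (hP i).cxx)).measurable
  -- the main estimate
  have hmain : ∑ i, ∫⁻ p in Bx (s0 i) (s1 i) (y0 i) (y1 i), J0 (g i + wt i p, f i + wxx i p) ≤
      ENNReal.ofReal (1 / 2) * bad T ut uxx + ENNReal.ofReal (2 * (ε / 800)) := by
    refine sum_est (fun i => Psi (g i) (f i)) (fun i => (s1 i - s0 i) * (y1 i - y0 i)) _ (ε / 800)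
      (fun i => ?_) har hδ.le (by positivity) ?_ _ _ (fun i => hI i) hsum
    · rw [Psi]
      positivity
    · rw [div_mul_eq_mul_div, div_le_iff₀ (by positivity)]
      nlinarith
  have hclose : ∀ i, ∀ p ∈ Bx (s0 i) (s1 i) (y0 i) (y1 i),
      |(ut p + ∑ i, wt i p) - (g i + wt i p)| ≤ 1 / 8 ∧
      |(uxx p + ∑ i, wxx i p) - (f i + wxx i p)| ≤ 1 / 8 := by
    intro i p hp
    rw [(h1 i p hp).2.1, (h1 i p hp).2.2.2]
    have := hval i p (Bx_sub_Cx hp)
    constructor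
    · rw [show ut p + wt i p - (g i + wt i p) = ut p - g i by ring]
      exact this.1
    · rw [show uxx p + wxx i p - (f i + wxx i p) = uxx p - f i by ring]
      exact this.2
  refine ⟨fun p => u p + ∑ i, w i p, fun p => ut p + ∑ i, wt i p, fun p => ux p + ∑ i, wx i p,
    fun p => uxx p + ∑ i, wxx i p, D, ⟨hreg, ?_⟩, ?_⟩
  · intro p hp
    have h2 := hz p fun i hi => hp (hBQ i p hi)
    have h3 := hu.off p hp
    simp only [h2.1, h2.2.1, h2.2.2.1, h2.2.2.2, h3.1, h3.2.1, h3.2.2.1, h3.2.2.2, add_zero,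
      and_self]
  · refine ⟨hDm, ?_, ?_, ?_, ?_, ?_, ?_⟩
    · intro p hp
      have h2 := hz p (hsame p hp)
      simp only [h2.1, h2.2.1, h2.2.2.1, h2.2.2.2, add_zero, and_self]
    · intro p
      simp only [add_sub_cancel_left]
      by_cases hp : ∃ i, p ∈ Bx (s0 i) (s1 i) (y0 i) (y1 i)
      · obtain ⟨i, hi⟩ := hp
        rw [(h1 i p hi).1, (h1 i p hi).2.2.1]
        exact (hP i).small p
      · have h2 := hz p (not_exists.1 hp)
        rw [h2.1, h2.2.2.1, abs_zero]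
        exact ⟨hε.le, hε.le⟩
    · intro p hpQ hpG
      obtain ⟨i, hi⟩ := hcov p hpQ hpG
      exact mem_iUnion.2 ⟨i, hi⟩
    · refine hmass.trans ?_
      gcongr
      linarith
    · -- better
      have h2 : bad T (fun p => ut p + ∑ i, wt i p) (fun p => uxx p + ∑ i, wxx i p) ≤
          ∑ i, ∫⁻ p in Bx (s0 i) (s1 i) (y0 i) (y1 i),
            ENNReal.ofReal (3 / 2) * J0 (g i + wt i p, f i + wxx i p) := by
        refine master s0 s1 y0 y1 _ ?_ _ _ (fun i => (hKm i).const_mul _) ?_ ?_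
        · exact hQm.inter hGm.compl
        · intro p hp
          by_contra hpD
          have h3 := hz p (hsame p hpD)
          have h4 : ¬ Good (ut p + ∑ i, wt i p) (uxx p + ∑ i, wxx i p) := hp.2
          rw [h3.2.1, h3.2.2.2, add_zero, add_zero] at h4
          obtain ⟨i, hi⟩ := hcov p hp.1 h4
          exact hpD (mem_iUnion.2 ⟨i, hi⟩)
        · intro i p hp hpS
          obtain ⟨c1, c2⟩ := hclose i p hp
          obtain ⟨p1, p2, -⟩ := ptw _ _ _ _ c1 c2
          have h4 : ¬ Good (ut p + ∑ i, wt i p) (uxx p + ∑ i, wxx i p) := hpS.2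
          have h5 : ¬ DG (g i + wt i p) (f i + wxx i p) := fun h => h4 (p1 h).1
          rw [J0, if_neg h5, ← ENNReal.ofReal_mul (by norm_num)]
          exact ENNReal.ofReal_le_ofReal p2
      have h3 : ∑ i, ∫⁻ p in Bx (s0 i) (s1 i) (y0 i) (y1 i),
            ENNReal.ofReal (3 / 2) * J0 (g i + wt i p, f i + wxx i p) =
          ENNReal.ofReal (3 / 2) * ∑ i, ∫⁻ p in Bx (s0 i) (s1 i) (y0 i) (y1 i),
            J0 (g i + wt i p, f i + wxx i p) := by
        rw [Finset.mul_sum]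
        exact Finset.sum_congr rfl fun i _ => lintegral_const_mul _ (hKm i)
      rw [h3] at h2
      calc bad T (fun p => ut p + ∑ i, wt i p) (fun p => uxx p + ∑ i, wxx i p)
          ≤ ENNReal.ofReal (3 / 2) * (ENNReal.ofReal (1 / 2) * bad T ut uxx +
            ENNReal.ofReal (2 * (ε / 800))) := h2.trans (by gcongr)
        _ = ENNReal.ofReal (3 / 4) * bad T ut uxx + ENNReal.ofReal (3 / 2 * (2 * (ε / 800))) := by
            rw [mul_add, ← mul_assoc, ← ENNReal.ofReal_mul (by norm_num),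
              ← ENNReal.ofReal_mul (by norm_num)]
            norm_num
        _ ≤ _ := by
            gcongr
            linarith
    · -- theta
      have h2 : ∫⁻ p in D ∩ Q T ∩ {p | Good (ut p + ∑ i, wt i p) (uxx p + ∑ i, wxx i p)},
          ENNReal.ofReal (Th (ut p + ∑ i, wt i p) (uxx p + ∑ i, wxx i p)) ≤
          ∑ i, ∫⁻ p in Bx (s0 i) (s1 i) (y0 i) (y1 i),
            400 * J0 (g i + wt i p, f i + wxx i p) := by
        refine master s0 s1 y0 y1 _ ?_ _ _ (fun i => (hKm i).const_mul _) ?_ ?_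
        · exact (hDm.inter hQm).inter hGm
        · intro p hp
          exact hp.1.1
        · intro i p hp hpS
          obtain ⟨c1, c2⟩ := hclose i p hp
          obtain ⟨p1, -, p3⟩ := ptw _ _ _ _ c1 c2
          have h4 : Good (ut p + ∑ i, wt i p) (uxx p + ∑ i, wxx i p) := hpS.2
          have e400 : (400 : ℝ≥0∞) = ENNReal.ofReal 400 := by
            rw [show (400 : ℝ) = ((400 : ℕ) : ℝ) by norm_num, ENNReal.ofReal_natCast]
            norm_num
          rw [J0]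
          split_ifs with h5
          · simp only at h5
            rw [e400, ← ENNReal.ofReal_mul (by norm_num)]
            refine ENNReal.ofReal_le_ofReal ?_
            refine (p1 h5).2.trans (le_of_eq ?_)
            simp only
            ring
          · simp only at h5
            rw [e400, ← ENNReal.ofReal_mul (by norm_num)]
            exact ENNReal.ofReal_le_ofReal (p3 h4 h5)
      have h3 : ∑ i, ∫⁻ p in Bx (s0 i) (s1 i) (y0 i) (y1 i),
            400 * J0 (g i + wt i p, f i + wxx i p) =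
          400 * ∑ i, ∫⁻ p in Bx (s0 i) (s1 i) (y0 i) (y1 i),
            J0 (g i + wt i p, f i + wxx i p) := by
        rw [Finset.mul_sum]
        exact Finset.sum_congr rfl fun i _ => lintegral_const_mul _ (hKm i)
      rw [h3] at h2
      have e1 : (400 : ℝ≥0∞) * ENNReal.ofReal (1 / 2) = 200 := by
        rw [show (400 : ℝ≥0∞) = ENNReal.ofReal 400 by
            rw [show (400 : ℝ) = ((400 : ℕ) : ℝ) by norm_num, ENNReal.ofReal_natCast]
            norm_num,
          ← ENNReal.ofReal_mul (by norm_num),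
          show (400 * (1 / 2) : ℝ) = ((200 : ℕ) : ℝ) by norm_num, ENNReal.ofReal_natCast]
        norm_num
      have e2 : (400 : ℝ≥0∞) * ENNReal.ofReal (2 * (ε / 800)) = ENNReal.ofReal ε := by
        rw [show (400 : ℝ≥0∞) = ENNReal.ofReal 400 by
            rw [show (400 : ℝ) = ((400 : ℕ) : ℝ) by norm_num, ENNReal.ofReal_natCast]
            norm_num,
          ← ENNReal.ofReal_mul (by norm_num)]
        congr 1
        ring
      calc ∫⁻ p in D ∩ Q T ∩ {p | Good (ut p + ∑ i, wt i p) (uxx p + ∑ i, wxx i p)},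
          ENNReal.ofReal (Th (ut p + ∑ i, wt i p) (uxx p + ∑ i, wxx i p))
          ≤ 400 * (ENNReal.ofReal (1 / 2) * bad T ut uxx +
            ENNReal.ofReal (2 * (ε / 800))) := h2.trans (by gcongr)
        _ = 200 * bad T ut uxx + ENNReal.ofReal ε := by
            rw [mul_add, ← mul_assoc, e1, e2]

end Pool.Agent.Q64.BP
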