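import Pool.Agent.Q64.BP.CELL
import Pool.Agent.Q64.BP.REP
import Pool.Agent.Q64.BP.CUT
import Pool.Agent.Q64.BP.BX
import Pool.Agent.Q64.BP.BT
import Pool.Agent.Q64.BP.GLUE
import Pool.Agent.Q64.BP.SP
import Pool.Agent.Q64.BP.KEY
import Pool.Agent.Q64.BP.PTW
import Pool.Agent.Q64.BP.GRID
import Pool.Agent.Q64.BP.STEP
import Pool.Agent.Q64.BP.SEQ
import Pool.Agent.Q64.BP.L1
import Pool.Agent.Q64.BP.L2
import Pool.Agent.Q64.BP.L3
import Pool.Agent.Q254.BP.L4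
import Pool.Agent.Q64.BP.SOL
import Pool.Agent.Q64.BP.ND

/-! Assembly of project BP (helper64, lemmas by helper18, 65, 76, 121, 123, 142, 153, 178, 181, 182,
208, 222, 234, 252, 254, 285). -/

open MeasureTheory Filter Topology Set
open scoped ENNReal NNReal ContDiff

namespace Pool.Agent.Q64.BP

theorem t_ALL (n : ℕ) (T : ℝ) (hT : 0 < T) :
    ∃ (μ Φ Φt : ℝ × V n → ℝ) (D : Fin (n + 1) → ℝ × V n → ℝ)
    (H : Fin (n + 1) → Fin (n + 1) → ℝ × V n → ℝ),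
    Measurable μ ∧ Per μ ∧ IntegrableOn μ (QT T n) ∧ (∀ p, 1 ≤ μ p) ∧ InX T μ Φ Φt D H ∧
    (∀ᵐ p ∂(volume.restrict (QT T n)), Φt p + μ p * ∑ i, H i i p = 0) ∧
    (∀ x, Φ (T, x) = 0) ∧ ¬ (∀ᵐ p ∂(volume.restrict (QT T n)), Φ p = 0) := by
  have rep : S_REP := t_REP t_CELL
  have sp : S_SP := t_SP (t_BX rep t_CUT) (t_BT rep t_CUT) t_GLUE
  have step : S_STEP := t_STEP (t_KEY sp) t_GRID t_PTW
  have sol : S_SOL := t_SOL (t_SEQ step) t_L1 t_L2 t_L3 Pool.Agent.Q254.BP.t_L4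
  obtain ⟨U, Ux, G, F, h⟩ := sol T hT
  exact t_ND n T hT U Ux G F h

end Pool.Agent.Q64.BP
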