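import Pool.Agent.Q64.BP.Stm

/-!
# Project BP, job CELL: the cell profile

Trapezoids are combinations of positive parts `pp (x - c)`, whose antiderivatives are explicit.
-/

set_option autoImplicit false

open MeasureTheory Filter Topology Set
open scoped ENNReal NNReal ContDiff

namespace Pool.Agent.Q64.BP

namespace CELL

/-- positive part -/
noncomputable def pp (x : ℝ) : ℝ := max 0 x

theorem pp_nn {x : ℝ} (h : 0 ≤ x) : pp x = x := max_eq_right h

theorem pp_np {x : ℝ} (h : x ≤ 0) : pp x = 0 := max_eq_left h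

theorem pp_cont : Continuous pp := continuous_const.max continuous_id

theorem pp_deriv (n : ℕ) (x : ℝ) :
    HasDerivAt (fun y => pp y ^ (n + 2)) (((n + 2 : ℕ) : ℝ) * pp x ^ (n + 1)) x := by
  rcases lt_trichotomy x 0 with hx | hx | hx
  · have h : (fun y => pp y ^ (n + 2)) =ᶠ[𝓝 x] fun _ => (0 : ℝ) := by
      filter_upwards [gt_mem_nhds hx] with y hy
      rw [pp_np hy.le]
      simp
    rw [pp_np hx.le]
    simpa using (hasDerivAt_const x (0 : ℝ)).congr_of_eventuallyEq h
  · subst hx
    have h : (fun y => pp y ^ (n + 2)) =O[𝓝 0] fun y => ‖y - 0‖ ^ (n + 2) := by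
      apply Asymptotics.isBigO_of_le
      intro y
      simp only [sub_zero, norm_pow, norm_norm]
      refine pow_le_pow_left₀ (norm_nonneg _) ?_ _
      rcases le_total y 0 with hy | hy
      · rw [pp_np hy]
        simp
      · rw [pp_nn hy]
    have h2 := (h.hasFDerivAt (𝕜 := ℝ) (by omega)).hasDerivAt
    rw [pp_np le_rfl]
    simpa using h2
  · have h : (fun y => pp y ^ (n + 2)) =ᶠ[𝓝 x] fun y => y ^ (n + 2) := by
      filter_upwards [lt_mem_nhds hx] with y hy
      rw [pp_nn hy.le]
    rw [pp_nn hx.le]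
    have h2 := (hasDerivAt_pow (n + 2) x).congr_of_eventuallyEq h
    simpa using h2

/-- the trapezoid (for `j = 1`) and its antiderivatives up to factors -/
noncomputable def tz (j : ℕ) (r p q x : ℝ) : ℝ :=
  (pp (x - p) ^ j - pp (x - (p + r)) ^ j - pp (x - (q - r)) ^ j + pp (x - q) ^ j) / r

theorem tz_deriv (n : ℕ) (r p q x : ℝ) :
    HasDerivAt (fun y => tz (n + 2) r p q y) (((n + 2 : ℕ) : ℝ) * tz (n + 1) r p q x) x := by
  have h : ∀ c : ℝ, HasDerivAt (fun y => pp (y - c) ^ (n + 2))
      (((n + 2 : ℕ) : ℝ) * pp (x - c) ^ (n + 1)) x := by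
    intro c
    have h0 := (pp_deriv n (x - c)).comp x ((hasDerivAt_id x).sub_const c)
    rw [mul_one] at h0
    exact h0
  have h2 := ((((h p).sub (h (p + r))).sub (h (q - r))).add (h q)).div_const r
  refine h2.congr_deriv ?_
  unfold tz
  ring

theorem tz_cont (j : ℕ) (r p q : ℝ) : Continuous (tz j r p q) := by
  have h : ∀ c : ℝ, Continuous fun x => pp (x - c) ^ j := fun c =>
    (pp_cont.comp (continuous_id.sub continuous_const)).pow j
  exact ((((h p).sub (h (p + r))).sub (h (q - r))).add (h q)).div_const r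

theorem tz_left {j : ℕ} {r p q x : ℝ} (hj : j ≠ 0) (hr : 0 < r) (hpq : p + 2 * r ≤ q) (hx : x ≤ p) :
    tz j r p q x = 0 := by
  unfold tz
  rw [pp_np (by linarith : x - p ≤ 0), pp_np (by linarith : x - (p + r) ≤ 0),
    pp_np (by linarith : x - (q - r) ≤ 0), pp_np (by linarith : x - q ≤ 0)]
  simp [hj]

theorem tz_right {r p q x : ℝ} (hr : 0 < r) (hpq : p + 2 * r ≤ q) (hx : q ≤ x) :
    tz 1 r p q x = 0 ∧ tz 2 r p q x = 2 * (q - p - r) ∧
      tz 3 r p q x = 3 * (2 * x - p - q) * (q - p - r) := by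
  unfold tz
  rw [pp_nn (by linarith : 0 ≤ x - p), pp_nn (by linarith : 0 ≤ x - (p + r)),
    pp_nn (by linarith : 0 ≤ x - (q - r)), pp_nn (by linarith : 0 ≤ x - q)]
  have := hr.ne'
  refine ⟨?_, ?_, ?_⟩
  · field_simp
    ring
  · field_simp
    ring
  · field_simp
    ring

theorem tz_mid {r p q x : ℝ} (hr : 0 < r) (h1 : p + r ≤ x) (h2 : x ≤ q - r) :
    tz 1 r p q x = 1 := by
  unfold tz
  rw [pp_nn (by linarith : 0 ≤ x - p), pp_nn (by linarith : 0 ≤ x - (p + r)),
    pp_np (by linarith : x - (q - r) ≤ 0), pp_np (by linarith : x - q ≤ 0)]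
  have := hr.ne'
  field_simp
  ring

theorem tz_bd {r p q : ℝ} (hr : 0 < r) (hpq : p + 2 * r ≤ q) (x : ℝ) :
    0 ≤ tz 1 r p q x ∧ tz 1 r p q x ≤ 1 := by
  rcases le_total x p with h1 | h1
  · rw [tz_left one_ne_zero hr hpq h1]
    simp
  rcases le_total q x with h2 | h2
  · rw [(tz_right hr hpq h2).1]
    simp
  rcases le_total x (p + r) with h3 | h3
  · unfold tz
    rw [pp_nn (by linarith : 0 ≤ x - p), pp_np (by linarith : x - (p + r) ≤ 0),
      pp_np (by linarith : x - (q - r) ≤ 0), pp_np (by linarith : x - q ≤ 0)]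
    constructor
    · apply div_nonneg _ hr.le
      nlinarith
    · rw [div_le_one hr]
      nlinarith
  rcases le_total x (q - r) with h4 | h4
  · rw [tz_mid hr h3 h4]
    simp
  · unfold tz
    rw [pp_nn (by linarith : 0 ≤ x - p), pp_nn (by linarith : 0 ≤ x - (p + r)),
      pp_nn (by linarith : 0 ≤ x - (q - r)), pp_np (by linarith : x - q ≤ 0)]
    constructor
    · apply div_nonneg _ hr.le
      nlinarith
    · rw [div_le_one hr]
      nlinarith

end CELL

open CELL

/-- **CELL** -/
theorem t_CELL : S_CELL := by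
  intro lam a b δ hl0 hl1 hab hδ
  -- the small parameter
  obtain ⟨r, hr, hr1, hr2, hr3⟩ : ∃ r : ℝ, 0 < r ∧ 16 * r ≤ lam ∧ 16 * r ≤ 1 - lam ∧ 16 * r ≤ δ := by
    refine ⟨min lam (min (1 - lam) δ) / 16, ?_, ?_, ?_, ?_⟩
    · have : 0 < min lam (min (1 - lam) δ) := lt_min hl0 (lt_min (by linarith) hδ)
      positivity
    · have := min_le_left lam (min (1 - lam) δ)
      linarith
    · have := (min_le_right lam (min (1 - lam) δ)).trans (min_le_left _ _)
      linarith
    · have := (min_le_right lam (min (1 - lam) δ)).trans (min_le_right _ _)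
      linarith
  obtain ⟨s, hs⟩ : ∃ s : ℝ, s = 2 * r + (1 - lam) * (1 - 5 * r) / 2 := ⟨_, rfl⟩
  have hs1 : 2 * (s - 2 * r) = (1 - lam) * (1 - 5 * r) := by rw [hs]; ring
  have hs2 : 1 - 2 * s - r = lam * (1 - 5 * r) := by rw [hs]; ring
  have hr5 : 1 / 2 ≤ 1 - 5 * r := by linarith
  have e1 : 8 * r ≤ (1 - lam) * (1 - 5 * r) := by nlinarith
  have e2 : 8 * r ≤ lam * (1 - 5 * r) := by nlinarith
  have e3 : (1 - lam) * (1 - 5 * r) ≤ 1 - lam := by nlinarith
  have e4 : lam * (1 - 5 * r) ≤ lam := by nlinarith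
  have hbal : 2 * b * (s - 2 * r) + a * (1 - 2 * s - r) = 0 := by
    have : 2 * b * (s - 2 * r) = b * (2 * (s - 2 * r)) := by ring
    rw [this, hs1, hs2]
    linear_combination (1 - 5 * r) * hab
  have p1 : r + 2 * r ≤ s := by linarith
  have p2 : (1 - s) + 2 * r ≤ 1 - r := by linarith
  have p3 : s + 2 * r ≤ 1 - s := by linarith
  refine ⟨fun x => (b * (tz 3 r r s x + tz 3 r (1 - s) (1 - r) x) + a * tz 3 r s (1 - s) x) / 6,
    fun x => (b * (tz 2 r r s x + tz 2 r (1 - s) (1 - r) x) + a * tz 2 r s (1 - s) x) / 2,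
    fun x => b * (tz 1 r r s x + tz 1 r (1 - s) (1 - r) x) + a * tz 1 r s (1 - s) x,
    3, ![2 * r, s + r, 1 - s + r], ![s - r, 1 - s - r, 1 - 2 * r], ![false, true, false],
    ?_, ?_, ?_, ?_, ?_, ?_, ?_⟩
  · refine ⟨?_, ?_, ?_, ?_, ?_, ?_, ?_⟩
    · intro i
      fin_cases i <;> simp <;> linarith
    · intro i
      fin_cases i <;> simp <;> linarith
    · intro i
      fin_cases i <;> simp <;> linarith
    · intro i j hij
      fin_cases i <;> fin_cases j <;> simp at hij ⊢ <;>
        first | (left; linarith) | (right; linarith)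
    · simp [Fin.sum_univ_three]
      linarith
    · simp [Fin.sum_univ_three]
      linarith
    · simp [Fin.sum_univ_three]
      linarith
  · exact (continuous_const.mul ((tz_cont 1 _ _ _).add (tz_cont 1 _ _ _))).add
      (continuous_const.mul (tz_cont 1 _ _ _))
  · intro x
    have h1 := tz_deriv 1 r r s x
    have h2 := tz_deriv 1 r (1 - s) (1 - r) x
    have h3 := tz_deriv 1 r s (1 - s) x
    refine ((((h1.add h2).const_mul b).add (h3.const_mul a)).div_const 6).congr_deriv ?_
    push_cast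
    ring
  · intro x
    have h1 := tz_deriv 0 r r s x
    have h2 := tz_deriv 0 r (1 - s) (1 - r) x
    have h3 := tz_deriv 0 r s (1 - s) x
    refine ((((h1.add h2).const_mul b).add (h3.const_mul a)).div_const 2).congr_deriv ?_
    push_cast
    ring
  · intro x hx
    rcases le_or_gt x 0 with h0 | h0
    · simp only [tz_left (j := 3) (by norm_num) hr p1 (by linarith : x ≤ r),
        tz_left (j := 2) (by norm_num) hr p1 (by linarith : x ≤ r),
        tz_left (j := 1) (by norm_num) hr p1 (by linarith : x ≤ r),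
        tz_left (j := 3) (by norm_num) hr p2 (by linarith : x ≤ 1 - s),
        tz_left (j := 2) (by norm_num) hr p2 (by linarith : x ≤ 1 - s),
        tz_left (j := 1) (by norm_num) hr p2 (by linarith : x ≤ 1 - s),
        tz_left (j := 3) (by norm_num) hr p3 (by linarith : x ≤ s),
        tz_left (j := 2) (by norm_num) hr p3 (by linarith : x ≤ s),
        tz_left (j := 1) (by norm_num) hr p3 (by linarith : x ≤ s)]
      simp
    · have h1 : 1 ≤ x := by
        by_contra hc
        exact hx ⟨h0, not_le.mp hc⟩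
      obtain ⟨a1, a2, a3⟩ := tz_right hr p1 (by linarith : s ≤ x)
      obtain ⟨b1, b2, b3⟩ := tz_right hr p2 (by linarith : 1 - r ≤ x)
      obtain ⟨c1, c2, c3⟩ := tz_right hr p3 (by linarith : 1 - s ≤ x)
      simp only [a1, a2, a3, b1, b2, b3, c1, c2, c3]
      refine ⟨?_, ?_, ?_⟩
      · linear_combination (2 * x - 1) / 2 * hbal
      · linear_combination hbal
      · ring
  · intro x
    obtain ⟨u1, u2⟩ := tz_bd hr p1 x
    obtain ⟨v1, v2⟩ := tz_bd hr p2 x
    obtain ⟨w1, w2⟩ := tz_bd hr p3 x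
    have h12 : tz 1 r r s x + tz 1 r (1 - s) (1 - r) x ≤ 1 := by
      rcases le_total x (1 - s) with h | h
      · rw [tz_left one_ne_zero hr p2 h]
        linarith
      · rw [(tz_right hr p1 (by linarith : s ≤ x)).1]
        linarith
    calc |b * (tz 1 r r s x + tz 1 r (1 - s) (1 - r) x) + a * tz 1 r s (1 - s) x|
        ≤ |b * (tz 1 r r s x + tz 1 r (1 - s) (1 - r) x)| + |a * tz 1 r s (1 - s) x| :=
          abs_add_le _ _
      _ = |b| * (tz 1 r r s x + tz 1 r (1 - s) (1 - r) x) + |a| * tz 1 r s (1 - s) x := by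
          rw [abs_mul, abs_mul, abs_of_nonneg (add_nonneg u1 v1), abs_of_nonneg w1]
      _ ≤ |a| + |b| := by
          have := mul_le_mul_of_nonneg_left h12 (abs_nonneg b)
          have := mul_le_mul_of_nonneg_left w2 (abs_nonneg a)
          linarith
  · intro i x hx
    fin_cases i
    · simp at hx ⊢
      rw [tz_mid hr (by linarith [hx.1]) (by linarith [hx.2]),
        tz_left one_ne_zero hr p2 (by linarith [hx.2]),
        tz_left one_ne_zero hr p3 (by linarith [hx.2])]
      ring
    · simp at hx ⊢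
      rw [(tz_right hr p1 (by linarith [hx.1])).1,
        tz_left one_ne_zero hr p2 (by linarith [hx.2]),
        tz_mid hr (by linarith [hx.1]) (by linarith [hx.2])]
      ring
    · simp at hx ⊢
      rw [(tz_right hr p1 (by linarith [hx.1])).1,
        tz_mid hr (by linarith [hx.1]) (by linarith [hx.2]),
        (tz_right hr p3 (by linarith [hx.1])).1]
      ring

end Pool.Agent.Q64.BP
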