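import Pool.Agent.Q64.BP.Stm

set_option autoImplicit false

/-!
# Project BP (helper64), job ND (helper153), part 1: Fubini and the change of variables
-/

open MeasureTheory Filter Topology Set
open scoped ENNReal NNReal ContDiff

namespace Pool.Agent.Q64.BP.ND

open Pool.Agent.Q64.BP

/-- the unit cube in `ℝ^n` -/
def cb (n : ℕ) : Set (Fin n → ℝ) := {y | ∀ i, y i ∈ Ico (0 : ℝ) 1}

/-- the half-open rectangle -/
def R0 (T : ℝ) : Set (ℝ × ℝ) := Ioo 0 T ×ˢ Ico 0 1

/-- `((t, ξ), y) ↦ (t, x)`, where `x i = ξ` and `y` is the vector of the other coordinates -/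
noncomputable def e {n : ℕ} (i : Fin (n + 1)) : (ℝ × ℝ) × (Fin n → ℝ) ≃ᵐ ℝ × V n :=
  MeasurableEquiv.prodAssoc.trans
    ((MeasurableEquiv.refl ℝ).prodCongr (MeasurableEquiv.piFinSuccAbove (fun _ => ℝ) i).symm)

/-- `((t, y), ξ) ↦ (t, x)`, where `x i = ξ` and `y` is the vector of the other coordinates -/
noncomputable def e2 {n : ℕ} (i : Fin (n + 1)) : (ℝ × (Fin n → ℝ)) × ℝ ≃ᵐ ℝ × V n :=
  MeasurableEquiv.prodAssoc.trans
    ((MeasurableEquiv.refl ℝ).prodCongr (MeasurableEquiv.prodComm.trans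
      (MeasurableEquiv.piFinSuccAbove (fun _ => ℝ) i).symm))

theorem e_apply {n : ℕ} (i : Fin (n + 1)) (z : (ℝ × ℝ) × (Fin n → ℝ)) :
    e i z = (z.1.1, i.insertNth z.1.2 z.2) := rfl

theorem e2_apply {n : ℕ} (i : Fin (n + 1)) (z : (ℝ × (Fin n → ℝ)) × ℝ) :
    e2 i z = (z.1.1, i.insertNth z.2 z.1.2) := rfl

theorem e_mp {n : ℕ} (i : Fin (n + 1)) : MeasurePreserving (e i) volume volume :=
  volume_preserving_prodAssoc.trans ((MeasurePreserving.id volume).prod
    ((volume_preserving_piFinSuccAbove (fun _ => ℝ) i).symm))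

theorem e2_mp {n : ℕ} (i : Fin (n + 1)) : MeasurePreserving (e2 i) volume volume :=
  volume_preserving_prodAssoc.trans ((MeasurePreserving.id volume).prod
    ((Measure.measurePreserving_swap (μ := volume) (ν := volume)).trans
    ((volume_preserving_piFinSuccAbove (fun _ => ℝ) i).symm)))

theorem cube_iff {n : ℕ} (i : Fin (n + 1)) (ξ : ℝ) (y : Fin n → ℝ) :
    (i.insertNth ξ y : V n) ∈ cube n ↔ ξ ∈ Ico (0 : ℝ) 1 ∧ y ∈ cb n := by
  unfold cube cb
  rw [mem_ofPred_eq, mem_ofPred_eq, Fin.forall_iff_succAbove i]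
  simp

theorem e_pre {n : ℕ} (T : ℝ) (i : Fin (n + 1)) : e i ⁻¹' QT T n = R0 T ×ˢ cb n := by
  ext ⟨⟨t, ξ⟩, y⟩
  rw [mem_preimage, e_apply, QT, R0]
  simp only [mem_prod, cube_iff]
  tauto

theorem e2_pre {n : ℕ} (T : ℝ) (i : Fin (n + 1)) :
    e2 i ⁻¹' QT T n = (Ioo 0 T ×ˢ cb n) ×ˢ Ico 0 1 := by
  ext ⟨⟨t, y⟩, ξ⟩
  rw [mem_preimage, e2_apply, QT]
  simp only [mem_prod, cube_iff]
  tauto

theorem cb_pi (n : ℕ) : cb n = Set.pi univ fun _ => Ico (0 : ℝ) 1 := by
  ext y
  simp [cb]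

theorem cube_pi (n : ℕ) : cube n = Set.pi univ fun _ => Ico (0 : ℝ) 1 := by
  ext y
  simp [cube]

theorem cb_vol (n : ℕ) : volume (cb n) = 1 := by
  rw [cb_pi, volume_pi_pi]
  simp

theorem cube_vol (n : ℕ) : volume (cube n) = 1 := by
  rw [cube_pi, volume_pi_pi]
  simp

theorem cb_meas (n : ℕ) : MeasurableSet (cb n) := by
  rw [cb_pi]
  exact MeasurableSet.univ_pi fun _ => measurableSet_Ico

theorem cube_meas (n : ℕ) : MeasurableSet (cube n) := by
  rw [cube_pi]
  exact MeasurableSet.univ_pi fun _ => measurableSet_Ico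

theorem R0_meas (T : ℝ) : MeasurableSet (R0 T) := measurableSet_Ioo.prod measurableSet_Ico

theorem Q_meas (T : ℝ) : MeasurableSet (Q T) := measurableSet_Ioo.prod measurableSet_Ioo

theorem QT_meas (T : ℝ) (n : ℕ) : MeasurableSet (QT T n) := measurableSet_Ioo.prod (cube_meas n)

theorem R0_ae (T : ℝ) : (R0 T : Set (ℝ × ℝ)) =ᵐ[volume] Q T := by
  unfold R0 Q Bx
  exact Measure.set_prod_ae_eq (ae_eq_refl _) Ioo_ae_eq_Ico.symm

instance cb_prob (n : ℕ) : IsProbabilityMeasure (volume.restrict (cb n)) :=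
  ⟨by rw [Measure.restrict_apply_univ, cb_vol]⟩

/-- the map to the rectangle -/
noncomputable def sm {n : ℕ} (T : ℝ) (p : ℝ × V n) : ℝ × ℝ := (T - p.1, Int.fract (p.2 0))

theorem sm_meas {n : ℕ} (T : ℝ) : Measurable (sm (n := n) T) := by
  unfold sm
  exact (measurable_const.sub measurable_fst).prodMk
    (measurable_fract.comp ((measurable_pi_apply 0).comp measurable_snd))

theorem refl_mp (T : ℝ) : MeasurePreserving (fun q : ℝ × ℝ => (T - q.1, q.2)) volume volume :=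
  (volume.measurePreserving_sub_left T).prod (MeasurePreserving.id volume)

theorem refl_mp2 (T : ℝ) : MeasurePreserving (fun q : ℝ × ℝ => (T - q.1, Int.fract q.2))
    (volume.restrict (R0 T)) (volume.restrict (R0 T)) := by
  have h := (refl_mp T).restrict_preimage (R0_meas T)
  have h2 : (fun q : ℝ × ℝ => (T - q.1, q.2)) ⁻¹' R0 T = R0 T := by
    ext ⟨t, x⟩
    simp only [R0, mem_preimage, mem_prod, mem_Ioo, mem_Ico]
    constructor
    · rintro ⟨⟨h1, h2⟩, h3⟩
      exact ⟨⟨by linarith, by linarith⟩, h3⟩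
    · rintro ⟨⟨h1, h2⟩, h3⟩
      exact ⟨⟨by linarith, by linarith⟩, h3⟩
  rw [h2] at h
  refine h.congr ((measurable_const.sub measurable_fst).prodMk
    (measurable_fract.comp measurable_snd)) ?_
  filter_upwards [ae_restrict_mem (R0_meas T)] with q hq
  have h3 : Int.fract q.2 = q.2 := Int.fract_eq_self.2 hq.2
  rw [h3]

theorem sm_mp {n : ℕ} (T : ℝ) :
    MeasurePreserving (sm (n := n) T) (volume.restrict (QT T n)) (volume.restrict (Q T)) := by
  have h1 := ((e_mp (n := n) 0).symm).restrict_preimage ((R0_meas T).prod (cb_meas n))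
  have h2 : (e (n := n) 0).symm ⁻¹' (R0 T ×ˢ cb n) = QT T n := by
    rw [← e_pre T (0 : Fin (n + 1)), ← preimage_comp]
    simp
  rw [h2] at h1
  have h3 : (volume.restrict (R0 T ×ˢ cb n) : Measure ((ℝ × ℝ) × (Fin n → ℝ))) =
      (volume.restrict (R0 T)).prod (volume.restrict (cb n)) := by
    rw [Measure.prod_restrict]
    rfl
  rw [h3] at h1
  have h4 := (refl_mp2 T).comp ((measurePreserving_fst (μ := volume.restrict (R0 T))
    (ν := volume.restrict (cb n))).comp h1)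
  rw [Measure.restrict_congr_set (R0_ae T)] at h4
  exact h4

end Pool.Agent.Q64.BP.ND
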