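import Pool.Agent.Q64.BP.ND1

set_option autoImplicit false
set_option linter.unusedSimpArgs false

/-!
# Project BP (helper64), job ND (helper153), part 2: weak derivatives
-/

open MeasureTheory Filter Topology Set
open scoped ENNReal NNReal ContDiff

namespace Pool.Agent.Q64.BP.ND

open Pool.Agent.Q64.BP

variable {n : ℕ}

theorem lint (T : ℝ) {h : ℝ × ℝ → ℝ≥0∞} (hh : Measurable h) :
    ∫⁻ p in QT T n, h (sm T p) = ∫⁻ q in Q T, h q :=
  (sm_mp T).lintegral_comp hh

theorem ae_sm (T : ℝ) {P : ℝ × ℝ → Prop} (h : ∀ᵐ q : ℝ × ℝ, q ∈ Q T → P q) :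
    ∀ᵐ p ∂(volume.restrict (QT T n)), P (sm T p) :=
  (sm_mp T).quasiMeasurePreserving.ae ((ae_restrict_iff' (Q_meas T)).2 h)

theorem int_sm (T : ℝ) {f : ℝ × ℝ → ℝ} (hf : IntegrableOn f (Q T)) :
    IntegrableOn (fun p => f (sm T p)) (QT T n) :=
  (sm_mp T).integrable_comp_of_integrable hf

/-- the reflection of time, as an equivalence -/
noncomputable def rf (T : ℝ) : ℝ × ℝ ≃ᵐ ℝ × ℝ :=
  (MeasurableEquiv.subLeft T).prodCongr (MeasurableEquiv.refl ℝ)

theorem rf_apply (T : ℝ) (q : ℝ × ℝ) : rf T q = (T - q.1, q.2) := rfl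

theorem rf_mp (T : ℝ) : MeasurePreserving (rf T) volume volume := refl_mp T

theorem fub (T : ℝ) {f : ℝ × ℝ → ℝ} (hf : Integrable f) (hoff : ∀ q, q ∉ Q T → f q = 0)
    {a : ℝ × V n → ℝ} (ha : Continuous a) :
    IntegrableOn (fun p => f (sm T p) * a p) (QT T n) ∧
    ∫ p in QT T n, f (sm T p) * a p =
      ∫ y in cb n, ∫ q : ℝ × ℝ, f q * a (T - q.1, (0 : Fin (n + 1)).insertNth q.2 y) := by
  -- the transformed function
  have hcongr : ∀ z ∈ R0 T ×ˢ cb n, f (sm T (e 0 z)) * a (e 0 z) =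
      f (rf T z.1) * a (z.1.1, (0 : Fin (n + 1)).insertNth z.1.2 z.2) := by
    intro z hz
    have h1 : sm T (e 0 z) = rf T z.1 := by
      rw [e_apply, rf_apply]
      unfold sm
      have h2 : Int.fract z.1.2 = z.1.2 := Int.fract_eq_self.2 hz.1.2
      simp [h2]
    rw [h1, e_apply]
  have hrestr : (volume.restrict (R0 T ×ˢ cb n) : Measure ((ℝ × ℝ) × (Fin n → ℝ))) =
      (volume.restrict (R0 T)).prod (volume.restrict (cb n)) := by
    rw [Measure.prod_restrict]
    rfl
  have hms : MeasurableSet (R0 T ×ˢ cb n) := (R0_meas T).prod (cb_meas n)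
  have hac : Continuous fun z : (ℝ × ℝ) × (Fin n → ℝ) =>
      a (z.1.1, (0 : Fin (n + 1)).insertNth z.1.2 z.2) := by
    refine ha.comp ((continuous_fst.comp continuous_fst).prodMk ?_)
    exact Continuous.finInsertNth 0 (continuous_snd.comp continuous_fst) continuous_snd
  obtain ⟨C, hC⟩ : ∃ C, ∀ z ∈ R0 T ×ˢ cb n,
      ‖a (z.1.1, (0 : Fin (n + 1)).insertNth z.1.2 z.2)‖ ≤ C := by
    have hK : IsCompact ((Icc (0 : ℝ) T ×ˢ Icc (0 : ℝ) 1) ×ˢ
        Set.pi univ fun _ : Fin n => Icc (0 : ℝ) 1) :=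
      (isCompact_Icc.prod isCompact_Icc).prod (isCompact_univ_pi fun _ => isCompact_Icc)
    obtain ⟨C, hC⟩ := hK.exists_bound_of_continuousOn hac.continuousOn
    refine ⟨C, fun z hz => hC z ⟨⟨?_, ?_⟩, ?_⟩⟩
    · exact Ioo_subset_Icc_self hz.1.1
    · exact Ico_subset_Icc_self hz.1.2
    · intro i _
      exact Ico_subset_Icc_self (hz.2 i)
  have hfr : Integrable fun q => f (rf T q) := (rf_mp T).integrable_comp_of_integrable hf
  have hint : Integrable (fun z : (ℝ × ℝ) × (Fin n → ℝ) =>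
      f (rf T z.1) * a (z.1.1, (0 : Fin (n + 1)).insertNth z.1.2 z.2))
      ((volume.restrict (R0 T)).prod (volume.restrict (cb n))) := by
    refine Integrable.mul_bdd (c := C) ((hfr.integrableOn (s := R0 T)).comp_fst _)
      hac.aestronglyMeasurable ?_
    rw [← hrestr]
    filter_upwards [ae_restrict_mem hms] with z hz
    exact hC z hz
  constructor
  · rw [← (e_mp (n := n) 0).integrableOn_comp_preimage (e 0).measurableEmbedding, e_pre]
    have h1 : IntegrableOn (fun z : (ℝ × ℝ) × (Fin n → ℝ) =>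
      f (rf T z.1) * a (z.1.1, (0 : Fin (n + 1)).insertNth z.1.2 z.2)) (R0 T ×ˢ cb n) := by
      unfold IntegrableOn
      rw [hrestr]
      exact hint
    exact h1.congr_fun (fun z hz => (hcongr z hz).symm) hms
  · rw [← (e_mp (n := n) 0).setIntegral_preimage_emb (e 0).measurableEmbedding, e_pre,
      setIntegral_congr_fun hms hcongr, hrestr, integral_prod_symm _ hint]
    refine integral_congr_ae (Eventually.of_forall fun y => ?_)
    simp only
    rw [setIntegral_eq_integral_of_forall_compl_eq_zero]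
    · have h1 := (rf_mp T).integral_comp (rf T).measurableEmbedding
        (fun q : ℝ × ℝ => f q * a (T - q.1, (0 : Fin (n + 1)).insertNth q.2 y))
      rw [← h1]
      refine integral_congr_ae (Eventually.of_forall fun q => ?_)
      simp only [rf_apply]
      rw [sub_sub_cancel]
    · intro q hq
      rw [hoff _ ?_, zero_mul]
      rw [rf_apply]
      intro h
      refine hq ⟨⟨?_, ?_⟩, Ioo_subset_Ico_self h.2⟩
      · have := h.1.2
        simp only at this
        linarith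
      · have := h.1.1
        simp only at this
        linarith

theorem curve (i : Fin (n + 1)) (t : ℝ) (y : Fin n → ℝ) (ξ : ℝ) :
    HasDerivAt (fun ξ : ℝ => ((t, i.insertNth ξ y) : ℝ × V n)) (0, Pi.single i 1) ξ := by
  refine (hasDerivAt_const ξ t).prodMk ?_
  rw [hasDerivAt_pi]
  intro j
  rcases Fin.eq_self_or_eq_succAbove i j with h | ⟨k, h⟩
  · rw [h]
    simp only [Fin.insertNth_apply_same, Pi.single_eq_same]
    exact hasDerivAt_id ξ
  · rw [h]
    simp only [Fin.insertNth_apply_succAbove]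
    rw [Pi.single_eq_of_ne (Fin.succAbove_ne i k)]
    exact hasDerivAt_const ξ _

theorem test_x {T : ℝ} {φ : ℝ × V n → ℝ} (hφ : IsTest T φ) (i : Fin (n + 1)) (t : ℝ)
    (y : Fin n → ℝ) (ξ : ℝ) :
    HasDerivAt (fun ξ : ℝ => φ (t, i.insertNth ξ y))
      (fderiv ℝ φ (t, i.insertNth ξ y) (0, Pi.single i 1)) ξ := by
  have hd : Differentiable ℝ φ := hφ.1.differentiable (by simp)
  exact ((hd _).hasFDerivAt).comp_hasDerivAt ξ (curve i t y ξ)

theorem test_t {T : ℝ} {φ : ℝ × V n → ℝ} (hφ : IsTest T φ) (v : V n) (t : ℝ) :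
    HasDerivAt (fun s : ℝ => φ (T - s, v)) (-(fderiv ℝ φ (T - t, v) (1, 0))) t := by
  have hd : Differentiable ℝ φ := hφ.1.differentiable (by simp)
  have hc : HasDerivAt (fun s : ℝ => ((T - s, v) : ℝ × V n)) (-1, 0) t :=
    ((hasDerivAt_id t).const_sub T).prodMk (hasDerivAt_const t v)
  have h := ((hd (T - t, v)).hasFDerivAt).comp_hasDerivAt t hc
  have h2 : ((-1 : ℝ), (0 : V n)) = -((1 : ℝ), (0 : V n)) := by simp
  rw [h2, map_neg] at h
  exact h

theorem test_fd {T : ℝ} {φ : ℝ × V n → ℝ} (hφ : IsTest T φ) (v : ℝ × V n) :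
    Continuous fun p => fderiv ℝ φ p v :=
  (hφ.1.continuous_fderiv (by simp)).clm_apply continuous_const

theorem fubx (T : ℝ) {i : Fin (n + 1)} (hi : i ≠ 0) {f : ℝ × ℝ → ℝ} (hf : Integrable f)
    (hoff : ∀ q, q ∉ Q T → f q = 0) {φ : ℝ × V n → ℝ} (hφ : IsTest T φ) :
    ∫ p in QT T n, f (sm T p) * fderiv ℝ φ p (0, Pi.single i 1) = 0 := by
  have hint := (fub T hf hoff (test_fd hφ (0, Pi.single i 1))).1
  rw [← (e2_mp (n := n) i).integrableOn_comp_preimage (e2 i).measurableEmbedding, e2_pre] at hint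
  rw [← (e2_mp (n := n) i).setIntegral_preimage_emb (e2 i).measurableEmbedding, e2_pre]
  have hv : (volume : Measure ((ℝ × (Fin n → ℝ)) × ℝ)) = volume.prod volume := rfl
  rw [hv] at hint ⊢
  have hint2 : IntegrableOn (fun z : (ℝ × (Fin n → ℝ)) × ℝ => f (sm T (e2 i z)) *
      fderiv ℝ φ (e2 i z) (0, Pi.single i 1)) ((Ioo 0 T ×ˢ cb n) ×ˢ Ico 0 1)
      (volume.prod volume) := hint
  rw [setIntegral_prod _ hint2]
  refine setIntegral_eq_zero_of_forall_eq_zero fun w _ => ?_
  simp only [e2_apply]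
  obtain ⟨k, hk⟩ : ∃ k, i.succAbove k = 0 := Fin.exists_succAbove_eq hi.symm
  have h0 : ∀ ξ : ℝ, sm T ((w.1, i.insertNth ξ w.2) : ℝ × V n) = (T - w.1, Int.fract (w.2 k)) := by
    intro ξ
    unfold sm
    simp only
    rw [← hk, Fin.insertNth_apply_succAbove]
  simp only [h0]
  rw [integral_const_mul]
  have hper : φ (w.1, i.insertNth 1 w.2) = φ (w.1, i.insertNth 0 w.2) := by
    have h := hφ.2.1 w.1 (i.insertNth 0 w.2) (Pi.single i 1)
    rw [← h]
    congr 2
    funext j
    rcases Fin.eq_self_or_eq_succAbove i j with h | ⟨l, h⟩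
    · rw [h]
      simp
    · rw [h]
      simp [Pi.single_eq_of_ne (Fin.succAbove_ne i l)]
  have hF := intervalIntegral.integral_eq_sub_of_hasDerivAt (a := 0) (b := 1)
    (fun ξ _ => test_x hφ i w.1 w.2 ξ)
    (Continuous.intervalIntegrable ((test_fd hφ (0, Pi.single i 1)).comp
      (continuous_const.prodMk (Continuous.finInsertNth i continuous_id continuous_const))) 0 1)
  rw [hper, sub_self, intervalIntegral.integral_of_le zero_le_one,
    ← integral_Ico_eq_integral_Ioc] at hF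
  rw [hF, mul_zero]

end Pool.Agent.Q64.BP.ND
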