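import Mathlib

/-!
# Project BP (helper64): MP_784f1f_an, uniqueness for `∂ₜΦ + μ ΔΦ = 0`, `Φ(T) = 0`. DISPROOF, all `N`.

Convex integration (staircase laminates) in one space dimension. With `g = ∂ₜu`, `f = ∂ₓₓu` we look
for `u` on `Q = (0,T) × (0,1)`, vanishing near/at the boundary (in particular at `t = 0` and `t = T`),
with `g f > 0`, `|g| > |f| > 1/2` a.e., `g ∈ L¹`, `f ∈ L²`, `g f ∈ L¹`, `g / f ∈ L¹`. Then `μ = g/f`.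
Elementary steps: one can replace the value `f` by `f₁, f₂` (weights `lam, 1-lam`) with a perturbation
`χ(t) k(x)`, `k` tiny, and the value `g` by `g₁, g₂` with a perturbation `η(x) h(t)`, `h` tiny.
A point `(g,f)` with `f ≤ -1` and `g > f - 2` is split in time into `(f-3, f)` (good) and `(R², f)`
(weight about `(g-f+3)/R²`), and this in space into `(R², 1)` (good) and `(R², -R)`
(weight `(1-f)/(R+1)`): the total bad mass of `Ψ = 1 + |g| + f²` is at most a constant times `1/R`.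
-/

open MeasureTheory Filter Topology Set
open scoped ENNReal NNReal ContDiff

namespace Pool.Agent.Q64.BP

/-! ## Functions on the plane (points `p = (t, x)`) -/

/-- `w` with its derivatives `wt = ∂ₜw`, `wx = ∂ₓw`, `wxx = ∂ₓ²w`, all continuous on `ℝ²` -/
structure Reg (w wt wx wxx : ℝ × ℝ → ℝ) : Prop where
  dt : ∀ t x, HasDerivAt (fun s => w (s, x)) (wt (t, x)) t
  dx : ∀ t x, HasDerivAt (fun y => w (t, y)) (wx (t, x)) x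
  dxx : ∀ t x, HasDerivAt (fun y => wx (t, y)) (wxx (t, x)) x
  cw : Continuous w
  ct : Continuous wt
  cx : Continuous wx
  cxx : Continuous wxx

/-- open box -/
def Bx (t0 t1 x0 x1 : ℝ) : Set (ℝ × ℝ) := Ioo t0 t1 ×ˢ Ioo x0 x1

/-- a perturbation supported in the set `R`, with `|w|, |∂ₓw| ≤ ε` -/
structure Pert (R : Set (ℝ × ℝ)) (ε : ℝ) (w wt wx wxx : ℝ × ℝ → ℝ) : Prop extends
    Reg w wt wx wxx where
  off : ∀ p, p ∉ R → w p = 0 ∧ wt p = 0 ∧ wx p = 0 ∧ wxx p = 0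
  small : ∀ p, |w p| ≤ ε ∧ |wx p| ≤ ε

/-- `J` measurable and bounded on bounded sets -/
def LocB (J : ℝ × ℝ → ℝ≥0∞) : Prop :=
  Measurable J ∧ ∀ M : ℝ, ∃ C : ℝ≥0, ∀ q : ℝ × ℝ, |q.1| ≤ M → |q.2| ≤ M → J q ≤ C

/-- On every box the constant value `(g, f)` of `(∂ₜ, ∂ₓ²)` can be perturbed so that the mean of `J`
becomes at most `v` (plus any `δ > 0`). -/
def Env (J : ℝ × ℝ → ℝ≥0∞) (g f : ℝ) (v : ℝ≥0∞) : Prop :=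
  ∀ t0 t1 x0 x1 ε δ : ℝ, t0 < t1 → x0 < x1 → 0 < ε → 0 < δ → ∃ w wt wx wxx : ℝ × ℝ → ℝ,
    Pert (Bx t0 t1 x0 x1) ε w wt wx wxx ∧
    ∫⁻ p in Bx t0 t1 x0 x1, J (g + wt p, f + wxx p) ≤
      (v + ENNReal.ofReal δ) * ENNReal.ofReal ((t1 - t0) * (x1 - x0))

/-- finitely many disjoint intervals `(y i, z i)` in `(x0, x1)` with labels; the intervals with label
`true` have total length `≤ lam (x1-x0)`, those with label `false` `≤ (1-lam)(x1-x0)`, all together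
`≥ (1-δ)(x1-x0)` -/
structure Fam (x0 x1 lam δ : ℝ) (n : ℕ) (y z : Fin n → ℝ) (l : Fin n → Bool) : Prop where
  lt : ∀ i, y i < z i
  left : ∀ i, x0 ≤ y i
  right : ∀ i, z i ≤ x1
  disj : ∀ i j, i ≠ j → z i ≤ y j ∨ z j ≤ y i
  tru : ∑ i, (if l i then z i - y i else 0) ≤ lam * (x1 - x0)
  fal : ∑ i, (if l i then 0 else z i - y i) ≤ (1 - lam) * (x1 - x0)
  tot : (1 - δ) * (x1 - x0) ≤ ∑ i, (z i - y i)

/-- CELL. Proof. Let `r > 0` be small. `T p q` = the continuous trapezoid function (`0` outside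
`[p,q]`, `1` on `[p+r,q-r]`, linear between, integral `q-p-r`), e.g.
`max 0 (min 1 (min ((x-p)/r) ((q-x)/r)))`. Put `k2 = b (T r s + T (1-s) (1-r)) + a (T s (1-s))` with
`s ∈ (r, 1/2)` such that `∫ k2 = 2b(s-2r) + a(1-2s-r) = 0` (as `lam a + (1-lam) b = 0`, `s` near
`(1-lam)/2`; e.g. `s - 2r = (1-lam) c`, `1-2s-r = 2 lam c`, `c = (1-5r)/2`; any sign of `a, b`).
`k2` is symmetric about `1/2`, so `∫ (x-1/2) k2 = 0` as well and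
`k1 x = ∫_0^x k2`, `k0 x = ∫_0^x k1` vanish for `x ≤ 0` and `x ≥ 1`.
Intervals: `(2r, s-r)`, `(1-s+r, 1-2r)` with `k2 = b` (label `false`), `(s+r, 1-s-r)` with `k2 = a`. -/
def S_CELL : Prop := ∀ lam a b δ : ℝ, 0 < lam → lam < 1 → lam * a + (1 - lam) * b = 0 → 0 < δ →
  ∃ (k0 k1 k2 : ℝ → ℝ) (n : ℕ) (y z : Fin n → ℝ) (l : Fin n → Bool),
    Fam 0 1 lam δ n y z l ∧ Continuous k2 ∧ (∀ x, HasDerivAt k0 (k1 x) x) ∧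
    (∀ x, HasDerivAt k1 (k2 x) x) ∧ (∀ x, x ∉ Ioo (0 : ℝ) 1 → k0 x = 0 ∧ k1 x = 0 ∧ k2 x = 0) ∧
    (∀ x, |k2 x| ≤ |a| + |b|) ∧ ∀ i, ∀ x ∈ Ioo (y i) (z i), k2 x = if l i then a else b

/-- REP (from S_CELL). Proof. `m` cells of length `d = (x1-x0)/m`, `c_j = x0 + j d`:
`k0 = d² ∑_j κ0((x-c_j)/d)`, `k1 = d ∑_j κ1(..)`, `k2 = ∑_j κ2(..)` (for every `x` at most one term is
nonzero), `m` large so that `d sup|κ1|, d² sup|κ0| ≤ ε`; the intervals are the scaled ones in all the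
cells (`n m` intervals). -/
def S_REP : Prop := ∀ x0 x1 lam a b δ ε : ℝ, x0 < x1 → 0 < lam → lam < 1 →
  lam * a + (1 - lam) * b = 0 → 0 < δ → 0 < ε →
  ∃ (k0 k1 k2 : ℝ → ℝ) (n : ℕ) (y z : Fin n → ℝ) (l : Fin n → Bool),
    Fam x0 x1 lam δ n y z l ∧ Continuous k2 ∧ (∀ x, HasDerivAt k0 (k1 x) x) ∧
    (∀ x, HasDerivAt k1 (k2 x) x) ∧ (∀ x, x ∉ Ioo x0 x1 → k0 x = 0 ∧ k1 x = 0 ∧ k2 x = 0) ∧
    (∀ x, |k0 x| ≤ ε ∧ |k1 x| ≤ ε) ∧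
    (∀ x, |k2 x| ≤ |a| + |b|) ∧ ∀ i, ∀ x ∈ Ioo (y i) (z i), k2 x = if l i then a else b

/-- CUT: a cut-off function. (E.g. a smooth bump function, `ContDiffBump`.) -/
def S_CUT : Prop := ∀ x0 x1 δ : ℝ, x0 < x1 → 0 < δ → ∃ (c0 c1 c2 : ℝ → ℝ) (y z M : ℝ),
  Continuous c2 ∧ (∀ x, HasDerivAt c0 (c1 x) x) ∧ (∀ x, HasDerivAt c1 (c2 x) x) ∧
  (∀ x, x ∉ Ioo x0 x1 → c0 x = 0 ∧ c1 x = 0 ∧ c2 x = 0) ∧ (∀ x, 0 ≤ c0 x ∧ c0 x ≤ 1) ∧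
  (∀ x, |c1 x| ≤ M ∧ |c2 x| ≤ M) ∧ x0 ≤ y ∧ y < z ∧ z ≤ x1 ∧ (1 - δ) * (x1 - x0) ≤ z - y ∧
  ∀ x ∈ Ioo y z, c0 x = 1 ∧ c1 x = 0 ∧ c2 x = 0

/-- a building block: perturbation of the box and finitely many disjoint sub-boxes on which
`(∂ₜw, ∂ₓ²w)` is `(a₁, a₂)` (label `true`) or `(b₁, b₂)` (label `false`) -/
def Block (a1 a2 b1 b2 lam : ℝ) : Prop :=
  ∀ t0 t1 x0 x1 ε δ : ℝ, t0 < t1 → x0 < x1 → 0 < ε → 0 < δ →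
  ∃ (w wt wx wxx : ℝ × ℝ → ℝ) (n : ℕ) (s0 s1 y0 y1 : Fin n → ℝ) (l : Fin n → Bool),
    Pert (Bx t0 t1 x0 x1) ε w wt wx wxx ∧
    (∀ p, |wt p| ≤ ε + |a1| + |b1| ∧ |wxx p| ≤ ε + |a2| + |b2|) ∧
    (∀ i, s0 i < s1 i ∧ y0 i < y1 i ∧ t0 ≤ s0 i ∧ s1 i ≤ t1 ∧ x0 ≤ y0 i ∧ y1 i ≤ x1) ∧
    (∀ i j, i ≠ j → s1 i ≤ s0 j ∨ s1 j ≤ s0 i ∨ y1 i ≤ y0 j ∨ y1 j ≤ y0 i) ∧
    ∑ i, (if l i then (s1 i - s0 i) * (y1 i - y0 i) else 0) ≤ lam * ((t1 - t0) * (x1 - x0)) ∧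
    ∑ i, (if l i then 0 else (s1 i - s0 i) * (y1 i - y0 i)) ≤
      (1 - lam) * ((t1 - t0) * (x1 - x0)) ∧
    (1 - δ) * ((t1 - t0) * (x1 - x0)) ≤ ∑ i, (s1 i - s0 i) * (y1 i - y0 i) ∧
    ∀ i, ∀ p ∈ Bx (s0 i) (s1 i) (y0 i) (y1 i),
      wt p = (if l i then a1 else b1) ∧ wxx p = (if l i then a2 else b2)

/-- BX (from S_REP, S_CUT). Proof. `w = χ(t) k(x)` with `χ` from S_CUT on `(t0,t1)` and `k` from S_REP
on `(x0,x1)` with `ε' = ε/(1+M)`, sub-boxes `(y,z) × (y_i, z_i)`, `δ/2` in both. -/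
def S_BX : Prop := ∀ lam a b : ℝ, 0 < lam → lam < 1 → lam * a + (1 - lam) * b = 0 →
  Block 0 a 0 b lam

/-- BT (from S_REP, S_CUT). Proof. `w = η(x) h(t)` with `η` from S_CUT on `(x0,x1)` and `h = k1`,
`h' = k2` from S_REP on `(t0,t1)`: `∂ₜw = η k2`, `∂ₓw = η' k1`, `∂ₓ²w = η'' k1`. -/
def S_BT : Prop := ∀ lam a b : ℝ, 0 < lam → lam < 1 → lam * a + (1 - lam) * b = 0 →
  Block a 0 b 0 lam

/-- GLUE. Proof. Take the block with `ε/2` and a small `δ'`; in the sub-box `i` insert the perturbation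
`w_i` from the `Env` hypothesis for its label with `ε/2`, `δ/2`; `W = w + ∑ w_i`. On the sub-box `i`
the value is `(g + a1 + ∂ₜw_i, f + a2 + ∂ₓ²w_i)` (or with `b`); off the sub-boxes `J ≤ C` on a set of
area `≤ δ' |box|` (the boundaries of the sub-boxes are null). -/
def S_GLUE : Prop := ∀ (J : ℝ × ℝ → ℝ≥0∞) (g f a1 a2 b1 b2 lam : ℝ) (v1 v2 : ℝ≥0∞), LocB J →
  0 < lam → lam < 1 → Block a1 a2 b1 b2 lam → Env J (g + a1) (f + a2) v1 →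
  Env J (g + b1) (f + b2) v2 →
  Env J g f (ENNReal.ofReal lam * v1 + ENNReal.ofReal (1 - lam) * v2)

/-- SP (from S_BX, S_BT, S_GLUE): `Env` is convex along both axes. -/
def S_SP : Prop := ∀ (J : ℝ × ℝ → ℝ≥0∞), LocB J → ∀ (g f lam c d : ℝ) (v1 v2 : ℝ≥0∞),
  0 < lam → lam < 1 →
  (lam * c + (1 - lam) * d = f → Env J g c v1 → Env J g d v2 →
    Env J g f (ENNReal.ofReal lam * v1 + ENNReal.ofReal (1 - lam) * v2)) ∧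
  (lam * c + (1 - lam) * d = g → Env J c f v1 → Env J d f v2 →
    Env J g f (ENNReal.ofReal lam * v1 + ENNReal.ofReal (1 - lam) * v2))

/-! ## The inclusion -/

noncomputable def Psi (g f : ℝ) : ℝ := 1 + |g| + f ^ 2
noncomputable def Th (g f : ℝ) : ℝ := |g| + f ^ 2 + |g * f| + |g / f|
/-- good -/
def Good (g f : ℝ) : Prop := 1 / 2 < |f| ∧ 0 < g * f ∧ |f| < |g|
/-- good with a margin -/
def DG (g f : ℝ) : Prop := 1 ≤ |f| ∧ 0 < g * f ∧ |f| + 2 ≤ |g|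

open Classical in
noncomputable def J0 (q : ℝ × ℝ) : ℝ≥0∞ :=
  if DG q.1 q.2 then ENNReal.ofReal (1 / 100 * Th q.1 q.2) else ENNReal.ofReal (Psi q.1 q.2)

/-- KEY (from S_SP). Write `κ = 1/100`; `LocB J0` is easy (`|g/f| ≤ |g|` if `|f| ≥ 1`), and
`Env J g f (J (g,f))` (take `w = 0`). Proof.
(1) `f ≤ -1`, not DG: then `g > f - 2`. Let `R ≥ 300 (|f|+1)`, `R² > g`, `R > |f|`. Time split
`g = θ R² + (1-θ)(f-3)`, `0 < θ = (g-f+3)/(R²-f+3) ≤ (|g|+|f|+3)/R²`, and space split of `(R²,f)`: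
`f = θ'(-R) + (1-θ') 1`, `θ' = (1-f)/(1+R)`. Values: `J0(f-3,f) = κ Th ≤ 13κ f²`,
`J0(R²,1) ≤ 4κR²`, `J0(R²,-R) = Psi ≤ 3R²`. So
`v ≤ 13κf² + θ(4κR² + 3R(|f|+1)) ≤ 13κf² + (|g|+|f|+3)·5κ ≤ 18κ Psi(g,f)`. `f ≥ 1`: the same with
both signs changed (`(f+3,f)`, `(-R²,-1)`, `(-R²,R)`).
(2) `|f| < 1`: `f = α·1 + (1-α)(-1)`. At `(g,±1)`: `v ≤ 3κ(1+|g|)` if DG, else
`18κ(2+|g|) ≤ 36κ Psi(g,f)`. Total `≤ 36κ Psi ≤ Psi/2`. -/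
def S_KEY : Prop := LocB J0 ∧ ∀ g f : ℝ, ¬ DG g f → Env J0 g f (ENNReal.ofReal (1 / 2 * Psi g f))

/-- PTW: pointwise comparison of the constant value `(G,F)` and the true value `(G',F')`. Proof.
`|F| ≥ 1` if DG; `Psi' ≤ 1 + |G| + 1/8 + (|F| + 1/8)² ≤ (3/2) Psi`. Good and not DG: either `|F| < 1`,
`|F'| ≤ 9/8`; or `|G| < |F| + 2`, `|G'| ≤ |F'| + 9/4`; (`G F ≤ 0` is impossible); so
`Th' ≤ 10 Psi' ≤ 15 Psi`. -/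
def S_PTW : Prop := ∀ G F G' F' : ℝ, |G' - G| ≤ 1 / 8 → |F' - F| ≤ 1 / 8 →
  (DG G F → Good G' F' ∧ Th G' F' ≤ 4 * Th G F) ∧
  (Psi G' F' ≤ 3 / 2 * Psi G F) ∧
  (Good G' F' → ¬ DG G F → Th G' F' ≤ 400 * Psi G F)

/-- the domain -/
def Q (T : ℝ) : Set (ℝ × ℝ) := Bx 0 T 0 1

/-- a state: a regular function vanishing (with its derivatives) off `Q T` -/
structure St (T : ℝ) (u ut ux uxx : ℝ × ℝ → ℝ) : Prop extends Reg u ut ux uxx where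
  off : ∀ p, p ∉ Q T → u p = 0 ∧ ut p = 0 ∧ ux p = 0 ∧ uxx p = 0

/-- the bad mass -/
noncomputable def bad (T : ℝ) (ut uxx : ℝ × ℝ → ℝ) : ℝ≥0∞ :=
  ∫⁻ p in Q T ∩ {p | ¬ Good (ut p) (uxx p)}, ENNReal.ofReal (Psi (ut p) (uxx p))

/-- GRID. Proof. `a`, `b` continuous (uniformly on `[0,T] × [0,1]`), `Good` open, so the bad set `B`
in the closed rectangle is closed. Divide the rectangle in `m × m` equal closed boxes, `m` large, and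
take those which meet `B`; their union `D` satisfies `B ⊆ D ⊆ {dist(.,B) ≤ diam}`, so
`∫_D Psi(a,b) → ∫_B Psi(a,b)` (bounded integrand, the measures of the neighbourhoods of the closed set
`B` tend to that of `B`), and `Psi` at the centre differs little from `Psi(a,b)` on the box. -/
def S_GRID : Prop := ∀ T : ℝ, 0 < T → ∀ a b : ℝ × ℝ → ℝ, Continuous a → Continuous b →
  ∀ η : ℝ, 0 < η → ∃ (n : ℕ) (s0 s1 y0 y1 g f : Fin n → ℝ),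
    (∀ i, s0 i < s1 i ∧ y0 i < y1 i ∧ 0 ≤ s0 i ∧ s1 i ≤ T ∧ 0 ≤ y0 i ∧ y1 i ≤ 1) ∧
    (∀ i j, i ≠ j → s1 i ≤ s0 j ∨ s1 j ≤ s0 i ∨ y1 i ≤ y0 j ∨ y1 j ≤ y0 i) ∧
    (∀ p ∈ Q T, ¬ Good (a p) (b p) → ∃ i, p ∈ Icc (s0 i) (s1 i) ×ˢ Icc (y0 i) (y1 i)) ∧
    (∀ i, ∀ p ∈ Icc (s0 i) (s1 i) ×ˢ Icc (y0 i) (y1 i), |a p - g i| ≤ 1 / 8 ∧ |b p - f i| ≤ 1 / 8) ∧
    (∀ i, ¬ DG (g i) (f i)) ∧
    ENNReal.ofReal (∑ i, Psi (g i) (f i) * ((s1 i - s0 i) * (y1 i - y0 i))) ≤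
      bad T a b + ENNReal.ofReal η ∧
    ∫⁻ p in (⋃ i, Icc (s0 i) (s1 i) ×ˢ Icc (y0 i) (y1 i)), ENNReal.ofReal (Psi (a p) (b p)) ≤
      bad T a b + ENNReal.ofReal η

/-- `v` is an improvement of `u` (changed only on `D`) -/
structure Step (T ε : ℝ) (D : Set (ℝ × ℝ)) (u ut ux uxx v vt vx vxx : ℝ × ℝ → ℝ) : Prop where
  meas : MeasurableSet D
  same : ∀ p, p ∉ D → v p = u p ∧ vt p = ut p ∧ vx p = ux p ∧ vxx p = uxx p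
  near : ∀ p, |v p - u p| ≤ ε ∧ |vx p - ux p| ≤ ε
  cover : ∀ p ∈ Q T, ¬ Good (ut p) (uxx p) → p ∈ D
  mass : ∫⁻ p in D, ENNReal.ofReal (Psi (ut p) (uxx p)) ≤ bad T ut uxx + ENNReal.ofReal ε
  better : bad T vt vxx ≤ ENNReal.ofReal (3 / 4) * bad T ut uxx + ENNReal.ofReal ε
  theta : ∫⁻ p in D ∩ Q T ∩ {p | Good (vt p) (vxx p)}, ENNReal.ofReal (Th (vt p) (vxx p)) ≤
    200 * bad T ut uxx + ENNReal.ofReal ε

/-- STEP (from S_KEY, S_GRID, S_PTW). Proof. Grid with `η` small; in the open box `i` insert the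
perturbation `w_i` of S_KEY for `(g i, f i)` (`ε`, small `δ`), `v = u + ∑ w_i`, `D` = union of the
closed boxes. In the box `i`: `(G,F) = (g i + ∂ₜw_i, f i + ∂ₓ²w_i)` and the true value
`(∂ₜv, ∂ₓ²v)` differ by `≤ 1/8`. By S_PTW (DG gives Good): `bad v ≤ ∑ ∫ (3/2) J0(G,F) ≤
(3/4) ∑ Psi(g i, f i)|box i| + small`, and `∫ Th ≤ 400 ∫ J0 ≤ 200 ∑ Psi |box| + small`. Off `D` every
point of `Q T` is Good for `u`, hence for `v`. The boundaries of the boxes are null. -/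
def S_STEP : Prop := ∀ T : ℝ, 0 < T → ∀ u ut ux uxx : ℝ × ℝ → ℝ, St T u ut ux uxx →
  ∀ ε : ℝ, 0 < ε → ∃ (v vt vx vxx : ℝ × ℝ → ℝ) (D : Set (ℝ × ℝ)), St T v vt vx vxx ∧
    Step T ε D u ut ux uxx v vt vx vxx

/-- SEQ (from S_STEP). Proof. `u 0 = 0` (`bad = T`), dependent choice with `ε_n` small:
`bad (n+1) ≤ (3/4) bad n + ε_n ≤ T (7/8)^(n+1)` if `bad n ≤ T (7/8)^n` and `ε_n ≤ T (7/8)^n / 8`. -/
def S_SEQ : Prop := ∀ T : ℝ, 0 < T → ∃ (u ut ux uxx : ℕ → ℝ × ℝ → ℝ) (D : ℕ → Set (ℝ × ℝ)),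
  (∀ n, St T (u n) (ut n) (ux n) (uxx n)) ∧ (∀ p, u 0 p = 0 ∧ ut 0 p = 0 ∧ ux 0 p = 0 ∧ uxx 0 p = 0) ∧
  (∀ n, ∃ ε : ℝ, 0 < ε ∧ ε ≤ T * (7 / 8) ^ n ∧ ε ≤ (1 / 2) ^ n ∧
    Step T ε (D n) (u n) (ut n) (ux n) (uxx n) (u (n + 1)) (ut (n + 1)) (ux (n + 1)) (uxx (n + 1))) ∧
  ∀ n, bad T (ut n) (uxx n) ≤ ENNReal.ofReal (T * (7 / 8) ^ n)

/-- a sequence as in S_SEQ -/
structure Sq (T : ℝ) (u ut ux uxx : ℕ → ℝ × ℝ → ℝ) (D : ℕ → Set (ℝ × ℝ)) : Prop where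
  st : ∀ n, St T (u n) (ut n) (ux n) (uxx n)
  zero : ∀ p, u 0 p = 0 ∧ ut 0 p = 0 ∧ ux 0 p = 0 ∧ uxx 0 p = 0
  step : ∀ n, ∃ ε : ℝ, 0 < ε ∧ ε ≤ T * (7 / 8) ^ n ∧ ε ≤ (1 / 2) ^ n ∧
    Step T ε (D n) (u n) (ut n) (ux n) (uxx n) (u (n + 1)) (ut (n + 1)) (ux (n + 1)) (uxx (n + 1))
  bd : ∀ n, bad T (ut n) (uxx n) ≤ ENNReal.ofReal (T * (7 / 8) ^ n)

/-- L1. Limits of `u n`, `∂ₓu n` (uniform, geometric). -/
def S_L1 : Prop := ∀ (T : ℝ) (u ut ux uxx : ℕ → ℝ × ℝ → ℝ) (D : ℕ → Set (ℝ × ℝ)), 0 < T →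
  Sq T u ut ux uxx D → ∃ U Ux : ℝ × ℝ → ℝ, Continuous U ∧ Continuous Ux ∧
    (∀ t x, HasDerivAt (fun y => U (t, y)) (Ux (t, x)) x) ∧
    TendstoUniformly u U atTop ∧ TendstoUniformly ux Ux atTop

/-- L2. Almost everywhere `(∂ₜu n, ∂ₓ²u n)` is eventually constant, with a good value on `Q`. Proof.
`Psi ≥ 1`, so `|D n| ≤ bad n + ε ≤ 2T(7/8)^n`: Borel-Cantelli (`measure_limsup_atTop_eq_zero`);
a point of `Q` which is not in `D n` is good for `u n`. `G`, `F` = the limits (`0` where there is no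
limit; measurable), `0` off `Q`. -/
def S_L2 : Prop := ∀ (T : ℝ) (u ut ux uxx : ℕ → ℝ × ℝ → ℝ) (D : ℕ → Set (ℝ × ℝ)), 0 < T →
  Sq T u ut ux uxx D → ∃ G F : ℝ × ℝ → ℝ, Measurable G ∧ Measurable F ∧
    (∀ p, p ∉ Q T → G p = 0 ∧ F p = 0) ∧
    (∀ᵐ p : ℝ × ℝ, ∃ N, ∀ n, N ≤ n → p ∉ D n ∧ ut n p = G p ∧ uxx n p = F p) ∧
    ∀ᵐ p : ℝ × ℝ, p ∈ Q T → Good (G p) (F p)

/-- L3. `∂ₜu n` and `∂ₓ²u n` are Cauchy in `L¹` resp. `L²`. Proof. They change only on `D n`, and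
`|g| + f² ≤ Psi` and `≤ Th` on good points, so with `A n = ∫_{D n} (|ut n| + |ut (n+1)|)`,
`A n ≤ mass + (bad (n+1) + theta) ≤ 400 T (7/8)^n`-like bounds (off `Q` everything is `0`);
`∫ |uxx (n+1) - uxx n|² ≤ 2 ∫_{D n}(uxx n² + uxx (n+1)²)`. -/
def S_L3 : Prop := ∀ (T : ℝ) (u ut ux uxx : ℕ → ℝ × ℝ → ℝ) (D : ℕ → Set (ℝ × ℝ)), 0 < T →
  Sq T u ut ux uxx D → ∃ C : ℝ, ∀ n,
    ∫⁻ p, ENNReal.ofReal |ut (n + 1) p - ut n p| ≤ ENNReal.ofReal (C * (7 / 8) ^ n) ∧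
    ∫⁻ p, ENNReal.ofReal (|uxx (n + 1) p - uxx n p| ^ 2) ≤ ENNReal.ofReal (C * (7 / 8) ^ n)

/-- L4. `Th (G,F)` is integrable on `Q`. Proof. For a.e. `p ∈ Q` let `n` be the last index with
`p ∈ D n` (it exists, since `u 0 = 0` is bad everywhere in `Q`, so `Q ⊆ D 0`): then
`(G,F) = (ut (n+1), uxx (n+1))` at `p` and it is good, so
`∫_Q Th(G,F) ≤ ∑_n ∫_{D n ∩ Q ∩ good for u (n+1)} Th(u (n+1)) ≤ ∑_n (200 bad n + ε) < ∞`. -/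
def S_L4 : Prop := ∀ (T : ℝ) (u ut ux uxx : ℕ → ℝ × ℝ → ℝ) (D : ℕ → Set (ℝ × ℝ)), 0 < T →
  Sq T u ut ux uxx D → ∀ G F : ℝ × ℝ → ℝ, Measurable G → Measurable F →
    (∀ᵐ p : ℝ × ℝ, ∃ N, ∀ n, N ≤ n → p ∉ D n ∧ ut n p = G p ∧ uxx n p = F p) →
    (∀ᵐ p : ℝ × ℝ, p ∈ Q T → Good (G p) (F p)) →
    ∫⁻ p in Q T, ENNReal.ofReal (Th (G p) (F p)) < ⊤

/-- the solution in one space dimension: `U`, `∂ₓU = Ux`, `∂ₜU = G`, `∂ₓ²U = F` (weakly; the test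
functions need no support condition because everything vanishes off the bounded set `Q T`) -/
structure Sol (T : ℝ) (U Ux G F : ℝ × ℝ → ℝ) : Prop where
  cU : Continuous U
  cUx : Continuous Ux
  mG : Measurable G
  mF : Measurable F
  off : ∀ p, p ∉ Q T → U p = 0 ∧ Ux p = 0 ∧ G p = 0 ∧ F p = 0
  dx : ∀ t x, HasDerivAt (fun y => U (t, y)) (Ux (t, x)) x
  weakt : ∀ φ φt : ℝ × ℝ → ℝ, Continuous φ → Continuous φt →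
    (∀ t x, HasDerivAt (fun s => φ (s, x)) (φt (t, x)) t) → ∫ p, U p * φt p = -∫ p, G p * φ p
  weakx : ∀ φ φx : ℝ × ℝ → ℝ, Continuous φ → Continuous φx →
    (∀ t x, HasDerivAt (fun y => φ (t, y)) (φx (t, x)) x) → ∫ p, U p * φx p = -∫ p, Ux p * φ p
  weakxx : ∀ φ φx : ℝ × ℝ → ℝ, Continuous φ → Continuous φx →
    (∀ t x, HasDerivAt (fun y => φ (t, y)) (φx (t, x)) x) → ∫ p, Ux p * φx p = -∫ p, F p * φ p
  good : ∀ᵐ p : ℝ × ℝ, p ∈ Q T → Good (G p) (F p)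
  fin : ∫⁻ p in Q T, ENNReal.ofReal (Th (G p) (F p)) < ⊤

/-- SOL (from S_SEQ, S_L1, S_L2, S_L3, S_L4). Proof. The identities hold for `u n` (integration by
parts, compact support) and pass to the limit: `u n → U`, `ux n → Ux` uniformly with support in the
closure of `Q`, `ut n → G` in `L¹` and `uxx n → F` in `L²`, hence in `L¹` on `Q` (Cauchy by L3, the a.e.
limit is `G`, `F` by L2, Fatou). -/
def S_SOL : Prop := ∀ T : ℝ, 0 < T → ∃ U Ux G F : ℝ × ℝ → ℝ, Sol T U Ux G F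

/-! ## The problem on the torus (functions on `ℝ^(n+1)` with period `1` in every variable) -/

abbrev V (n : ℕ) := Fin (n + 1) → ℝ

/-- the unit cube -/
def cube (n : ℕ) : Set (V n) := {x | ∀ i, x i ∈ Ico (0 : ℝ) 1}

/-- `Q_T = (0,T) × 𝕋^(n+1)` -/
def QT (T : ℝ) (n : ℕ) : Set (ℝ × V n) := Ioo 0 T ×ˢ cube n

/-- `1`-periodic in all space variables -/
def Per {n : ℕ} (Φ : ℝ × V n → ℝ) : Prop := ∀ (t : ℝ) (x : V n) (k : Fin (n + 1) → ℤ),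
  Φ (t, fun i => x i + k i) = Φ (t, x)

/-- smooth test functions on `(0,T) × 𝕋^(n+1)`, with compact support -/
def IsTest {n : ℕ} (T : ℝ) (φ : ℝ × V n → ℝ) : Prop :=
  ContDiff ℝ ∞ φ ∧ Per φ ∧ ∃ a b : ℝ, 0 < a ∧ b < T ∧ ∀ t x, t ∉ Icc a b → φ (t, x) = 0

/-- `P = ∂ₜ Φ` in the sense of distributions -/
def WeakT {n : ℕ} (T : ℝ) (Φ P : ℝ × V n → ℝ) : Prop :=
  IntegrableOn Φ (QT T n) ∧ IntegrableOn P (QT T n) ∧ ∀ φ : ℝ × V n → ℝ, IsTest T φ →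
    ∫ p in QT T n, Φ p * fderiv ℝ φ p (1, 0) = -∫ p in QT T n, P p * φ p

/-- `P = ∂_i Φ` in the sense of distributions -/
def WeakX {n : ℕ} (T : ℝ) (i : Fin (n + 1)) (Φ P : ℝ × V n → ℝ) : Prop :=
  IntegrableOn Φ (QT T n) ∧ IntegrableOn P (QT T n) ∧ ∀ φ : ℝ × V n → ℝ, IsTest T φ →
    ∫ p in QT T n, Φ p * fderiv ℝ φ p (0, Pi.single i 1) = -∫ p in QT T n, P p * φ p

/-- `Φ ∈ X_μ`, with `Φt = ∂ₜΦ`, `D i = ∂_i Φ`, `H i j = ∂_j ∂_i Φ` -/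
structure InX {n : ℕ} (T : ℝ) (μ Φ Φt : ℝ × V n → ℝ) (D : Fin (n + 1) → ℝ × V n → ℝ)
    (H : Fin (n + 1) → Fin (n + 1) → ℝ × V n → ℝ) : Prop where
  per : Per Φ
  weakt : WeakT T Φ Φt
  weakx : ∀ i, WeakX T i Φ (D i)
  weakxx : ∀ i j, WeakX T j (D i) (H i j)
  /-- `L^∞(0,T;H¹)` -/
  linf : ∃ C : ℝ, ∀ᵐ t : ℝ, t ∈ Ioo 0 T →
    ∫⁻ x in cube n, ENNReal.ofReal (Φ (t, x) ^ 2 + ∑ i, D i (t, x) ^ 2) ≤ ENNReal.ofReal C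
  /-- `L²(0,T;H²)` -/
  l2 : ∫⁻ p in QT T n, ENNReal.ofReal (Φ p ^ 2 + ∑ i, D i p ^ 2 + ∑ i, ∑ j, H i j p ^ 2) < ⊤
  /-- `C⁰([0,T];L²)` -/
  memL2 : ∀ t ∈ Icc 0 T, AEStronglyMeasurable (fun x => Φ (t, x)) (volume.restrict (cube n)) ∧
    ∫⁻ x in cube n, ENNReal.ofReal (Φ (t, x) ^ 2) < ⊤
  cont : ∀ t ∈ Icc 0 T, Tendsto (fun s => ∫⁻ x in cube n, ENNReal.ofReal ((Φ (s, x) - Φ (t, x)) ^ 2))
    (𝓝[Icc 0 T] t) (𝓝 0)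
  /-- `μ^(-1/2) ∂ₜΦ ∈ L²(Q_T)` -/
  wt : ∫⁻ p in QT T n, ENNReal.ofReal (Φt p ^ 2 / μ p) < ⊤
  /-- `μ^(1/2) ΔΦ ∈ L²(Q_T)` -/
  wx : ∫⁻ p in QT T n, ENNReal.ofReal (μ p * (∑ i, H i i p) ^ 2) < ⊤

/-- ND (from S_SOL). Proof. `Φ(t,x) = U(T-t, fract x₀)`, `D 0 = Ux(T-t, fract x₀)`,
`H 0 0 = F(T-t, fract x₀)`, `Φt = -G(T-t, fract x₀)`, the others `0`, `μ = G/F` at
`(T-t, fract x₀)` where it is `> 1`, else `1`. (`|G|>|F|>1/2`, `GF>0` a.e. so `μ > 1`, and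
`μ = |G/F| ≤ Th`, `Φt²/μ = GF ≤ Th`, `μ F² = GF ≤ Th`.) Weak derivatives: Fubini in
`(t, x₀; x')`, for every `x'` the one-dimensional identities with
`φ(T-t, x₀, x')`; for `j ≠ 0`: `∫_0^1 ∂_jφ dx_j = 0` by periodicity. -/
def S_ND : Prop := ∀ (n : ℕ) (T : ℝ), 0 < T → ∀ U Ux G F : ℝ × ℝ → ℝ, Sol T U Ux G F →
  ∃ (μ Φ Φt : ℝ × V n → ℝ) (D : Fin (n + 1) → ℝ × V n → ℝ)
    (H : Fin (n + 1) → Fin (n + 1) → ℝ × V n → ℝ),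
    Measurable μ ∧ Per μ ∧ IntegrableOn μ (QT T n) ∧ (∀ p, 1 ≤ μ p) ∧ InX T μ Φ Φt D H ∧
    (∀ᵐ p ∂(volume.restrict (QT T n)), Φt p + μ p * ∑ i, H i i p = 0) ∧
    (∀ x, Φ (T, x) = 0) ∧ ¬ (∀ᵐ p ∂(volume.restrict (QT T n)), Φ p = 0)

end Pool.Agent.Q64.BP
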